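import Mathlib

set_option autoImplicit false

open Set Filter Topology MeasureTheory Metric
open scoped ContDiff ENNReal NNReal ComplexConjugate Real

namespace Pool.Agent.H366R3.ED

/-- the annulus -/
def ann (a b : ℝ) : Set ℂ := {z | a < ‖z‖ ∧ ‖z‖ < b}

lemma ann_open (a b : ℝ) : IsOpen (ann a b) :=
  (isOpen_lt continuous_const continuous_norm).inter (isOpen_lt continuous_norm continuous_const)

lemma circleMap_mem_ann {a b r θ : ℝ} (ha : 0 ≤ a) (h : r ∈ Ioo a b) : circleMap 0 r θ ∈ ann a b := by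
  have : ‖circleMap 0 r θ‖ = r := by
    rw [norm_circleMap_zero, abs_of_pos (ha.trans_lt h.1)]
  exact ⟨by rw [this]; exact h.1, by rw [this]; exact h.2⟩

lemma polar_symm (p : ℝ × ℝ) : Complex.polarCoord.symm p = circleMap 0 p.1 p.2 := by
  rw [Complex.polarCoord_symm_apply]
  simp only [circleMap, Complex.exp_mul_I, Complex.ofReal_cos, Complex.ofReal_sin, zero_add]

lemma polar_ind {F : Type*} [Zero F] {a b : ℝ} (ha : 0 ≤ a) (g : ℝ × ℝ → F) (f : ℂ → F)
    (m : ℝ → F → F) (hm0 : ∀ r, m r 0 = 0)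
    (hg : ∀ p, g p = m p.1 (f (circleMap 0 p.1 p.2))) (p : ℝ × ℝ) :
    (Ioi (0 : ℝ) ×ˢ Ioo (-π) π).indicator
      (fun p => m p.1 ((ann a b).indicator f (circleMap 0 p.1 p.2))) p =
      (Ioo a b ×ˢ Ioo (-π) π).indicator g p := by
  by_cases hp1 : p ∈ Ioi (0 : ℝ) ×ˢ Ioo (-π) π
  · rw [indicator_of_mem hp1]
    have hn : ‖circleMap 0 p.1 p.2‖ = p.1 := by
      rw [norm_circleMap_zero, abs_of_pos (show 0 < p.1 from hp1.1)]
    by_cases hp2 : p.1 ∈ Ioo a b
    · rw [indicator_of_mem (show circleMap 0 p.1 p.2 ∈ ann a b from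
        ⟨by rw [hn]; exact hp2.1, by rw [hn]; exact hp2.2⟩),
        indicator_of_mem (show p ∈ Ioo a b ×ˢ Ioo (-π) π from ⟨hp2, hp1.2⟩), hg]
    · rw [indicator_of_notMem (show circleMap 0 p.1 p.2 ∉ ann a b from fun h => hp2
        ⟨by rw [← hn]; exact h.1, by rw [← hn]; exact h.2⟩),
        indicator_of_notMem (fun h => hp2 h.1), hm0]
  · rw [indicator_of_notMem hp1, indicator_of_notMem (fun h => hp1 ⟨ha.trans_lt h.1.1, h.2⟩)]

lemma polar_lint {a b : ℝ} (ha : 0 ≤ a) (f : ℂ → ℝ≥0∞) :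
    ∫⁻ z in ann a b, f z = ∫⁻ p in Ioo a b ×ˢ Ioo (-π) π,
      ENNReal.ofReal p.1 * f (circleMap 0 p.1 p.2) ∂(volume.prod volume) := by
  rw [← lintegral_indicator (ann_open a b).measurableSet, ← Complex.lintegral_comp_polarCoord_symm,
    polarCoord_target, ← lintegral_indicator (measurableSet_Ioi.prod measurableSet_Ioo),
    ← Measure.volume_eq_prod, ← lintegral_indicator (measurableSet_Ioo.prod measurableSet_Ioo)]
  congr 1
  ext p
  simp_rw [polar_symm, smul_eq_mul]
  exact polar_ind ha (fun p => ENNReal.ofReal p.1 * f (circleMap 0 p.1 p.2)) f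
    (fun r x => ENNReal.ofReal r * x) (fun r => mul_zero _) (fun p => rfl) p

lemma polar_int {E : Type*} [NormedAddCommGroup E] [NormedSpace ℝ E] {a b : ℝ} (ha : 0 ≤ a)
    (f : ℂ → E) :
    ∫ z in ann a b, f z = ∫ p in Ioo a b ×ˢ Ioo (-π) π,
      p.1 • f (circleMap 0 p.1 p.2) ∂(volume.prod volume) := by
  rw [← integral_indicator (ann_open a b).measurableSet, ← Complex.integral_comp_polarCoord_symm,
    polarCoord_target, ← integral_indicator (measurableSet_Ioi.prod measurableSet_Ioo),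
    ← Measure.volume_eq_prod, ← integral_indicator (measurableSet_Ioo.prod measurableSet_Ioo)]
  congr 1
  ext p
  simp_rw [polar_symm]
  exact polar_ind ha (fun p => p.1 • f (circleMap 0 p.1 p.2)) f
    (fun r x => r • x) (fun r => smul_zero _) (fun p => rfl) p

lemma circleMap_cont : Continuous fun p : ℝ × ℝ => circleMap 0 p.1 p.2 := by
  simp only [circleMap]; fun_prop

lemma polar_integrable {E : Type*} [NormedAddCommGroup E] [NormedSpace ℝ E]
    [SecondCountableTopologyEither (ℝ × ℝ) E] {a b : ℝ} (ha : 0 ≤ a)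
    {f : ℂ → E} (hf : ContinuousOn f (ann a b)) (hi : IntegrableOn f (ann a b)) :
    IntegrableOn (fun p : ℝ × ℝ => p.1 • f (circleMap 0 p.1 p.2)) (Ioo a b ×ˢ Ioo (-π) π)
      (volume.prod volume) := by
  have hc : ContinuousOn (fun p : ℝ × ℝ => p.1 • f (circleMap 0 p.1 p.2))
      (Ioo a b ×ˢ Ioo (-π) π) := by
    apply continuous_fst.continuousOn.smul
    apply hf.comp circleMap_cont.continuousOn
    intro p hp
    exact circleMap_mem_ann ha hp.1
  refine ⟨hc.aestronglyMeasurable (measurableSet_Ioo.prod measurableSet_Ioo), ?_⟩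
  have h1 := hi.2
  rw [HasFiniteIntegral, polar_lint ha] at h1
  rw [HasFiniteIntegral]
  refine lt_of_le_of_lt (le_of_eq ?_) h1
  apply setLIntegral_congr_fun (measurableSet_Ioo.prod measurableSet_Ioo)
  intro p hp
  have h0 : 0 ≤ p.1 := ha.trans hp.1.1.le
  beta_reduce
  rw [enorm_smul, Real.enorm_eq_ofReal h0]

lemma avg_eq {E : Type*} [NormedAddCommGroup E] [NormedSpace ℝ E] (f : ℂ → E) (r : ℝ) :
    ∫ θ in Ioo (-π) π, f (circleMap 0 r θ) = (2 * π) • Real.circleAverage f 0 r := by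
  rw [Real.circleAverage_eq_integral_add (-Real.pi),
        intervalIntegral.integral_comp_add_right (fun x => f (circleMap 0 r x)),
        ← integral_Ioc_eq_integral_Ioo, ← intervalIntegral.integral_of_le (by
          linarith [Real.pi_pos])]
  have : (2 * Real.pi + -Real.pi) = Real.pi := by ring
  rw [this, zero_add, smul_smul]
  have hπ := Real.pi_pos
  have : 2 * π * (2 * π)⁻¹ = 1 := by field_simp
  rw [this, one_smul]

lemma polar_avg {E : Type*} [NormedAddCommGroup E] [NormedSpace ℝ E]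
    [SecondCountableTopologyEither (ℝ × ℝ) E] {a b : ℝ} (ha : 0 ≤ a)
    {f : ℂ → E} (hf : ContinuousOn f (ann a b)) (hi : IntegrableOn f (ann a b)) :
    ∫ z in ann a b, f z = ∫ r in Ioo a b, (2 * π * r) • Real.circleAverage f 0 r := by
  rw [polar_int ha, setIntegral_prod _ (polar_integrable ha hf hi)]
  congr 1
  funext r
  rw [integral_smul, avg_eq, smul_smul, mul_comm r]

/-- independence of the radius -/
lemma avg_const {a b : ℝ} (ha : 0 ≤ a) {f : ℂ → ℂ} (hf : DifferentiableOn ℂ f (ann a b)) {r s : ℝ}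
    (hr : r ∈ Ioo a b) (hs : s ∈ Ioo a b) :
    Real.circleAverage f 0 r = Real.circleAverage f 0 s := by
  wlog hrs : r ≤ s generalizing r s
  · exact (this hs hr (not_le.1 hrs).le).symm
  have hr0 : 0 < r := ha.trans_lt hr.1
  have h1 := Complex.circleIntegral_sub_center_inv_smul_eq_of_differentiable_on_annulus_off_countable
    (c := 0) hr0 hrs (f := f) (s := ∅) countable_empty ?_ ?_
  · rw [Real.circleAverage_eq_circleIntegral hr0.ne',
      Real.circleAverage_eq_circleIntegral (hr0.trans_le hrs).ne', h1]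
  · apply hf.continuousOn.mono
    rintro z ⟨hz1, hz2⟩
    rw [mem_closedBall_zero_iff] at hz1
    rw [mem_ball_zero_iff, not_lt] at hz2
    exact ⟨hr.1.trans_le hz2, hz1.trans_lt hs.2⟩
  · rintro z ⟨⟨hz1, hz2⟩, -⟩
    rw [mem_ball_zero_iff] at hz1
    rw [mem_closedBall_zero_iff, not_le] at hz2
    exact hf.differentiableAt ((ann_open a b).mem_nhds ⟨hr.1.trans hz2, hz1.trans hs.2⟩)

end Pool.Agent.H366R3.ED
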