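import Mathlib
import Pool.Agent.H366R3.ED.Polar

set_option autoImplicit false

open Set Filter Topology MeasureTheory Metric
open scoped ContDiff ENNReal NNReal ComplexConjugate Real

namespace Pool.Agent.H366R3.ED

/-- continuous convergence -/
def CC {E : Type*} [TopologicalSpace E] (l : Filter ℕ) (V : Set ℂ) (F : ℕ → ℂ → E)
    (f : ℂ → E) : Prop :=
  ∀ z ∈ V, Tendsto (fun p : ℕ × ℂ => F p.1 p.2) (l ×ˢ 𝓝 z) (𝓝 (f z))

lemma CC.mono {E : Type*} [TopologicalSpace E] {l : Filter ℕ} {V W : Set ℂ} {F : ℕ → ℂ → E}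
    {f : ℂ → E} (h : CC l V F f) (hWV : W ⊆ V) : CC l W F f := fun z hz => h z (hWV hz)

lemma CC.comp {E E' : Type*} [TopologicalSpace E] [TopologicalSpace E'] {l : Filter ℕ} {V : Set ℂ}
    {F : ℕ → ℂ → E} {f : ℂ → E} (h : CC l V F f) {φ : E → E'} (hφ : Continuous φ) :
    CC l V (fun i z => φ (F i z)) (fun z => φ (f z)) :=
  fun z hz => (hφ.tendsto _).comp (h z hz)

lemma CC.mul {l : Filter ℕ} {V : Set ℂ} {F G : ℕ → ℂ → ℂ} {f g : ℂ → ℂ} (hF : CC l V F f)
    (hG : CC l V G g) : CC l V (fun i z => F i z * G i z) (fun z => f z * g z) :=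
  fun z hz => (hF z hz).mul (hG z hz)

lemma CC.mul_fun {l : Filter ℕ} {V : Set ℂ} {F : ℕ → ℂ → ℂ} {f g : ℂ → ℂ} (hF : CC l V F f)
    (hV : IsOpen V) (hg : ContinuousOn g V) : CC l V (fun i z => F i z * g z) (fun z => f z * g z) :=
  fun z hz => (hF z hz).mul (((hg z hz).continuousAt (hV.mem_nhds hz)).tendsto.comp tendsto_snd)

lemma CC.continuousOn {E : Type*} [PseudoMetricSpace E] {l : Filter ℕ} [l.NeBot] {V : Set ℂ}
    (hV : IsOpen V) {F : ℕ → ℂ → E} {f : ℂ → E} (h : CC l V F f) : ContinuousOn f V := by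
  intro z hz
  apply ContinuousAt.continuousWithinAt
  rw [Metric.continuousAt_iff']
  intro ε hε
  have h1 := (Metric.tendsto_nhds.1 (h z hz)) (ε / 2) (by positivity)
  obtain ⟨pa, ha, pb, hb, hab⟩ := Filter.eventually_prod_iff.1 h1
  filter_upwards [hb, hV.mem_nhds hz] with w hw hwV
  have h2 : Tendsto (fun i => F i w) l (𝓝 (f w)) :=
    (h w hwV).comp (tendsto_id.prodMk tendsto_const_nhds)
  have h3 : ∀ᶠ i in l, dist (F i w) (f z) ≤ ε / 2 := by
    filter_upwards [ha] with i hi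
    exact (hab hi hw).le
  have h4 : Tendsto (fun i => dist (F i w) (f z)) l (𝓝 (dist (f w) (f z))) :=
    h2.dist tendsto_const_nhds
  have := le_of_tendsto h4 h3
  linarith

lemma CC.pt {E : Type*} [TopologicalSpace E] {l : Filter ℕ} {V : Set ℂ} {F : ℕ → ℂ → E}
    {f : ℂ → E} (h : CC l V F f) {z : ℂ} (hz : z ∈ V) : Tendsto (fun i => F i z) l (𝓝 (f z)) :=
  (h z hz).comp (tendsto_id.prodMk tendsto_const_nhds)

lemma CC.unif {E : Type*} [PseudoMetricSpace E] {l : Filter ℕ} {V : Set ℂ}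
    (hV : IsOpen V) {F : ℕ → ℂ → E} {f : ℂ → E} (h : CC l V F f) (hf : ContinuousOn f V)
    {K : Set ℂ} (hK : IsCompact K) (hKV : K ⊆ V) {ε : ℝ} (hε : 0 < ε) :
    ∀ᶠ i in l, ∀ z ∈ K, dist (F i z) (f z) < ε := by
  apply hK.induction_on (p := fun S => ∀ᶠ i in l, ∀ z ∈ S, dist (F i z) (f z) < ε)
  · exact Eventually.of_forall fun i z hz => absurd hz (notMem_empty z)
  · intro s t hst ht
    filter_upwards [ht] with i hi z hz
    exact hi z (hst hz)
  · intro s t hs ht
    filter_upwards [hs, ht] with i hi hi' z hz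
    rcases hz with hz | hz
    · exact hi z hz
    · exact hi' z hz
  · intro x hx
    have h1 := (Metric.tendsto_nhds.1 (h x (hKV hx))) (ε / 2) (by positivity)
    obtain ⟨pa, ha, pb, hb, hab⟩ := Filter.eventually_prod_iff.1 h1
    have h2 : ∀ᶠ w in 𝓝 x, dist (f w) (f x) < ε / 2 :=
      Metric.tendsto_nhds.1 ((hf x (hKV hx)).continuousAt (hV.mem_nhds (hKV hx))) (ε / 2)
        (by positivity)
    refine ⟨{w | pb w ∧ dist (f w) (f x) < ε / 2}, mem_nhdsWithin_of_mem_nhds (hb.and h2), ?_⟩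
    filter_upwards [ha] with i hi w hw
    have h3 := hab hi hw.1
    have h4 := hw.2
    have h5 := dist_triangle_right (F i w) (f w) (f x)
    simp only at h3
    linarith

lemma CC.tlu {l : Filter ℕ} [l.NeBot] {V : Set ℂ} (hV : IsOpen V) {F : ℕ → ℂ → ℂ} {f : ℂ → ℂ}
    (h : CC l V F f) : TendstoLocallyUniformlyOn F f l V := by
  rw [Metric.tendstoLocallyUniformlyOn_iff]
  intro ε hε x hx
  have hf := h.continuousOn hV
  have h1 := (Metric.tendsto_nhds.1 (h x hx)) (ε / 2) (by positivity)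
  obtain ⟨pa, ha, pb, hb, hab⟩ := Filter.eventually_prod_iff.1 h1
  have h2 : ∀ᶠ w in 𝓝 x, dist (f w) (f x) < ε / 2 :=
    Metric.tendsto_nhds.1 ((hf x hx).continuousAt (hV.mem_nhds hx)) (ε / 2)
      (by positivity)
  refine ⟨{w | pb w ∧ dist (f w) (f x) < ε / 2}, mem_nhdsWithin_of_mem_nhds (hb.and h2), ?_⟩
  filter_upwards [ha] with i hi w hw
  have h3 := hab hi hw.1
  have h4 := hw.2
  have h5 := dist_triangle_right (f w) (F i w) (f x)
  simp only at h3
  linarith

/-- convergence of integrals -/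
lemma CC.setIntegral {E : Type*} [NormedAddCommGroup E] [NormedSpace ℝ E] {l : Filter ℕ}
    {V : Set ℂ} (hV : IsOpen V) {F : ℕ → ℂ → E} {f : ℂ → E} (h : CC l V F f)
    (hf : ContinuousOn f V) {K : Set ℂ} (hK : IsCompact K) (hKV : K ⊆ V)
    (hF : ∀ᶠ i in l, ContinuousOn (F i) K) :
    Tendsto (fun i => ∫ z in K, F i z) l (𝓝 (∫ z in K, f z)) := by
  rw [Metric.tendsto_nhds]
  intro ε hε
  set m : ℝ := (volume K).toReal with hm
  have hm0 : 0 ≤ m := ENNReal.toReal_nonneg
  have h1 := h.unif hV hf hK hKV (ε := ε / (m + 1)) (by positivity)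
  filter_upwards [h1, hF] with i hi hFi
  have i1 : IntegrableOn (F i) K := hFi.integrableOn_compact hK
  have i2 : IntegrableOn f K := (hf.mono hKV).integrableOn_compact hK
  rw [dist_eq_norm, ← integral_sub i1 i2]
  have h2 : ‖∫ z in K, (F i z - f z)‖ ≤ ε / (m + 1) * (volume K).toReal := by
    apply norm_setIntegral_le_of_norm_le_const hK.measure_lt_top
    intro z hz
    rw [← dist_eq_norm]; exact (hi z hz).le
  refine lt_of_le_of_lt h2 ?_
  rw [← hm, div_mul_eq_mul_div, div_lt_iff₀ (by positivity)]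
  nlinarith

lemma CC.avg {l : Filter ℕ} {V : Set ℂ} (hV : IsOpen V) {F : ℕ → ℂ → ℂ} {f : ℂ → ℂ}
    (h : CC l V F f) (hf : ContinuousOn f V) {s : ℝ} (hKV : sphere 0 |s| ⊆ V)
    (hF : ∀ᶠ i in l, ContinuousOn (F i) (sphere 0 |s|)) :
    Tendsto (fun i => Real.circleAverage (F i) 0 s) l (𝓝 (Real.circleAverage f 0 s)) := by
  rw [Metric.tendsto_nhds]
  intro ε hε
  have h1 := h.unif hV hf (isCompact_sphere 0 |s|) hKV (ε := ε / 2) (by positivity)
  filter_upwards [h1, hF] with i hi hFi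
  have i1 : CircleIntegrable (F i) 0 s := hFi.circleIntegrable'
  have i2 : CircleIntegrable f 0 s := (hf.mono hKV).circleIntegrable'
  rw [dist_eq_norm, ← Real.circleAverage_sub i1 i2, Real.circleAverage_def, norm_smul]
  have h2 : ‖∫ θ in (0:ℝ)..2 * π, (F i - f) (circleMap 0 s θ)‖ ≤ ε / 2 * |2 * π - 0| := by
    apply intervalIntegral.norm_integral_le_of_norm_le_const
    intro θ _
    rw [Pi.sub_apply, ← dist_eq_norm]
    exact (hi _ (circleMap_mem_sphere' 0 s θ)).le
  have hπ := Real.pi_pos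
  rw [Real.norm_of_nonneg (by positivity)]
  rw [sub_zero, abs_of_pos (by positivity)] at h2
  calc (2 * π)⁻¹ * ‖∫ θ in (0:ℝ)..2 * π, (F i - f) (circleMap 0 s θ)‖
      ≤ (2 * π)⁻¹ * (ε / 2 * (2 * π)) := by gcongr
    _ = ε / 2 := by field_simp
    _ < ε := by linarith

/-- existence of limits under a local Lipschitz bound -/
lemma lip_limit (l : Ultrafilter ℕ) {V : Set ℂ} {H : ℕ → ℂ → ℂ}
    (hloc : ∀ z ∈ V, ∃ r > 0, ∃ B C : ℝ, ∀ᶠ i in (l : Filter ℕ), ‖H i z‖ ≤ C ∧
      ∀ w ∈ ball z r, ‖H i w - H i z‖ ≤ B * ‖w - z‖) : ∃ f : ℂ → ℂ, CC l V H f := by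
  have hex : ∀ z, ∃ y : ℂ, z ∈ V → Tendsto (fun i => H i z) l (𝓝 y) := by
    intro z
    by_cases hz : z ∈ V
    · obtain ⟨r, hr, B, C, hev⟩ := hloc z hz
      have h1 : (l.map (fun i => H i z) : Filter ℂ) ≤ 𝓟 (closedBall (0 : ℂ) C) := by
        rw [le_principal_iff, Ultrafilter.mem_coe, Ultrafilter.mem_map]
        show ∀ᶠ i in (l : Filter ℕ), H i z ∈ closedBall (0 : ℂ) C
        filter_upwards [hev] with i hi
        rw [mem_closedBall_zero_iff]; exact hi.1
      obtain ⟨y, hy, hy2⟩ := (isCompact_closedBall (0 : ℂ) C).ultrafilter_le_nhds _ h1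
      exact ⟨y, fun _ => hy2⟩
    · exact ⟨0, fun h => absurd h hz⟩
  choose f hf using hex
  refine ⟨f, fun z hz => ?_⟩
  obtain ⟨r, hr, B, C, hev⟩ := hloc z hz
  rw [Metric.tendsto_nhds]
  intro ε hε
  have h1 : ∀ᶠ i in (l : Filter ℕ), dist (H i z) (f z) < ε / 2 :=
    Metric.tendsto_nhds.1 (hf z hz) _ (by positivity)
  have h2 : ∀ᶠ w in 𝓝 z, w ∈ ball z (min r (ε / (2 * (|B| + 1)))) :=
    ball_mem_nhds z (by positivity)
  filter_upwards [(h1.and hev).prod_mk h2] with p hp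
  obtain ⟨⟨k1, -, k2⟩, k3⟩ := hp
  rw [mem_ball, lt_min_iff] at k3
  have k4 := k2 p.2 k3.1
  have k5 : B * ‖p.2 - z‖ < ε / 2 := by
    have k6 : ‖p.2 - z‖ < ε / (2 * (|B| + 1)) := by rw [← dist_eq_norm]; exact k3.2
    rw [lt_div_iff₀ (by positivity)] at k6
    have k7 : B * ‖p.2 - z‖ ≤ |B| * ‖p.2 - z‖ := by
      gcongr; exact le_abs_self B
    nlinarith [norm_nonneg (p.2 - z)]
  have k6 := dist_triangle (H p.1 p.2) (H p.1 z) (f z)
  rw [dist_eq_norm (H p.1 p.2) (H p.1 z)] at k6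
  linarith

/-- existence of limits of locally bounded holomorphic functions -/
lemma holo_limit (l : Ultrafilter ℕ) {V : Set ℂ} (hV : IsOpen V) {F : ℕ → ℂ → ℂ}
    (hloc : ∀ z ∈ V, ∃ r > 0, ∃ B : ℝ, ∀ᶠ i in (l : Filter ℕ), DifferentiableOn ℂ (F i) (ball z r) ∧
      ∀ w ∈ ball z r, ‖F i w‖ ≤ B) :
    ∃ f : ℂ → ℂ, DifferentiableOn ℂ f V ∧ CC l V F f := by
  obtain ⟨f, hf⟩ := lip_limit l (V := V) (H := F) (by
    intro z hz
    obtain ⟨r, hr, B, hev⟩ := hloc z hz
    refine ⟨r, hr, (2 * B) / r, B, ?_⟩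
    filter_upwards [hev] with i hi
    refine ⟨hi.2 z (mem_ball_self hr), fun w hw => ?_⟩
    have h1 := Complex.dist_le_div_mul_dist_of_mapsTo_ball (R₂ := 2 * B) hi.1 (by
      intro x hx
      rw [mem_closedBall, dist_eq_norm]
      have a1 := hi.2 x hx
      have a2 := hi.2 z (mem_ball_self hr)
      have a3 := norm_sub_le (F i x) (F i z)
      linarith) hw
    rwa [dist_eq_norm, dist_eq_norm] at h1)
  refine ⟨f, fun z hz => ?_, hf⟩
  obtain ⟨r, hr, B, hev⟩ := hloc z hz
  obtain ⟨r', hr', hrV⟩ := Metric.isOpen_iff.1 hV z hz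
  set r₀ := min r r' with hr₀
  have hr₀p : 0 < r₀ := lt_min hr hr'
  have h1 : CC l (ball z r₀) F f := hf.mono ((ball_subset_ball (min_le_right _ _)).trans hrV)
  have h2 := (h1.tlu isOpen_ball).differentiableOn (by
    filter_upwards [hev] with i hi
    exact hi.1.mono (ball_subset_ball (min_le_left _ _))) isOpen_ball
  exact (h2.differentiableAt (isOpen_ball.mem_nhds (mem_ball_self hr₀p))).differentiableWithinAt

/-- mean value bound -/
lemma holo_sq_le {F : ℂ → ℂ} {w : ℂ} {r : ℝ} (hr : 0 < r) (hF : DifferentiableOn ℂ F (ball w r))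
    (hi : IntegrableOn (fun z => ‖F z‖ ^ 2) (ball w r)) :
    π * r ^ 2 * ‖F w‖ ^ 2 ≤ ∫ z in ball w r, ‖F z‖ ^ 2 := by
  set f : ℂ → ℂ := fun z => F (w + z) ^ 2 with hf
  have hmap : MapsTo (fun z => w + z) (ball 0 r) (ball w r) := by
    intro z hz
    rw [mem_ball_zero_iff] at hz
    rw [mem_ball, dist_eq_norm, add_sub_cancel_left]; exact hz
  have hfd : DifferentiableOn ℂ f (ball 0 r) :=
    (hF.comp (differentiable_id.const_add w).differentiableOn hmap).pow 2
  have hsub : ann 0 r ⊆ ball 0 r := fun z hz => by rw [mem_ball_zero_iff]; exact hz.2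
  have e1 : ∀ g : ℂ → ℝ, ∫ z in ball w r, g z = ∫ z in ball 0 r, g (w + z) := by
    intro g
    rw [← integral_indicator measurableSet_ball, ← integral_indicator measurableSet_ball,
      ← integral_add_left_eq_self (fun z => (ball w r).indicator g z) w]
    congr 1
    funext z
    by_cases hz : z ∈ ball (0 : ℂ) r
    · rw [indicator_of_mem hz, indicator_of_mem (hmap hz)]
    · rw [indicator_of_notMem hz, indicator_of_notMem]
      intro h; apply hz
      rw [mem_ball, dist_eq_norm, add_sub_cancel_left] at h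
      rwa [mem_ball_zero_iff]
  have hi2 : IntegrableOn (fun z => ‖f z‖) (ball 0 r) := by
    have h1 : Integrable ((ball w r).indicator fun z => ‖F z‖ ^ 2) :=
      (integrable_indicator_iff measurableSet_ball).2 hi
    have h2 := h1.comp_add_left w
    rw [← integrable_indicator_iff measurableSet_ball]
    refine h2.congr (Eventually.of_forall fun z => ?_)
    show (ball w r).indicator (fun z => ‖F z‖ ^ 2) (w + z) = _
    by_cases hz : z ∈ ball (0 : ℂ) r
    · rw [indicator_of_mem hz, indicator_of_mem (hmap hz), hf]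
      simp only [norm_pow]
    · rw [indicator_of_notMem hz, indicator_of_notMem]
      intro h; apply hz
      rw [mem_ball, dist_eq_norm, add_sub_cancel_left] at h
      rwa [mem_ball_zero_iff]
  have hi3 : IntegrableOn f (ann 0 r) := by
    have h1 : AEStronglyMeasurable f (volume.restrict (ann 0 r)) :=
      (hfd.continuousOn.mono hsub).aestronglyMeasurable (ann_open 0 r).measurableSet
    exact (integrable_norm_iff h1).1 (hi2.mono_set hsub)
  have h1 := polar_avg le_rfl (hfd.continuousOn.mono hsub) hi3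
  have h2 : ∀ s ∈ Ioo 0 r, (2 * π * s) • Real.circleAverage f 0 s = ((2 * π * s : ℝ) : ℂ) * f 0 := by
    intro s hs
    have : closedBall (0 : ℂ) |s| ⊆ ball 0 r := by
      rw [abs_of_pos hs.1]; exact closedBall_subset_ball hs.2
    rw [Complex.real_smul]
    congr 1
    apply circleAverage_of_differentiable_on_off_countable countable_empty
      (hfd.continuousOn.mono this)
    intro z hz
    exact hfd.differentiableAt (isOpen_ball.mem_nhds (this (ball_subset_closedBall hz.1)))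
  rw [setIntegral_congr_fun measurableSet_Ioo h2, ← integral_Ioc_eq_integral_Ioo,
    ← intervalIntegral.integral_of_le hr.le, intervalIntegral.integral_mul_const,
    intervalIntegral.integral_ofReal] at h1
  have h3 : ∫ s in (0:ℝ)..r, 2 * π * s = π * r ^ 2 := by
    rw [intervalIntegral.integral_const_mul, integral_id]; ring
  rw [h3] at h1
  have h4 : ‖∫ z in ann 0 r, f z‖ ≤ ∫ z in ball 0 r, ‖f z‖ :=
    (norm_integral_le_integral_norm _).trans (setIntegral_mono_set hi2
      (Eventually.of_forall fun z => norm_nonneg _) hsub.eventuallyLE)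
  rw [h1, norm_mul, Complex.norm_real, Real.norm_of_nonneg (by positivity)] at h4
  have h5 : ‖f 0‖ = ‖F w‖ ^ 2 := by rw [hf]; simp
  rw [h5] at h4
  refine h4.trans (le_of_eq ?_)
  rw [e1]
  congr 1
  funext z
  rw [hf]; simp

end Pool.Agent.H366R3.ED
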