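import Mathlib
import Pool.Agent.H781R2.Pars
import Pool.Agent.Helper563.Dom.Berg
import Pool.Agent.H366R3.ED.Polar

set_option autoImplicit false

open Set Filter Topology MeasureTheory Metric
open scoped ContDiff ENNReal NNReal ComplexConjugate Real

namespace Pool.Agent.H366R3.ED

/-- power series data -/
lemma exists_coeff {G : ℂ → ℂ} (hG : DifferentiableOn ℂ G (ball 0 1)) :
    ∃ a : ℕ → ℂ, (∀ z ∈ ball (0 : ℂ) 1, HasSum (fun n => a n * z ^ n) (G z)) ∧
      (∀ z ∈ ball (0 : ℂ) 1, HasSum (fun n => ((n + 1 : ℕ) * a (n + 1)) * z ^ n) (deriv G z)) ∧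
      ∀ ρ : ℝ, 0 ≤ ρ → ρ < 1 → Summable (fun n => ‖a n‖ * ρ ^ n) := by
  refine ⟨fun n => ((n.factorial : ℂ))⁻¹ * iteratedDeriv n G 0, ?_, ?_, ?_⟩
  · intro z hz
    have := Complex.hasSum_taylorSeries_on_ball hG hz
    simp only [sub_zero, smul_eq_mul] at this
    refine this.congr_fun fun n => ?_
    ring
  · intro z hz
    have hd : DifferentiableOn ℂ (deriv G) (ball 0 1) := hG.deriv isOpen_ball
    have := Complex.hasSum_taylorSeries_on_ball hd hz
    simp only [sub_zero, smul_eq_mul, ← iteratedDeriv_succ'] at this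
    refine this.congr_fun fun n => ?_
    beta_reduce
    rw [Nat.factorial_succ]
    have h1 : ((n.factorial : ℕ) : ℂ) ≠ 0 := by exact_mod_cast n.factorial_ne_zero
    have h2 : ((n + 1 : ℕ) : ℂ) ≠ 0 := by exact_mod_cast n.succ_ne_zero
    push_cast at h2 ⊢
    field_simp
  · intro ρ h0 h1
    have hz : ((ρ : ℝ) : ℂ) ∈ ball (0 : ℂ) 1 := by
      rw [mem_ball_zero_iff, Complex.norm_real, Real.norm_of_nonneg h0]; exact h1
    have := (Complex.hasSum_taylorSeries_on_ball hG hz).summable.norm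
    simp only [sub_zero, smul_eq_mul] at this
    refine this.congr fun n => ?_
    rw [norm_mul, norm_mul, norm_mul, norm_pow, Complex.norm_real, Real.norm_of_nonneg h0]
    ring

/-- Parseval on circles -/
lemma circle_parseval {G : ℂ → ℂ} {a : ℕ → ℂ}
    (ha : ∀ z ∈ ball (0 : ℂ) 1, HasSum (fun n => a n * z ^ n) (G z))
    (hs : ∀ ρ : ℝ, 0 ≤ ρ → ρ < 1 → Summable (fun n => ‖a n‖ * ρ ^ n)) {r : ℝ} (h0 : 0 ≤ r)
    (h1 : r < 1) :
    HasSum (fun n => ‖a n‖ ^ 2 * (r ^ n) ^ 2) (Real.circleAverage (fun z => ‖G z‖ ^ 2) 0 r) := by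
  have hsum : Summable fun n => ‖a n * (r : ℂ) ^ n‖ := by
    refine (hs r h0 h1).congr fun n => ?_
    rw [norm_mul, norm_pow, Complex.norm_real, Real.norm_of_nonneg h0]
  have hF : ∀ θ : ℝ, HasSum (fun n : ℕ => (a n * (r : ℂ) ^ n) * Complex.exp ((n : ℤ) * θ * Complex.I))
      (G (circleMap 0 r θ)) := by
    intro θ
    have hz : circleMap 0 r θ ∈ ball (0 : ℂ) 1 := by
      rw [mem_ball_zero_iff, norm_circleMap_zero, abs_of_nonneg h0]; exact h1
    refine (ha _ hz).congr_fun fun n => ?_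
    rw [circleMap, zero_add, mul_pow, ← Complex.exp_nat_mul]
    push_cast
    ring_nf
  have h2 := (H781.pars_10059 _ hsum _ hF).2
  have h3 : ∫ θ in (-π)..π, ‖G (circleMap 0 r θ)‖ ^ 2 =
      (2 * π) * Real.circleAverage (fun z => ‖G z‖ ^ 2) 0 r := by
    rw [intervalIntegral.integral_of_le (by linarith [Real.pi_pos]), integral_Ioc_eq_integral_Ioo,
      avg_eq (fun z => ‖G z‖ ^ 2) r, smul_eq_mul]
  rw [h3] at h2
  have h4 := h2.mul_left (2 * π)⁻¹
  have hπ := Real.pi_pos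
  have e1 : (2 * π)⁻¹ * (2 * π * Real.circleAverage (fun z => ‖G z‖ ^ 2) 0 r) =
      Real.circleAverage (fun z => ‖G z‖ ^ 2) 0 r := by field_simp
  rw [e1] at h4
  refine h4.congr_fun fun n => ?_
  rw [norm_mul, norm_pow, Complex.norm_real, Real.norm_of_nonneg h0]
  field_simp

/-- the final contradiction -/
theorem no_such {k : ℂ → ℂ} (hk : DifferentiableOn ℂ k (ball 0 1)) (h0 : ‖k 0‖ ≤ 1 / 8)
    (hp : ‖k (1 / 2)‖ ≤ 1 / 8) (hm : MemLp (deriv k) 2 (volume.restrict (ball 0 1)))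
    (harea : ∫ z in ball (0 : ℂ) 1, ‖deriv k z‖ ^ 2 ≤ π)
    (hbd : ∀ ε > 0, ∃ r : ℝ, 0 < r ∧ r < 1 ∧
      1 - ε ≤ Real.circleAverage (fun z => ‖k z‖ ^ 2) 0 r) : False := by
  obtain ⟨a, ha, ha', hs⟩ := exists_coeff hk
  have hps : Pool.Agent.H563Dom.IsPS (fun n => ((n + 1 : ℕ) * a (n + 1))) (deriv k) := ha'
  have hb := hps.parseval_norm hm
  have hπ := Real.pi_pos
  set x : ℕ → ℝ := fun n => ‖a n‖ ^ 2 with hx
  have hx0 : ∀ n, 0 ≤ x n := fun n => by positivity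
  -- weighted sum
  have hw : HasSum (fun n : ℕ => ((n : ℝ) + 1) * x (n + 1))
      (π⁻¹ * ∫ z in ball (0 : ℂ) 1, ‖deriv k z‖ ^ 2) := by
    refine (hb.mul_left π⁻¹).congr_fun fun n => ?_
    rw [norm_mul, Complex.norm_natCast, mul_pow, hx]
    have : ((n : ℝ) + 1) ≠ 0 := by positivity
    push_cast
    field_simp
  have hw1 : ∑' n : ℕ, ((n : ℝ) + 1) * x (n + 1) ≤ 1 := by
    rw [hw.tsum_eq]
    have := mul_le_mul_of_nonneg_left harea (inv_nonneg.2 hπ.le)
    rwa [inv_mul_cancel₀ hπ.ne'] at this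
  have hsx1 : Summable fun n => x (n + 1) := by
    refine Summable.of_nonneg_of_le (fun n => hx0 _) (fun n => ?_) hw.summable
    have h1 : (0 : ℝ) ≤ n := n.cast_nonneg
    nlinarith [hx0 (n + 1)]
  have hsx : Summable x := (summable_nat_add_iff 1).1 hsx1
  have hsx2 : Summable fun n => x (n + 2) := (summable_nat_add_iff 2).2 hsx
  -- total sum at least one
  have hS : 1 ≤ ∑' n, x n := by
    apply le_of_forall_pos_le_add
    intro ε hε
    obtain ⟨r, hr0, hr1, hr⟩ := hbd ε hε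
    have h1 := circle_parseval ha hs hr0.le hr1
    have h2 : Real.circleAverage (fun z => ‖k z‖ ^ 2) 0 r ≤ ∑' n, x n := by
      rw [← h1.tsum_eq]
      apply Summable.tsum_le_tsum _ h1.summable hsx
      intro n
      have h3 : (r ^ n) ^ 2 ≤ 1 := by
        have := pow_le_one₀ (n := n) hr0.le hr1.le
        have h4 : 0 ≤ r ^ n := by positivity
        nlinarith
      calc ‖a n‖ ^ 2 * (r ^ n) ^ 2 ≤ ‖a n‖ ^ 2 * 1 := by gcongr
        _ = x n := by rw [mul_one]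
    linarith
  set T : ℝ := ∑' n, x (n + 2) with hT
  have hT0 : 0 ≤ T := tsum_nonneg fun n => hx0 _
  have hsplit : ∑' n, x n = x 0 + x 1 + T := by
    rw [← hsx.sum_add_tsum_nat_add 2]
    simp [Finset.sum_range_succ, hT]
  have hw2 : x 1 + 2 * T ≤ ∑' n : ℕ, ((n : ℝ) + 1) * x (n + 1) := by
    rw [hw.summable.tsum_eq_zero_add, hT, ← tsum_mul_left]
    have h1 : ∑' n, 2 * x (n + 2) ≤ ∑' n : ℕ, (((n + 1 : ℕ) : ℝ) + 1) * x (n + 1 + 1) := by
      apply Summable.tsum_le_tsum _ (hsx2.mul_left 2) ((summable_nat_add_iff 1).2 hw.summable)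
      intro n
      have h2 : (0 : ℝ) ≤ n := n.cast_nonneg
      have h3 := hx0 (n + 2)
      push_cast
      show 2 * x (n + 2) ≤ ((n : ℝ) + 1 + 1) * x (n + 2)
      nlinarith
    have h2 : (((0 : ℕ) : ℝ) + 1) * x (0 + 1) = x 1 := by simp
    rw [h2]
    linarith
  have hx00 : x 0 ≤ 1 / 64 := by
    have h1 : k 0 = a 0 := by
      have h2 := ha 0 (mem_ball_self one_pos)
      have h3 : HasSum (fun n => a n * (0 : ℂ) ^ n) (a 0) := by
        have := hasSum_single (f := fun n => a n * (0 : ℂ) ^ n) 0 (fun n hn => by simp [hn])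
        simpa using this
      exact h2.unique h3
    rw [hx]
    simp only
    rw [← h1]
    nlinarith [norm_nonneg (k 0)]
  have hTx : T ≤ 1 / 64 := by linarith
  have hx1 : 31 / 32 ≤ x 1 := by linarith
  have ha1 : 98 / 100 ≤ ‖a 1‖ := by
    by_contra hcon
    rw [not_le] at hcon
    have : x 1 < (98 / 100) ^ 2 := by
      rw [hx]; simp only
      nlinarith [norm_nonneg (a 1)]
    norm_num at this
    linarith
  have ha0 : ‖a 0‖ ≤ 1 / 8 := by
    have : x 0 ≤ (1 / 8) ^ 2 := by norm_num at hx00 ⊢; linarith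
    exact abs_le_of_sq_le_sq' this (by norm_num) |>.2
  -- the value at one half
  have hhalf : (1 / 2 : ℂ) ∈ ball (0 : ℂ) 1 := by
    rw [mem_ball_zero_iff]; norm_num
  have h1 := ha _ hhalf
  have h2 : HasSum (fun n => a (n + 2) * (1 / 2 : ℂ) ^ (n + 2)) (k (1 / 2) - (a 0 + a 1 / 2)) := by
    have := (hasSum_nat_add_iff' 2).2 h1
    have e : k (1 / 2) - ∑ i ∈ Finset.range 2, a i * (1 / 2 : ℂ) ^ i =
        k (1 / 2) - (a 0 + a 1 / 2) := by
      simp [Finset.sum_range_succ]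
      ring
    rw [e] at this
    exact this
  have h3 : ‖k (1 / 2) - (a 0 + a 1 / 2)‖ ≤ T + 1 / 48 := by
    have hg : HasSum (fun n : ℕ => (1 / 4 : ℝ) * (1 / 4) ^ (n + 2)) (1 / 48) := by
      have h4 := (hasSum_geometric_of_lt_one (r := (1 / 4 : ℝ)) (by norm_num) (by norm_num)).mul_left
        ((1 / 4 : ℝ) * (1 / 4) ^ 2)
      have h5 : (1 / 4 : ℝ) * (1 / 4) ^ 2 * (1 - 1 / 4)⁻¹ = 1 / 48 := by norm_num
      rw [h5] at h4
      refine h4.congr_fun fun n => ?_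
      rw [pow_add]; ring
    have hsum := hsx2.hasSum.add hg
    rw [← h2.tsum_eq]
    refine tsum_of_norm_bounded hsum fun n => ?_
    rw [norm_mul, norm_pow]
    have h5 : ‖(1 / 2 : ℂ)‖ = 1 / 2 := by norm_num
    rw [h5, hx]
    simp only
    have h6 : ((1 / 2 : ℝ) ^ (n + 2)) ^ 2 = (1 / 4) ^ (n + 2) := by
      rw [← pow_mul, mul_comm, pow_mul]; norm_num
    rw [← h6]
    nlinarith [sq_nonneg (‖a (n + 2)‖ - (1 / 2) * (1 / 2) ^ (n + 2))]
  have h4 : ‖a 1 / 2‖ ≤ ‖k (1 / 2) - (a 0 + a 1 / 2)‖ + ‖k (1 / 2)‖ + ‖a 0‖ := by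
    have e : a 1 / 2 = k (1 / 2) - (k (1 / 2) - (a 0 + a 1 / 2)) - a 0 := by ring
    calc ‖a 1 / 2‖ = ‖k (1 / 2) - (k (1 / 2) - (a 0 + a 1 / 2)) - a 0‖ := by rw [← e]
      _ ≤ ‖k (1 / 2) - (k (1 / 2) - (a 0 + a 1 / 2))‖ + ‖a 0‖ := norm_sub_le _ _
      _ ≤ ‖k (1 / 2)‖ + ‖k (1 / 2) - (a 0 + a 1 / 2)‖ + ‖a 0‖ := by
          gcongr; exact norm_sub_le _ _
      _ = _ := by ring
  rw [norm_div] at h4
  have h5 : ‖(2 : ℂ)‖ = 2 := by norm_num
  rw [h5] at h4
  linarith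

end Pool.Agent.H366R3.ED
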