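import Mathlib

set_option autoImplicit false

open Set Filter Topology Metric

namespace Pool.Agent.H366R3.ED

/-- the disk of radius `R` without two closed disks of radius `ρ` -/
def Om (R ρ : ℝ) : Set ℂ := ball 0 R \ (closedBall 0 ρ ∪ closedBall (1 / 2) ρ)

lemma Om_open (R ρ : ℝ) : IsOpen (Om R ρ) :=
  isOpen_ball.sdiff (isClosed_closedBall.union isClosed_closedBall)

/-- annulus with center `c` -/
def annc (c : ℂ) (a b : ℝ) : Set ℂ := {z | a < ‖z - c‖ ∧ ‖z - c‖ < b}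

lemma annc_open (c : ℂ) (a b : ℝ) : IsOpen (annc c a b) := by
  have h : Continuous fun z : ℂ => ‖z - c‖ := by fun_prop
  exact (isOpen_lt continuous_const h).inter (isOpen_lt h continuous_const)

lemma annc_preconnected (c : ℂ) {a b : ℝ} (ha : 0 ≤ a) : IsPreconnected (annc c a b) := by
  have h1 : annc c a b = (fun p : ℝ × ℝ => c + p.1 * Complex.exp (p.2 * Complex.I)) ''
      (Ioo a b ×ˢ univ) := by
    ext z
    constructor
    · rintro ⟨h1, h2⟩
      refine ⟨(‖z - c‖, Complex.arg (z - c)), ⟨⟨h1, h2⟩, mem_univ _⟩, ?_⟩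
      simp only
      rw [Complex.norm_mul_exp_arg_mul_I]
      ring
    · rintro ⟨⟨r, θ⟩, ⟨⟨h1, h2⟩, -⟩, rfl⟩
      have : ‖(c + (r : ℂ) * Complex.exp (θ * Complex.I)) - c‖ = r := by
        rw [add_sub_cancel_left, norm_mul, Complex.norm_exp_ofReal_mul_I, mul_one,
          Complex.norm_real, Real.norm_of_nonneg (ha.trans h1.le)]
      exact ⟨by rw [this]; exact h1, by rw [this]; exact h2⟩
  rw [h1]
  apply (isPreconnected_Ioo.prod isPreconnected_univ).image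
  fun_prop

lemma annc_nonempty (c : ℂ) {a b : ℝ} (ha : 0 ≤ a) (hab : a < b) : (annc c a b).Nonempty := by
  refine ⟨c + (((a + b) / 2 : ℝ) : ℂ), ?_⟩
  have : ‖(c + (((a + b) / 2 : ℝ) : ℂ)) - c‖ = (a + b) / 2 := by
    rw [add_sub_cancel_left, Complex.norm_real, Real.norm_of_nonneg (by linarith)]
  exact ⟨by rw [this]; linarith, by rw [this]; linarith⟩

lemma norm_half : ‖(1 / 2 : ℂ)‖ = 1 / 2 := by norm_num

lemma dom_preconnected {R r0 r1 : ℝ} (hR : 1 ≤ R) (h0 : r0 ≤ 1 / 4) (h1 : r1 ≤ 1 / 4) :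
    IsPreconnected (ball (0 : ℂ) R \ (closedBall 0 r0 ∪ closedBall (1 / 2) r1)) := by
  set W : Set ℂ := ball (0 : ℂ) R \ (closedBall 0 r0 ∪ closedBall (1 / 2) r1) with hW
  have hWi : ∀ w, w ∈ W ↔ ‖w‖ < R ∧ r0 < ‖w‖ ∧ r1 < ‖w - 1 / 2‖ := by
    intro w
    rw [hW, Set.mem_sdiff, mem_union, mem_ball_zero_iff, mem_closedBall_zero_iff, mem_closedBall,
      dist_eq_norm, not_or, not_le, not_le]
  set C : Set ℂ := annc 0 (3 / 4) R with hC
  have hCp : IsPreconnected C := annc_preconnected 0 (by norm_num)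
  have hCW : C ⊆ W := by
    rintro w ⟨hw1, hw2⟩
    rw [sub_zero] at hw1 hw2
    rw [hWi]
    refine ⟨hw2, by linarith, ?_⟩
    have := norm_sub_norm_le w (1 / 2)
    rw [norm_half] at this
    linarith
  have hx0 : ((7 / 8 : ℝ) : ℂ) ∈ C := by
    have : ‖(((7 / 8 : ℝ) : ℂ)) - 0‖ = 7 / 8 := by
      rw [sub_zero, Complex.norm_real, Real.norm_of_nonneg (by norm_num)]
    exact ⟨by rw [this]; norm_num, by rw [this]; linarith⟩
  apply isPreconnected_of_forall ((7 / 8 : ℝ) : ℂ)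
  intro z hz
  by_cases hz34 : 3 / 4 < ‖z‖
  · exact ⟨C, hCW, hx0, ⟨by rwa [sub_zero], by rw [sub_zero]; exact ((hWi z).1 hz).1⟩, hCp⟩
  rw [not_lt] at hz34
  -- vertical segment
  have hzn : ‖z‖ ^ 2 = z.re ^ 2 + z.im ^ 2 := by
    rw [← Complex.normSq_eq_norm_sq, Complex.normSq_apply]; ring
  have hzn' : z.re ^ 2 + z.im ^ 2 ≤ 9 / 16 := by
    rw [← hzn]; nlinarith [norm_nonneg z]
  set t : ℝ := Real.sqrt (49 / 64 - z.re ^ 2) with ht
  have ht2 : t ^ 2 = 49 / 64 - z.re ^ 2 := by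
    rw [ht, Real.sq_sqrt]; nlinarith [sq_nonneg z.im]
  have ht0 : 0 ≤ t := Real.sqrt_nonneg _
  have hyt : |z.im| ≤ t := by
    apply abs_le_of_sq_le_sq _ ht0
    nlinarith
  obtain ⟨s, hs1, hs2⟩ : ∃ s : ℝ, |s| = t ∧ 0 ≤ s * z.im := by
    rcases le_total 0 z.im with h | h
    · exact ⟨t, abs_of_nonneg ht0, mul_nonneg ht0 h⟩
    · exact ⟨-t, by rw [abs_neg, abs_of_nonneg ht0], by nlinarith⟩
  set z' : ℂ := ⟨z.re, s⟩ with hz'
  have hs22 : s ^ 2 = 49 / 64 - z.re ^ 2 := by rw [← ht2, ← hs1, sq_abs]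
  have hseg : ∀ w ∈ segment ℝ z z', w.re = z.re ∧ z.im ^ 2 ≤ w.im ^ 2 ∧ w.im ^ 2 ≤ s ^ 2 := by
    rintro w ⟨a, b, ha, hb, hab, rfl⟩
    have e1 : (a • z + b • z').re = z.re := by
      simp [hz']
      rw [← add_mul, hab, one_mul]
    have e2 : (a • z + b • z').im = a * z.im + b * s := by
      simp [hz']
    have hzs : z.im ^ 2 ≤ s ^ 2 := by
      rw [hs22]; linarith
    have hprod : z.im ^ 2 ≤ s * z.im := by
      have h3 : |z.im| * |z.im| ≤ |s| * |z.im| := by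
        rw [hs1]; exact mul_le_mul_of_nonneg_right hyt (abs_nonneg _)
      rw [← abs_mul s, abs_of_nonneg hs2, abs_mul_abs_self] at h3
      nlinarith
    have hprod2 : s * z.im ≤ s ^ 2 := by
      have h3 : |s| * |z.im| ≤ |s| * |s| := by
        rw [hs1]; exact mul_le_mul_of_nonneg_left hyt ht0
      rw [← abs_mul s, abs_of_nonneg hs2, abs_mul_abs_self] at h3
      nlinarith
    have hb' : b = 1 - a := by linarith
    refine ⟨e1, ?_, ?_⟩
    · rw [e2]
      have : (a * z.im + b * s) ^ 2 = a ^ 2 * z.im ^ 2 + 2 * a * b * (s * z.im) + b ^ 2 * s ^ 2 := by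
        ring
      rw [this]
      have h1 : z.im ^ 2 = a ^ 2 * z.im ^ 2 + 2 * a * b * z.im ^ 2 + b ^ 2 * z.im ^ 2 := by
        rw [hb']; ring
      have hab0 : 0 ≤ 2 * a * b := by positivity
      have hb20 : 0 ≤ b ^ 2 := by positivity
      nlinarith [mul_le_mul_of_nonneg_left hprod hab0, mul_le_mul_of_nonneg_left hzs hb20]
    · rw [e2]
      have : (a * z.im + b * s) ^ 2 = a ^ 2 * z.im ^ 2 + 2 * a * b * (s * z.im) + b ^ 2 * s ^ 2 := by
        ring
      rw [this]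
      have h1 : s ^ 2 = a ^ 2 * s ^ 2 + 2 * a * b * s ^ 2 + b ^ 2 * s ^ 2 := by
        rw [hb']; ring
      have hab0 : 0 ≤ 2 * a * b := by positivity
      have hb20 : 0 ≤ a ^ 2 := by positivity
      nlinarith [mul_le_mul_of_nonneg_left hprod2 hab0, mul_le_mul_of_nonneg_left hzs hb20]
  have hsegW : segment ℝ z z' ⊆ W := by
    intro w hw
    obtain ⟨e1, e2, e3⟩ := hseg w hw
    have hwn : ‖w‖ ^ 2 = w.re ^ 2 + w.im ^ 2 := by
      rw [← Complex.normSq_eq_norm_sq, Complex.normSq_apply]; ring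
    have hwn2 : ‖w - 1 / 2‖ ^ 2 = (w.re - 1 / 2) ^ 2 + w.im ^ 2 := by
      rw [← Complex.normSq_eq_norm_sq, Complex.normSq_apply]; simp; ring
    have hzn2 : ‖z - 1 / 2‖ ^ 2 = (z.re - 1 / 2) ^ 2 + z.im ^ 2 := by
      rw [← Complex.normSq_eq_norm_sq, Complex.normSq_apply]; simp; ring
    obtain ⟨k1, k2, k3⟩ := (hWi z).1 hz
    rw [hWi]
    refine ⟨?_, ?_, ?_⟩
    · have h5 : ‖w‖ ^ 2 < 1 ^ 2 := by rw [hwn, e1, one_pow]; linarith
      have : ‖w‖ < 1 := lt_of_pow_lt_pow_left₀ 2 (by norm_num) h5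
      linarith
    · have h5 : ‖z‖ ^ 2 ≤ ‖w‖ ^ 2 := by
        rw [hwn, hzn, e1]; linarith
      have : ‖z‖ ≤ ‖w‖ := le_of_pow_le_pow_left₀ (by norm_num) (norm_nonneg w) h5
      linarith
    · have h5 : ‖z - 1 / 2‖ ^ 2 ≤ ‖w - 1 / 2‖ ^ 2 := by
        rw [hwn2, hzn2, e1]; linarith
      have : ‖z - 1 / 2‖ ≤ ‖w - 1 / 2‖ := le_of_pow_le_pow_left₀ (by norm_num) (norm_nonneg _) h5
      linarith
  have hz'C : z' ∈ C := by
    have hn : ‖z'‖ ^ 2 = 49 / 64 := by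
      rw [← Complex.normSq_eq_norm_sq, Complex.normSq_apply]
      simp only [hz']
      nlinarith
    have hn' : ‖z'‖ = 7 / 8 := by
      have h2 : (‖z'‖ - 7 / 8) * (‖z'‖ + 7 / 8) = 0 := by ring_nf; rw [hn]; norm_num
      rcases mul_eq_zero.1 h2 with h | h
      · linarith
      · linarith [norm_nonneg z']
    exact ⟨by rw [sub_zero, hn']; norm_num, by rw [sub_zero, hn']; linarith⟩
  refine ⟨C ∪ segment ℝ z z', union_subset hCW hsegW, Or.inl hx0, Or.inr (left_mem_segment ℝ z z'), ?_⟩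
  exact hCp.union z' hz'C (right_mem_segment ℝ z z') (convex_segment z z').isPreconnected

end Pool.Agent.H366R3.ED
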