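import Mathlib
import Pool.Agent.H366R3.ED.Dom

set_option autoImplicit false

open Set Filter Topology Metric

namespace Pool.Agent.H366R3.ED

/-- a homeomorphism with its inverse -/
structure IsH (Ω Ω' : Set ℂ) (h g : ℂ → ℂ) : Prop where
  hc : ContinuousOn h Ω
  gc : ContinuousOn g Ω'
  hm : MapsTo h Ω Ω'
  gm : MapsTo g Ω' Ω
  gh : ∀ z ∈ Ω, g (h z) = z
  hg : ∀ w ∈ Ω', h (g w) = w

lemma IsH.symm {Ω Ω' : Set ℂ} {h g : ℂ → ℂ} (H : IsH Ω Ω' h g) : IsH Ω' Ω g h :=
  ⟨H.gc, H.hc, H.gm, H.hm, H.hg, H.gh⟩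

/-- the collars of the three ends -/
def col (R ρ ε : ℝ) (i : Fin 3) : Set ℂ :=
  if i = 0 then annc 0 ρ (ρ + ε) else if i = 1 then annc (1 / 2) ρ (ρ + ε) else annc 0 (R - ε) R

lemma fin3 (i : Fin 3) : i = 0 ∨ i = 1 ∨ i = 2 := by
  fin_cases i <;> simp

lemma col0 (R ρ ε : ℝ) : col R ρ ε 0 = annc 0 ρ (ρ + ε) := by simp [col]
lemma col1 (R ρ ε : ℝ) : col R ρ ε 1 = annc (1 / 2) ρ (ρ + ε) := by simp [col]
lemma col2 (R ρ ε : ℝ) : col R ρ ε 2 = annc 0 (R - ε) R := by simp [col]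

lemma mem_Om {R ρ : ℝ} {w : ℂ} : w ∈ Om R ρ ↔ ‖w‖ < R ∧ ρ < ‖w‖ ∧ ρ < ‖w - 1 / 2‖ := by
  rw [Om, Set.mem_sdiff, mem_union, mem_ball_zero_iff, mem_closedBall_zero_iff, mem_closedBall,
      dist_eq_norm, not_or, not_le, not_le]

lemma half_tri (w : ℂ) : 1 / 2 ≤ ‖w‖ + ‖w - 1 / 2‖ := by
  have h1 := norm_sub_le w (w - 1 / 2)
  have h2 : w - (w - 1 / 2) = 1 / 2 := by ring
  rw [h2, norm_half] at h1
  exact h1

lemma half_tri2 (w : ℂ) : ‖w‖ ≤ 1 / 2 + ‖w - 1 / 2‖ := by
  have h1 := norm_add_le (w - 1 / 2) (1 / 2)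
  have h2 : w - 1 / 2 + 1 / 2 = w := by ring
  rw [h2, norm_half] at h1
  linarith

lemma half_tri3 (w : ℂ) : ‖w - 1 / 2‖ ≤ 1 / 2 + ‖w‖ := by
  have h1 := norm_sub_le w (1 / 2)
  rw [norm_half] at h1
  linarith

lemma col_open (R ρ ε : ℝ) (i : Fin 3) : IsOpen (col R ρ ε i) := by
  rcases fin3 i with rfl | rfl | rfl
  · rw [col0]; exact annc_open _ _ _
  · rw [col1]; exact annc_open _ _ _
  · rw [col2]; exact annc_open _ _ _

lemma col_preconnected {R ρ ε : ℝ} (hR : 1 ≤ R) (hρ : 0 < ρ) (hε : ε ≤ 1 / 8) (i : Fin 3) :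
    IsPreconnected (col R ρ ε i) := by
  rcases fin3 i with rfl | rfl | rfl
  · rw [col0]; exact annc_preconnected _ hρ.le
  · rw [col1]; exact annc_preconnected _ hρ.le
  · rw [col2]; exact annc_preconnected _ (by linarith)

lemma col_nonempty {R ρ ε : ℝ} (hR : 1 ≤ R) (hρ : 0 < ρ) (hε0 : 0 < ε) (hε : ε ≤ 1 / 8) (i : Fin 3) :
    (col R ρ ε i).Nonempty := by
  rcases fin3 i with rfl | rfl | rfl
  · rw [col0]; exact annc_nonempty _ hρ.le (by linarith)
  · rw [col1]; exact annc_nonempty _ hρ.le (by linarith)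
  · rw [col2]; exact annc_nonempty _ (by linarith) (by linarith)

lemma col_mono {R ρ ε ε' : ℝ} (h : ε ≤ ε') (i : Fin 3) : col R ρ ε i ⊆ col R ρ ε' i := by
  rcases fin3 i with rfl | rfl | rfl
  · rw [col0, col0]; rintro z ⟨h1, h2⟩; exact ⟨h1, by linarith⟩
  · rw [col1, col1]; rintro z ⟨h1, h2⟩; exact ⟨h1, by linarith⟩
  · rw [col2, col2]; rintro z ⟨h1, h2⟩; exact ⟨by linarith, h2⟩

lemma col_sub {R ρ ε : ℝ} (hR : 1 ≤ R) (hρ : 0 < ρ) (hρ8 : ρ ≤ 1 / 8) (hε : ε ≤ 1 / 8) (i : Fin 3) :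
    col R ρ ε i ⊆ Om R ρ := by
  rcases fin3 i with rfl | rfl | rfl
  · rw [col0]; rintro z ⟨h1, h2⟩
    rw [sub_zero] at h1 h2
    have := half_tri z
    exact mem_Om.2 ⟨by linarith, h1, by linarith⟩
  · rw [col1]; rintro z ⟨h1, h2⟩
    have := half_tri z
    have := half_tri2 z
    exact mem_Om.2 ⟨by linarith, by linarith, h1⟩
  · rw [col2]; rintro z ⟨h1, h2⟩
    rw [sub_zero] at h1 h2
    have := half_tri2 z
    exact mem_Om.2 ⟨h2, by linarith, by linarith⟩

lemma col_disj {R ρ ε ε' : ℝ} (hR : 1 ≤ R) (hρ8 : ρ ≤ 1 / 8) (hε : ε ≤ 1 / 8)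
    (hε' : ε' ≤ 1 / 8) {i j : Fin 3} (hij : i ≠ j) : Disjoint (col R ρ ε i) (col R ρ ε' j) := by
  rw [Set.disjoint_left]
  intro z hz hz'
  have k1 := half_tri z
  have k2 := half_tri2 z
  rcases fin3 i with rfl | rfl | rfl <;> rcases fin3 j with rfl | rfl | rfl <;>
    first
    | exact hij rfl
    | (simp only [col0, col1, col2, annc, mem_ofPred_eq, sub_zero] at hz hz'
       linarith [hz.1, hz.2, hz'.1, hz'.2])

lemma endmap {R R' ρ ε' : ℝ} (hR : 1 ≤ R) (hR' : 1 ≤ R') (hρ : 0 < ρ) (hρ8 : ρ ≤ 1 / 8)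
    (hε' : 0 < ε') (hε8 : ε' ≤ 1 / 8) {h g : ℂ → ℂ} (H : IsH (Om R ρ) (Om R' ρ) h g) :
    ∃ ε₀ : ℝ, 0 < ε₀ ∧ ε₀ ≤ 1 / 8 ∧ ∀ ε, 0 < ε → ε ≤ ε₀ → ∀ i, ∃ t,
      MapsTo h (col R ρ ε i) (col R' ρ ε' t) := by
  set K : Set ℂ := {w | ρ + ε' ≤ ‖w‖ ∧ ρ + ε' ≤ ‖w - 1 / 2‖ ∧ ‖w‖ ≤ R' - ε'} with hK
  have hKc : IsCompact K := by
    apply (isCompact_closedBall (0 : ℂ) (R' - ε')).of_isClosed_subset
    · have c1 : Continuous fun w : ℂ => ‖w‖ := continuous_norm
      have c2 : Continuous fun w : ℂ => ‖w - 1 / 2‖ := by fun_prop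
      exact (isClosed_le continuous_const c1).inter ((isClosed_le continuous_const c2).inter
        (isClosed_le c1 continuous_const))
    · rintro w ⟨-, -, h3⟩
      rw [mem_closedBall_zero_iff]; exact h3
  have hKO : K ⊆ Om R' ρ := by
    rintro w ⟨h1, h2, h3⟩
    exact mem_Om.2 ⟨by linarith, by linarith, by linarith⟩
  have hgK : IsCompact (g '' K) := hKc.image_of_continuousOn (H.gc.mono hKO)
  have hgO : g '' K ⊆ Om R ρ := by
    rintro z ⟨w, hw, rfl⟩; exact H.gm (hKO hw)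
  obtain ⟨δ, hδ, hδO⟩ := hgK.exists_thickening_subset_open (Om_open R ρ) hgO
  refine ⟨min δ (1 / 8), lt_min hδ (by norm_num), min_le_right _ _, ?_⟩
  intro ε hε hε0 i
  have hεδ : ε ≤ δ := hε0.trans (min_le_left _ _)
  have hε18 : ε ≤ 1 / 8 := hε0.trans (min_le_right _ _)
  -- the collar does not meet the compact set
  have hmiss : ∀ z ∈ col R ρ ε i, z ∉ g '' K := by
    intro z hz hzK
    have hball : ∀ w, dist w z < δ → w ∈ Om R ρ := fun w hw =>
      hδO (mem_thickening_iff.2 ⟨z, hzK, hw⟩)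
    rcases fin3 i with rfl | rfl | rfl
    · rw [col0] at hz
      obtain ⟨h1, h2⟩ := hz
      rw [sub_zero] at h1 h2
      have hz0 : 0 < ‖z‖ := by linarith
      have h3 := hball (((ρ / ‖z‖ : ℝ) : ℂ) * z) (by
        rw [dist_eq_norm]
        have e : ((ρ / ‖z‖ : ℝ) : ℂ) * z - z = (((ρ - ‖z‖) / ‖z‖ : ℝ) : ℂ) * z := by
          rw [sub_div, div_self hz0.ne']; push_cast; ring
        rw [e, norm_mul, Complex.norm_real, Real.norm_eq_abs, abs_div, abs_norm,
          div_mul_cancel₀ _ hz0.ne', abs_of_neg (by linarith)]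
        linarith)
      have h4 := (mem_Om.1 h3).2.1
      rw [norm_mul, Complex.norm_real, Real.norm_of_nonneg (by positivity),
        div_mul_cancel₀ _ hz0.ne'] at h4
      linarith
    · rw [col1] at hz
      obtain ⟨h1, h2⟩ := hz
      have hz0 : 0 < ‖z - 1 / 2‖ := by linarith
      have h3 := hball (1 / 2 + ((ρ / ‖z - 1 / 2‖ : ℝ) : ℂ) * (z - 1 / 2)) (by
        rw [dist_eq_norm]
        have e : 1 / 2 + ((ρ / ‖z - 1 / 2‖ : ℝ) : ℂ) * (z - 1 / 2) - z =
            (((ρ - ‖z - 1 / 2‖) / ‖z - 1 / 2‖ : ℝ) : ℂ) * (z - 1 / 2) := by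
          rw [sub_div, div_self hz0.ne']; push_cast; ring
        rw [e, norm_mul, Complex.norm_real, Real.norm_eq_abs, abs_div, abs_norm,
          div_mul_cancel₀ _ hz0.ne', abs_of_neg (by linarith)]
        linarith)
      have h4 := (mem_Om.1 h3).2.2
      rw [add_sub_cancel_left, norm_mul, Complex.norm_real, Real.norm_of_nonneg (by positivity),
        div_mul_cancel₀ _ hz0.ne'] at h4
      linarith
    · rw [col2] at hz
      obtain ⟨h1, h2⟩ := hz
      rw [sub_zero] at h1 h2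
      have hz0 : 0 < ‖z‖ := by linarith
      have h3 := hball (((R / ‖z‖ : ℝ) : ℂ) * z) (by
        rw [dist_eq_norm]
        have e : ((R / ‖z‖ : ℝ) : ℂ) * z - z = (((R - ‖z‖) / ‖z‖ : ℝ) : ℂ) * z := by
          rw [sub_div, div_self hz0.ne']; push_cast; ring
        rw [e, norm_mul, Complex.norm_real, Real.norm_eq_abs, abs_div, abs_norm,
          div_mul_cancel₀ _ hz0.ne', abs_of_pos (by linarith)]
        linarith)
      have h4 := (mem_Om.1 h3).1
      rw [norm_mul, Complex.norm_real, Real.norm_of_nonneg (by positivity),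
        div_mul_cancel₀ _ hz0.ne'] at h4
      linarith
  have hcover : ∀ z ∈ col R ρ ε i, ∃ t, h z ∈ col R' ρ ε' t := by
    intro z hz
    have hzO := col_sub hR hρ hρ8 hε18 i hz
    have hw := H.hm hzO
    by_contra hcon
    push Not at hcon
    apply hmiss z hz
    refine ⟨h z, ?_, H.gh z hzO⟩
    obtain ⟨k1, k2, k3⟩ := mem_Om.1 hw
    have n0 := hcon 0
    have n1 := hcon 1
    have n2 := hcon 2
    rw [col0] at n0
    rw [col1] at n1
    rw [col2] at n2
    refine ⟨?_, ?_, ?_⟩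
    · by_contra h5; apply n0; exact ⟨by rwa [sub_zero], by rw [sub_zero]; linarith⟩
    · by_contra h5; apply n1; exact ⟨k3, by linarith⟩
    · by_contra h5; apply n2; exact ⟨by rw [sub_zero]; linarith, by rwa [sub_zero]⟩
  obtain ⟨z0, hz0⟩ := col_nonempty hR hρ hε hε18 i
  obtain ⟨t, ht⟩ := hcover z0 hz0
  refine ⟨t, ?_⟩
  rw [mapsTo_iff_image_subset]
  apply IsPreconnected.subset_left_of_subset_union (col_open R' ρ ε' t)
    (isOpen_iUnion fun s : {s : Fin 3 // s ≠ t} => col_open R' ρ ε' s)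
  · rw [Set.disjoint_iUnion_right]
    intro s
    exact col_disj hR' hρ8 hε8 hε8 s.2.symm
  · rintro w ⟨z, hz, rfl⟩
    obtain ⟨s, hs⟩ := hcover z hz
    by_cases hst : s = t
    · left; rw [← hst]; exact hs
    · right; exact mem_iUnion.2 ⟨⟨s, hst⟩, hs⟩
  · exact ⟨h z0, ⟨z0, hz0, rfl⟩, ht⟩
  · exact (col_preconnected hR hρ hε18 i).image h (H.hc.mono (col_sub hR hρ hρ8 hε18 i))

/-- the center of a hole -/
noncomputable def cen (i : Fin 2) : ℂ := if i = 0 then 0 else 1 / 2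

/-- the outer end is mapped to the outer end -/
theorem outer_end {ρ : ℝ} (hρ : 0 < ρ) (hρ8 : ρ ≤ 1 / 8) {h g : ℂ → ℂ}
    (H : IsH (Om 1 ρ) (Om 4 ρ) h g)
    (hcl : ∀ i : Fin 2, ∃ δ : ℝ, ρ < δ ∧ δ ≤ 1 / 8 ∧ ∃ a : Fin 2,
      MapsTo h (sphere (cen i) δ) (closedBall (cen a) (1 / 8))) {ε' : ℝ} (hε' : 0 < ε')
    (hε8 : ε' ≤ 1 / 8) :
    ∃ ε : ℝ, 0 < ε ∧ ε ≤ 1 / 8 ∧ MapsTo h (col 1 ρ ε 2) (col 4 ρ ε' 2) := by
  have h11 : (1 : ℝ) ≤ 1 := le_rfl
  have h14 : (1 : ℝ) ≤ 4 := by norm_num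
  obtain ⟨ε₀, hε₀, hε₀8, hE⟩ := endmap h11 h14 hρ hρ8 hε' hε8 H
  choose δ hδρ hδ8 a ha using hcl
  set ε : ℝ := min ε₀ (min (δ 0 - ρ) (δ 1 - ρ)) with hεd
  have hε : 0 < ε := lt_min hε₀ (lt_min (by linarith [hδρ 0]) (by linarith [hδρ 1]))
  have hεε₀ : ε ≤ ε₀ := min_le_left _ _
  have hε18 : ε ≤ 1 / 8 := hεε₀.trans hε₀8
  have hεδ : ∀ i : Fin 2, ρ + ε ≤ δ i := by
    intro i
    fin_cases i
    · have : ε ≤ δ 0 - ρ := (min_le_right _ _).trans (min_le_left _ _)
      simp only [Fin.zero_eta]; linarith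
    · have : ε ≤ δ 1 - ρ := (min_le_right _ _).trans (min_le_right _ _)
      simp only [Fin.mk_one]; linarith
  obtain ⟨ε₁, hε₁, hε₁8, hD⟩ := endmap h14 h11 hρ hρ8 hε hε18 H.symm
  set ε'' : ℝ := min ε₁ ε' with hε''d
  have hε'' : 0 < ε'' := lt_min hε₁ hε'
  have hε''1 : ε'' ≤ ε₁ := min_le_left _ _
  have hε''' : ε'' ≤ ε' := min_le_right _ _
  have hε''8 : ε'' ≤ 1 / 8 := hε'''.trans hε8
  have hEi := hE ε hε hεε₀
  have hDi := hD ε'' hε'' hε''1
  -- key fact: a point in the target collar s whose preimage is in the source collar i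
  have hback : ∀ s : Fin 3, ∀ w ∈ col 4 ρ ε'' s, ∀ i : Fin 3, g w ∈ col 1 ρ ε i →
      MapsTo h (col 1 ρ ε i) (col 4 ρ ε' s) := by
    intro s w hw i hgi
    obtain ⟨t, ht⟩ := hEi i
    have hwO : w ∈ Om 4 ρ := col_sub h14 hρ hρ8 hε''8 s hw
    have h1 := ht hgi
    rw [H.hg w hwO] at h1
    have h2 : w ∈ col 4 ρ ε' s := col_mono hε''' s hw
    by_cases hts : t = s
    · rwa [← hts]
    · exact absurd h2 (Set.disjoint_left.1 (col_disj h14 hρ8 hε8 hε8 hts) h1)
  -- holes are not mapped to the outer end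
  have hhole : ∀ i : Fin 2, ¬ MapsTo h (col 1 ρ ε (if i = 0 then 0 else 1)) (col 4 ρ ε' 2) := by
    intro i hcon
    set i' : Fin 3 := if i = 0 then 0 else 1 with hi'
    -- the set W
    obtain ⟨W, hWp, hWO, hWa, hW2, a', ha'2, hWa'⟩ : ∃ W : Set ℂ, IsPreconnected W ∧ W ⊆ Om 4 ρ ∧
        (∀ w ∈ W, w ∉ closedBall (cen (a i)) (1 / 8)) ∧ col 4 ρ ε' 2 ⊆ W ∧ ∃ a' : Fin 3, a' ≠ 2 ∧
        col 4 ρ ε' a' ⊆ W := by
      generalize a i = b
      have hb : b = 0 ∨ b = 1 := by fin_cases b <;> simp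
      rcases hb with rfl | rfl
      · refine ⟨ball (0 : ℂ) 4 \ (closedBall 0 (1 / 8) ∪ closedBall (1 / 2) ρ),
          dom_preconnected h14 (by norm_num) (by linarith), ?_, ?_, ?_, 1, by decide, ?_⟩
        · apply sdiff_subset_sdiff_right
          exact union_subset_union_left _ (closedBall_subset_closedBall hρ8)
        · rintro w ⟨-, hw⟩ hw'
          apply hw; left; simpa [cen] using hw'
        · rw [col2]; rintro w ⟨h1, h2⟩
          rw [sub_zero] at h1 h2
          have k2 := half_tri2 w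
          rw [Set.mem_sdiff, mem_union, mem_ball_zero_iff, mem_closedBall_zero_iff, mem_closedBall,
            dist_eq_norm, not_or, not_le, not_le]
          exact ⟨h2, by linarith, by linarith⟩
        · rw [col1]; rintro w ⟨h1, h2⟩
          have k1 := half_tri w
          have k2 := half_tri2 w
          rw [Set.mem_sdiff, mem_union, mem_ball_zero_iff, mem_closedBall_zero_iff, mem_closedBall,
            dist_eq_norm, not_or, not_le, not_le]
          exact ⟨by linarith, by linarith, h1⟩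
      · refine ⟨ball (0 : ℂ) 4 \ (closedBall 0 ρ ∪ closedBall (1 / 2) (1 / 8)),
          dom_preconnected h14 (by linarith) (by norm_num), ?_, ?_, ?_, 0, by decide, ?_⟩
        · apply sdiff_subset_sdiff_right
          exact union_subset_union_right _ (closedBall_subset_closedBall hρ8)
        · rintro w ⟨-, hw⟩ hw'
          apply hw; right; simpa [cen] using hw'
        · rw [col2]; rintro w ⟨h1, h2⟩
          rw [sub_zero] at h1 h2
          have k2 := half_tri2 w
          rw [Set.mem_sdiff, mem_union, mem_ball_zero_iff, mem_closedBall_zero_iff, mem_closedBall,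
            dist_eq_norm, not_or, not_le, not_le]
          exact ⟨h2, by linarith, by linarith⟩
        · rw [col0]; rintro w ⟨h1, h2⟩
          rw [sub_zero] at h1 h2
          have k1 := half_tri w
          have k2 := half_tri2 w
          rw [Set.mem_sdiff, mem_union, mem_ball_zero_iff, mem_closedBall_zero_iff, mem_closedBall,
            dist_eq_norm, not_or, not_le, not_le]
          exact ⟨by linarith, h1, by linarith⟩
    -- the preimage of W is inside the circle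
    have hci : ∀ z ∈ col 1 ρ ε i', ‖z - cen i‖ < δ i := by
      intro z hz
      have hi2 : i = 0 ∨ i = 1 := by fin_cases i <;> simp
      rcases hi2 with rfl | rfl
      · simp only [hi', if_true] at hz
        rw [col0] at hz
        simp only [cen, if_true]
        linarith [hz.2, hεδ 0]
      · have : (1 : Fin 2) ≠ 0 := by decide
        simp only [hi', if_neg this] at hz
        rw [col1] at hz
        simp only [cen, if_neg this]
        linarith [hz.2, hεδ 1]
    have hout : ∀ s : Fin 3, s ≠ i' → ∀ z ∈ col 1 ρ ε s, δ i < ‖z - cen i‖ := by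
      intro s hs z hz
      have k1 := half_tri z
      have k2 := half_tri2 z
      have k3 := hδ8 i
      have hi2 : i = 0 ∨ i = 1 := by fin_cases i <;> simp
      rcases hi2 with rfl | rfl
      · have e : i' = 0 := by simp [hi']
        rw [e] at hs
        simp only [cen, if_true, sub_zero]
        rcases fin3 s with rfl | rfl | rfl
        · exact absurd rfl hs
        · rw [col1] at hz; linarith [hz.1, hz.2]
        · rw [col2] at hz
          have := hz.1
          rw [sub_zero] at this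
          linarith
      · have h10 : (1 : Fin 2) ≠ 0 := by decide
        have e : i' = 1 := by simp [hi']
        rw [e] at hs
        simp only [cen, if_neg h10]
        rcases fin3 s with rfl | rfl | rfl
        · rw [col0] at hz
          have := hz.2
          rw [sub_zero] at this
          linarith
        · exact absurd rfl hs
        · rw [col2] at hz
          have := hz.1
          rw [sub_zero] at this
          linarith
    have hgW : IsPreconnected (g '' W) := hWp.image g (H.gc.mono hWO)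
    have hns : ∀ z ∈ g '' W, ‖z - cen i‖ ≠ δ i := by
      rintro z ⟨w, hw, rfl⟩ hz
      have h1 : g w ∈ sphere (cen i) (δ i) := by rw [mem_sphere, dist_eq_norm]; exact hz
      have h2 := ha i h1
      rw [H.hg w (hWO hw)] at h2
      exact hWa w hw h2
    have hin : ∀ z ∈ g '' W, ‖z - cen i‖ < δ i := by
      have c1 : Continuous fun z : ℂ => ‖z - cen i‖ := by fun_prop
      have hsub : g '' W ⊆ {z | ‖z - cen i‖ < δ i} := by
        apply hgW.subset_left_of_subset_union (isOpen_lt c1 continuous_const)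
          (isOpen_lt continuous_const c1) (v := {z | δ i < ‖z - cen i‖})
        · rw [Set.disjoint_left]
          intro z h1 h2
          have h1' : ‖z - cen i‖ < δ i := h1
          have h2' : δ i < ‖z - cen i‖ := h2
          linarith
        · intro z hz
          rcases lt_or_gt_of_ne (hns z hz) with h | h
          · left; exact h
          · right; exact h
        · obtain ⟨z, hz⟩ := col_nonempty h11 hρ hε hε18 i'
          refine ⟨z, ⟨h z, hW2 (hcon hz), H.gh z (col_sub h11 hρ hρ8 hε18 i' hz)⟩, hci z hz⟩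
      intro z hz; exact hsub hz
    -- the other hole
    obtain ⟨w, hw⟩ := col_nonempty h14 hρ hε'' hε''8 a'
    obtain ⟨τ, hτ⟩ := hDi a'
    have hgw := hτ hw
    have hwW : w ∈ W := hWa' (col_mono hε''' a' hw)
    have hlt := hin (g w) ⟨w, hwW, rfl⟩
    have hτi : τ = i' := by
      by_contra hne
      have := hout τ hne (g w) hgw
      linarith
    rw [hτi] at hgw
    have h1 := hback a' w hw i' hgw
    obtain ⟨z, hz⟩ := col_nonempty h11 hρ hε hε18 i'
    exact Set.disjoint_left.1 (col_disj h14 hρ8 hε8 hε8 ha'2) (h1 hz) (hcon hz)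
  -- conclusion
  obtain ⟨w, hw⟩ := col_nonempty h14 hρ hε'' hε''8 2
  obtain ⟨τ, hτ⟩ := hDi 2
  have hgw := hτ hw
  have hfin := hback 2 w hw τ hgw
  rcases fin3 τ with rfl | rfl | rfl
  · exact absurd hfin (by simpa using hhole 0)
  · exact absurd hfin (by simpa using hhole 1)
  · exact ⟨ε, hε, hε18, hfin⟩

end Pool.Agent.H366R3.ED
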