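import Mathlib

set_option autoImplicit false

open Set Filter Topology MeasureTheory Metric
open scoped ContDiff ENNReal

namespace Pool.Agent.H366R3.ED

/-- `Dh` is the weak (distributional) differential of `h` on `Ω`. -/
def IsWeakDifferential (Ω : Set ℂ) (h : ℂ → ℂ) (Dh : ℂ → ℂ →L[ℝ] ℂ) : Prop :=
  LocallyIntegrableOn h Ω ∧ LocallyIntegrableOn Dh Ω ∧
    ∀ φ : ℂ → ℝ, ContDiff ℝ ∞ φ → HasCompactSupport φ → tsupport φ ⊆ Ω → ∀ v : ℂ,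
      ∫ z, (fderiv ℝ φ z v) • h z = - ∫ z, φ z • Dh z v

/-- `h` is a homeomorphism of `Ω` onto `Ω'` which belongs to the Sobolev class `W^{1,2}(Ω)`, with
weak differential `Dh`. -/
structure IsSobolevHomeo (Ω Ω' : Set ℂ) (h : ℂ → ℂ) (Dh : ℂ → ℂ →L[ℝ] ℂ) : Prop where
  bijOn : BijOn h Ω Ω'
  continuousOn : ContinuousOn h Ω
  continuousOn_inverse : ∃ g : ℂ → ℂ, ContinuousOn g Ω' ∧ ∀ z ∈ Ω, g (h z) = z
  weak : IsWeakDifferential Ω h Dh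
  memLp : MemLp h 2 (volume.restrict Ω)
  memLp_differential : MemLp Dh 2 (volume.restrict Ω)

/-- The Dirichlet energy: the integral over `Ω` of the squared Hilbert-Schmidt norm of the
differential. -/
noncomputable def energy (Ω : Set ℂ) (Dh : ℂ → ℂ →L[ℝ] ℂ) : ℝ≥0∞ :=
  ∫⁻ z in Ω, (‖Dh z 1‖ₑ ^ 2 + ‖Dh z Complex.I‖ₑ ^ 2)

/-- The infimum of the energy over all homeomorphisms of `Ω` onto `Ω'` of class `W^{1,2}(Ω)`. -/
noncomputable def energyInf (Ω Ω' : Set ℂ) : ℝ≥0∞ :=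
  ⨅ (h : ℂ → ℂ) (Dh : ℂ → ℂ →L[ℝ] ℂ) (_ : IsSobolevHomeo Ω Ω' h Dh), energy Ω Dh

/-- `h` is a diffeomorphism (of class `C^1`, with inverse of class `C^1`) of `Ω` onto `Ω'`. -/
def IsDiffeo (Ω Ω' : Set ℂ) (h : ℂ → ℂ) : Prop :=
  ContDiffOn ℝ 1 h Ω ∧ BijOn h Ω Ω' ∧ ∃ g : ℂ → ℂ, ContDiffOn ℝ 1 g Ω' ∧ ∀ z ∈ Ω, g (h z) = z

/-- `h` is an energy-minimal diffeomorphism of `Ω` onto `Ω'`: a diffeomorphism whose energy is
finite and equal to the infimum of the energies of the homeomorphisms of class `W^{1,2}`. -/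
def IsEnergyMinimalDiffeo (Ω Ω' : Set ℂ) (h : ℂ → ℂ) : Prop :=
  IsDiffeo Ω Ω' h ∧ energy Ω (fderiv ℝ h) = energyInf Ω Ω' ∧ energy Ω (fderiv ℝ h) < ⊤

end Pool.Agent.H366R3.ED
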