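import Mathlib
import Pool.Agent.H366R3.Energy2
import Pool.Agent.Helper930.LipWD
import Pool.Agent.H366R3.ED.Defs

set_option autoImplicit false

open Set Filter Topology MeasureTheory Metric
open scoped ContDiff ENNReal NNReal

namespace Pool.Agent.H366R3.ED

open Pool.Agent.Helper930.WD Pool.Agent.H366R3

/-- a `C^1` function has its classical differential as weak differential -/
lemma weakDeriv_C1 {Ω : Set ℂ} (hΩ : IsOpen Ω) {h : ℂ → ℂ} (hh : ContDiffOn ℝ 1 h Ω) :
    IsWeakDifferential Ω h (fderiv ℝ h) := by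
  apply weakDeriv_of_lip hΩ
  intro K hK hKc
  obtain ⟨L, hL, hKL, hLΩ⟩ := exists_compact_between hKc hΩ hK
  have hloc : LocallyLipschitzOn Ω h := by
    intro x hx
    have h1 : ContDiffAt ℝ 1 h x := hh.contDiffAt (hΩ.mem_nhds hx)
    obtain ⟨C, t, ht, hC⟩ := h1.exists_lipschitzOnWith
    exact ⟨C, t, mem_nhdsWithin_of_mem_nhds ht, hC⟩
  obtain ⟨C, hC⟩ := (hloc.mono hLΩ).exists_lipschitzOnWith_of_compact hL
  exact ⟨interior L, isOpen_interior, hKL, C, hC.mono interior_subset⟩

/-- Weyl's lemma for the Cauchy-Riemann operator, for continuous functions -/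
theorem weyl {Ω : Set ℂ} (hΩ : IsOpen Ω) {F : ℂ → ℂ} (hF : ContinuousOn F Ω)
    (hw : ∀ φ : ℂ → ℝ, ContDiff ℝ ∞ φ → HasCompactSupport φ → tsupport φ ⊆ Ω →
      ∫ z, ((fderiv ℝ φ z 1 : ℂ) + Complex.I * (fderiv ℝ φ z Complex.I : ℂ)) * F z = 0) :
    DifferentiableOn ℂ F Ω := by
  intro z0 hz0
  obtain ⟨R, hR, hRΩ⟩ := Metric.isOpen_iff.1 hΩ z0 hz0
  set r : ℝ := R / 3 with hr
  have hrp : 0 < r := by positivity
  have hball : closedBall z0 (2 * r) ⊆ Ω := (closedBall_subset_ball (by rw [hr]; linarith)).trans hRΩ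
  -- cut off
  set F' : ℂ → ℂ := (closedBall z0 (2 * r)).indicator F with hF'
  have hFi : Integrable F' := by
    rw [hF', integrable_indicator_iff measurableSet_closedBall]
    exact (hF.mono hball).integrableOn_compact (isCompact_closedBall _ _)
  have hmol : ∀ n : ℕ, ∃ φ : ℂ → ℝ, ContDiff ℝ ∞ φ ∧ HasCompactSupport φ ∧
      (∀ z, 0 ≤ φ z) ∧ ∫⁻ w, ENNReal.ofReal (φ w) = 1 ∧ ∫ w, φ w = 1 ∧
      tsupport φ ⊆ closedBall 0 (r / 2 / ((n : ℝ) + 1)) := fun n => exists_mollifier (by positivity)
  choose φ hφ1 hφ2 hφ3 hφ4 hφ5 hφ6 using hmol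
  have hδ : ∀ n : ℕ, r / 2 / ((n : ℝ) + 1) ≤ r / 2 := fun n => by
    apply div_le_self (by positivity)
    have : (0 : ℝ) ≤ n := n.cast_nonneg
    linarith
  -- mollifications are holomorphic
  have hhol : ∀ n, DifferentiableOn ℂ (moll (φ n) F') (ball z0 r) := by
    intro n z hz
    obtain ⟨A, hA, hAv⟩ := moll_hasFDerivAt (hφ1 n) (hφ2 n) hFi.locallyIntegrable z
    apply DifferentiableAt.differentiableWithinAt
    rw [differentiableAt_complex_iff_differentiableAt_real]
    refine ⟨hA.differentiableAt, ?_⟩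
    rw [hA.fderiv, smul_eq_mul]
    -- the test function
    set ψ : ℂ → ℝ := fun w => φ n (z - w) with hψ
    have hψ1 : ContDiff ℝ ∞ ψ := (hφ1 n).comp (contDiff_const.sub contDiff_id)
    have hψt : tsupport ψ ⊆ closedBall z (r / 2) := by
      apply closure_minimal _ isClosed_closedBall
      intro w hw
      have hw' : z - w ∈ tsupport (φ n) := subset_tsupport _ hw
      have := hφ6 n hw'
      rw [mem_closedBall_zero_iff] at this
      rw [mem_closedBall, dist_comm, dist_eq_norm]
      exact this.trans (hδ n)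
    have hzb : closedBall z (r / 2) ⊆ closedBall z0 (2 * r) := by
      intro w hw
      rw [mem_closedBall] at hw ⊢
      have := dist_triangle w z z0
      have hz' : dist z z0 < r := hz
      linarith
    have hψ2 : HasCompactSupport ψ := (isCompact_closedBall z (r / 2)).of_isClosed_subset
      (isClosed_tsupport _) hψt
    have hψΩ : tsupport ψ ⊆ Ω := (hψt.trans hzb).trans hball
    have hder : ∀ w v : ℂ, fderiv ℝ ψ w v = - fderiv ℝ (φ n) (z - w) v := by
      intro w v
      have h1 : HasFDerivAt (φ n) (fderiv ℝ (φ n) (z - w)) (z - w) :=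
        ((hφ1 n).differentiable (by norm_num) _).hasFDerivAt
      have h2 : HasFDerivAt (fun w : ℂ => z - w) (-(ContinuousLinearMap.id ℝ ℂ)) w := by
        simpa using (hasFDerivAt_id w).const_sub z
      have h3 := h1.comp w h2
      rw [show (φ n) ∘ (fun w => z - w) = ψ from rfl] at h3
      rw [h3.fderiv]
      simp
    have h0 := hw ψ hψ1 hψ2 hψΩ
    have hind : ∀ w v : ℂ, ((fderiv ℝ (φ n) (z - w) v : ℝ) : ℂ) * F' w =
        ((fderiv ℝ (φ n) (z - w) v : ℝ) : ℂ) * F w := by
      intro w v
      by_cases hwb : w ∈ closedBall z0 (2 * r)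
      · rw [hF', indicator_of_mem hwb]
      · have h4 : w ∉ tsupport ψ := fun h => hwb (hzb (hψt h))
        have h5 : fderiv ℝ ψ w = 0 := by
          by_contra hne
          exact h4 (support_fderiv_subset ℝ hne)
        have h6 := hder w v
        rw [h5] at h6
        simp only [ContinuousLinearMap.zero_apply] at h6
        have h7 : fderiv ℝ (φ n) (z - w) v = 0 := by linarith
        rw [h7]; simp
    have hI : A Complex.I = ∫ w, ((fderiv ℝ (φ n) (z - w) Complex.I : ℝ) : ℂ) * F' w := by
      rw [hAv]; congr 1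
    have h1 : A 1 = ∫ w, ((fderiv ℝ (φ n) (z - w) 1 : ℝ) : ℂ) * F' w := by
      rw [hAv]; congr 1
    have hint : ∀ v : ℂ, Integrable fun w => ((fderiv ℝ (φ n) (z - w) v : ℝ) : ℂ) * F' w := by
      intro v
      have hc1 : Continuous fun w => fderiv ℝ (φ n) w v :=
        ((hφ1 n).continuous_fderiv (by norm_num)).clm_apply continuous_const
      have hcs : HasCompactSupport fun w => fderiv ℝ (φ n) w v := by
        have := (hφ2 n).fderiv (𝕜 := ℝ)
        exact this.comp_left (g := fun A : ℂ →L[ℝ] ℝ => A v) (by simp)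
      obtain ⟨C, hC⟩ := hcs.exists_bound_of_continuous hc1
      have hcz : Continuous fun w => ((fderiv ℝ (φ n) (z - w) v : ℝ) : ℂ) :=
        Complex.continuous_ofReal.comp (hc1.comp (continuous_const.sub continuous_id))
      apply hFi.bdd_mul hcz.aestronglyMeasurable (c := C)
      exact Eventually.of_forall fun w => by
        rw [Complex.norm_real]; exact hC _
    have hsum : A 1 + Complex.I * A Complex.I = 0 := by
      rw [hI, h1, ← integral_const_mul, ← integral_add (hint 1) ((hint _).const_mul _)]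
      have h2 : ∀ w, ((fderiv ℝ (φ n) (z - w) 1 : ℝ) : ℂ) * F' w +
          Complex.I * (((fderiv ℝ (φ n) (z - w) Complex.I : ℝ) : ℂ) * F' w) =
          - (((fderiv ℝ ψ w 1 : ℂ) + Complex.I * (fderiv ℝ ψ w Complex.I : ℂ)) * F w) := by
        intro w
        rw [hind w 1, hind w Complex.I, hder w 1, hder w Complex.I]
        push_cast
        ring
      simp_rw [h2]
      rw [integral_neg, h0, neg_zero]
    have : Complex.I * (A 1 + Complex.I * A Complex.I) = 0 := by rw [hsum, mul_zero]
    have h9 : Complex.I * A 1 + (Complex.I * Complex.I) * A Complex.I = 0 := by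
      rw [← this]; ring
    rw [Complex.I_mul_I] at h9
    linear_combination -h9
  -- uniform convergence
  have hunif : TendstoUniformlyOn (fun n => moll (φ n) F') F atTop (ball z0 r) := by
    rw [Metric.tendstoUniformlyOn_iff]
    intro ε hε
    have huc : UniformContinuousOn F (closedBall z0 (2 * r)) :=
      (isCompact_closedBall _ _).uniformContinuousOn_of_continuous (hF.mono hball)
    obtain ⟨δ, hδp, hδ'⟩ := Metric.uniformContinuousOn_iff.1 huc (ε / 2) (by positivity)
    have htend : Tendsto (fun n : ℕ => r / 2 / ((n : ℝ) + 1)) atTop (𝓝 0) := by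
      have := (tendsto_one_div_add_atTop_nhds_zero_nat (𝕜 := ℝ)).const_mul (r / 2)
      simpa [div_eq_mul_inv] using this
    filter_upwards [htend.eventually (gt_mem_nhds hδp)] with n hn z hz
    have hz' : dist z z0 < r := hz
    rw [dist_comm, dist_eq_norm]
    refine lt_of_le_of_lt (moll_close (hφ1 n).continuous (hφ2 n) (hφ3 n) (hφ5 n) (hφ6 n) hFi
      (η := ε / 2) ?_) (by linarith)
    intro w hw
    have hwz : dist w z ≤ r / 2 / ((n : ℝ) + 1) := hw
    have h1 := hδ n
    have hwb : w ∈ closedBall z0 (2 * r) := by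
      rw [mem_closedBall]
      have := dist_triangle w z z0
      linarith
    have hzb : z ∈ closedBall z0 (2 * r) := by
      rw [mem_closedBall]; linarith
    rw [hF', indicator_of_mem hwb, ← dist_eq_norm]
    exact (hδ' w hwb z hzb (by linarith)).le
  have hlim := hunif.tendstoLocallyUniformlyOn.differentiableOn (Eventually.of_forall hhol) isOpen_ball
  exact (hlim.differentiableAt (isOpen_ball.mem_nhds (mem_ball_self hrp))).differentiableWithinAt

end Pool.Agent.H366R3.ED
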