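import Mathlib
import Pool.Agent.H366R3.ED.Weyl

set_option autoImplicit false

open Set Filter Topology MeasureTheory Metric
open scoped ContDiff ENNReal NNReal ComplexConjugate

namespace Pool.Agent.H366R3.ED

/-- a small Lipschitz perturbation of the identity is a homeomorphism -/
lemma perturb_homeo {ζ : ℂ → ℂ} {C : ℝ≥0} (hζ : LipschitzWith C ζ) (hC : C < 1) :
    ∃ e : ℂ ≃ₜ ℂ, ∀ w, e w = w + ζ w := by
  have happ : ApproximatesLinearOn (fun w => w + ζ w)
      ((ContinuousLinearEquiv.refl ℝ ℂ : ℂ ≃L[ℝ] ℂ) : ℂ →L[ℝ] ℂ) univ C := by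
    rw [ApproximatesLinearOn.eq_1]
    intro x _ y _
    have : x + ζ x - (y + ζ y) - (x - y) = ζ x - ζ y := by ring
    simp only [ContinuousLinearEquiv.coe_refl, ContinuousLinearMap.coe_id', id_eq]
    rw [this, ← dist_eq_norm, ← dist_eq_norm]
    exact hζ.dist_le_mul x y
  have hN : C < ‖((ContinuousLinearEquiv.refl ℝ ℂ).symm : ℂ →L[ℝ] ℂ)‖₊⁻¹ := by
    have : ‖((ContinuousLinearEquiv.refl ℝ ℂ).symm : ℂ →L[ℝ] ℂ)‖₊ = 1 := by
      have h1 : ((ContinuousLinearEquiv.refl ℝ ℂ).symm : ℂ →L[ℝ] ℂ) = ContinuousLinearMap.id ℝ ℂ := rfl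
      rw [h1]
      exact NNReal.eq (by simp)
    rw [this, inv_one]; exact hC
  exact ⟨happ.toHomeomorph _ (Or.inr hN), fun w => rfl⟩

/-- squared Hilbert-Schmidt norm -/
noncomputable def dens (A : ℂ →L[ℝ] ℂ) : ℝ := ‖A 1‖ ^ 2 + ‖A Complex.I‖ ^ 2

/-- Hilbert-Schmidt inner product -/
noncomputable def bil (A B : ℂ →L[ℝ] ℂ) : ℝ :=
  (A 1 * conj (B 1)).re + (A Complex.I * conj (B Complex.I)).re

lemma dens_nonneg (A : ℂ →L[ℝ] ℂ) : 0 ≤ dens A := by unfold dens; positivity

lemma norm_add_sq (a b : ℂ) (t : ℝ) :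
    ‖a + (t : ℂ) * b‖ ^ 2 = ‖a‖ ^ 2 + 2 * t * (a * conj b).re + t ^ 2 * ‖b‖ ^ 2 := by
  rw [← Complex.normSq_eq_norm_sq, ← Complex.normSq_eq_norm_sq, ← Complex.normSq_eq_norm_sq,
    Complex.normSq_apply, Complex.normSq_apply, Complex.normSq_apply]
  simp
  ring

lemma dens_add (A B : ℂ →L[ℝ] ℂ) (t : ℝ) :
    dens (A + t • B) = dens A + 2 * t * bil A B + t ^ 2 * dens B := by
  have h1 : ∀ v, (A + t • B) v = A v + (t : ℂ) * B v := by
    intro v; simp
  rw [dens, dens, dens, bil, h1, h1, norm_add_sq, norm_add_sq]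
  ring

lemma memLp_apply {Ω : Set ℂ} {D : ℂ → ℂ →L[ℝ] ℂ} (hD : MemLp D 2 (volume.restrict Ω)) (v : ℂ) :
    MemLp (fun z => D z v) 2 (volume.restrict Ω) := by
  have := (ContinuousLinearMap.apply ℝ ℂ v).comp_memLp' hD
  exact this

set_option maxHeartbeats 1000000 in
lemma integrable_dens {Ω : Set ℂ} {D : ℂ → ℂ →L[ℝ] ℂ} (hD : MemLp D 2 (volume.restrict Ω)) :
    Integrable (fun z => dens (D z)) (volume.restrict Ω) := by
  have h1 := memLp_apply hD 1
  have hI := memLp_apply hD Complex.I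
  have e1 : Integrable (fun z => ‖D z 1‖ ^ 2) (volume.restrict Ω) :=
    (memLp_two_iff_integrable_sq_norm h1.1).1 h1
  have e2 : Integrable (fun z => ‖D z Complex.I‖ ^ 2) (volume.restrict Ω) :=
    (memLp_two_iff_integrable_sq_norm hI.1).1 hI
  exact e1.add e2

lemma integral_add3 {Ω : Set ℂ} {f g k : ℂ → ℝ} (hf : Integrable f (volume.restrict Ω))
    (hg : Integrable g (volume.restrict Ω)) (hk : Integrable k (volume.restrict Ω)) :
    ∫ z in Ω, (f z + g z + k z) = (∫ z in Ω, f z) + (∫ z in Ω, g z) + ∫ z in Ω, k z := by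
  calc ∫ z in Ω, (f z + g z + k z) = (∫ z in Ω, (f z + g z)) + ∫ z in Ω, k z :=
        integral_add (f := fun z => f z + g z) (hf.add hg) hk
    _ = _ := by rw [integral_add hf hg]

lemma abs_bil_le (A B : ℂ →L[ℝ] ℂ) : |bil A B| ≤ dens A + dens B := by
  have key : ∀ a b : ℂ, |(a * conj b).re| ≤ ‖a‖ ^ 2 + ‖b‖ ^ 2 := by
    intro a b
    have h1 := Complex.abs_re_le_norm (a * conj b)
    rw [norm_mul, Complex.norm_conj] at h1
    nlinarith [sq_nonneg (‖a‖ - ‖b‖), sq_nonneg ‖a‖, sq_nonneg ‖b‖]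
  have h1 := key (A 1) (B 1)
  have h2 := key (A Complex.I) (B Complex.I)
  have h3 := abs_add_le ((A 1 * conj (B 1)).re) ((A Complex.I * conj (B Complex.I)).re)
  unfold bil dens
  linarith

lemma integrable_bil {Ω : Set ℂ} {D E : ℂ → ℂ →L[ℝ] ℂ} (hD : MemLp D 2 (volume.restrict Ω))
    (hE : MemLp E 2 (volume.restrict Ω)) :
    Integrable (fun z => bil (D z) (E z)) (volume.restrict Ω) := by
  have a1 := memLp_apply hD 1
  have a2 := memLp_apply hD Complex.I
  have b1 := memLp_apply hE 1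
  have b2 := memLp_apply hE Complex.I
  have m1 : AEStronglyMeasurable (fun z => (D z 1 * conj (E z 1)).re) (volume.restrict Ω) :=
    Complex.continuous_re.comp_aestronglyMeasurable
      (a1.1.mul (Complex.continuous_conj.comp_aestronglyMeasurable b1.1))
  have m2 : AEStronglyMeasurable (fun z => (D z Complex.I * conj (E z Complex.I)).re)
      (volume.restrict Ω) :=
    Complex.continuous_re.comp_aestronglyMeasurable
      (a2.1.mul (Complex.continuous_conj.comp_aestronglyMeasurable b2.1))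
  refine ((integrable_dens hD).add (integrable_dens hE)).mono' (m1.add m2)
    (Eventually.of_forall fun z => ?_)
  exact abs_bil_le _ _

lemma energy_eq {Ω : Set ℂ} {D : ℂ → ℂ →L[ℝ] ℂ} (hD : Integrable (fun z => dens (D z))
    (volume.restrict Ω)) : energy Ω D = ENNReal.ofReal (∫ z in Ω, dens (D z)) := by
  rw [ofReal_integral_eq_lintegral_ofReal hD (Eventually.of_forall fun z => dens_nonneg _), energy]
  congr 1
  funext z
  rw [dens, ENNReal.ofReal_add (by positivity) (by positivity), ENNReal.ofReal_pow (norm_nonneg _),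
    ENNReal.ofReal_pow (norm_nonneg _), ofReal_norm, ofReal_norm]

lemma norm_sq_le_dens (A : ℂ →L[ℝ] ℂ) : ‖A‖ ^ 2 ≤ 2 * dens A := by
  have h1 : ‖A‖ ≤ ‖A 1‖ + ‖A Complex.I‖ := by
    apply ContinuousLinearMap.opNorm_le_bound _ (by positivity)
    intro z
    have hz : z = z.re • (1 : ℂ) + z.im • Complex.I := by
      simp [Complex.re_add_im]
    calc ‖A z‖ = ‖A (z.re • (1 : ℂ) + z.im • Complex.I)‖ := by rw [← hz]
      _ = ‖z.re • A 1 + z.im • A Complex.I‖ := by rw [map_add, map_smul, map_smul]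
      _ ≤ |z.re| * ‖A 1‖ + |z.im| * ‖A Complex.I‖ := by
          refine (norm_add_le _ _).trans ?_
          rw [norm_smul, norm_smul, Real.norm_eq_abs, Real.norm_eq_abs]
      _ ≤ ‖z‖ * ‖A 1‖ + ‖z‖ * ‖A Complex.I‖ := by
          gcongr
          · exact Complex.abs_re_le_norm z
          · exact Complex.abs_im_le_norm z
      _ = _ := by ring
  have h3 : ‖A‖ ^ 2 ≤ (‖A 1‖ + ‖A Complex.I‖) ^ 2 := by gcongr
  unfold dens
  nlinarith [sq_nonneg (‖A 1‖ - ‖A Complex.I‖)]

lemma continuous_dens : Continuous dens := by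
  unfold dens
  have h1 : Continuous fun A : ℂ →L[ℝ] ℂ => A 1 := (ContinuousLinearMap.apply ℝ ℂ (1 : ℂ)).continuous
  have h2 : Continuous fun A : ℂ →L[ℝ] ℂ => A Complex.I :=
    (ContinuousLinearMap.apply ℝ ℂ Complex.I).continuous
  exact (h1.norm.pow 2).add (h2.norm.pow 2)

/-- finite energy of a `C^1` map -/
lemma memLp_of_energy {Ω : Set ℂ} (hΩ : IsOpen Ω) {h : ℂ → ℂ} (hh : ContDiffOn ℝ 1 h Ω)
    (he : energy Ω (fderiv ℝ h) < ⊤) : MemLp (fderiv ℝ h) 2 (volume.restrict Ω) := by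
  have hc : ContinuousOn (fderiv ℝ h) Ω := hh.continuousOn_fderiv_of_isOpen hΩ le_rfl
  have hm : AEStronglyMeasurable (fderiv ℝ h) (volume.restrict Ω) :=
    hc.aestronglyMeasurable hΩ.measurableSet
  rw [memLp_two_iff_integrable_sq_norm hm]
  have hmd : AEStronglyMeasurable (fun z => dens (fderiv ℝ h z)) (volume.restrict Ω) :=
    continuous_dens.comp_aestronglyMeasurable hm
  have hi : Integrable (fun z => dens (fderiv ℝ h z)) (volume.restrict Ω) := by
    refine ⟨hmd, ?_⟩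
    rw [hasFiniteIntegral_iff_ofReal (Eventually.of_forall fun z => dens_nonneg _)]
    convert he using 1
    rw [energy]
    congr 1
    funext z
    rw [dens, ENNReal.ofReal_add (by positivity) (by positivity), ENNReal.ofReal_pow (norm_nonneg _),
      ENNReal.ofReal_pow (norm_nonneg _), ofReal_norm, ofReal_norm]
  refine (hi.const_mul 2).mono' (hm.norm.pow 2) (Eventually.of_forall fun z => ?_)
  rw [Real.norm_eq_abs, abs_of_nonneg (by positivity)]
  exact norm_sq_le_dens _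

lemma min_le {Ω Ω' : Set ℂ} (hΩ : IsOpen Ω) {h : ℂ → ℂ} (hmin : IsEnergyMinimalDiffeo Ω Ω' h)
    {u : ℂ → ℂ} {Du : ℂ → ℂ →L[ℝ] ℂ} (hu : IsSobolevHomeo Ω Ω' u Du) :
    ∫ z in Ω, dens (fderiv ℝ h z) ≤ ∫ z in Ω, dens (Du z) := by
  have h1 := integrable_dens (memLp_of_energy hΩ hmin.1.1 hmin.2.2)
  have h2 := integrable_dens hu.memLp_differential
  have h3 : energy Ω (fderiv ℝ h) ≤ energy Ω Du := by
    rw [hmin.2.1]
    exact iInf_le_of_le u (iInf_le_of_le Du (iInf_le_of_le hu le_rfl))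
  rw [energy_eq h1, energy_eq h2] at h3
  exact (ENNReal.ofReal_le_ofReal_iff (integral_nonneg fun z => dens_nonneg _)).1 h3

lemma quad_zero {x y t0 : ℝ} (ht0 : 0 < t0)
    (h : ∀ t : ℝ, |t| < t0 → 0 ≤ 2 * t * x + t ^ 2 * y) : x = 0 := by
  by_contra hx
  -- choose t of sign opposite to x
  set M : ℝ := |y| + 1 with hM
  have hMp : 0 < M := by positivity
  have hxp : 0 < |x| := abs_pos.2 hx
  set s : ℝ := min (t0 / 2) (|x| / M) with hs
  have hsp : 0 < s := by positivity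
  have hst : s < t0 := lt_of_le_of_lt (min_le_left _ _) (by linarith)
  have hsM : s * M ≤ |x| := by
    have : s ≤ |x| / M := min_le_right _ _
    rwa [le_div_iff₀ hMp] at this
  have hyM : y ≤ M := by rw [hM]; linarith [le_abs_self y]
  rcases lt_or_gt_of_ne hx with hneg | hpos
  · have h1 := h s (by rw [abs_of_pos hsp]; exact hst)
    rw [abs_of_neg hneg] at hsM
    have h2 : s ^ 2 * y ≤ s ^ 2 * M := by gcongr
    nlinarith
  · have h1 := h (-s) (by rw [abs_neg, abs_of_pos hsp]; exact hst)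
    rw [abs_of_pos hpos] at hsM
    have h2 : s ^ 2 * y ≤ s ^ 2 * M := by gcongr
    nlinarith

lemma memLp_of_bdd {Ω : Set ℂ} (hΩ : IsOpen Ω) (hfinΩ : volume Ω ≠ ⊤) {E : Type*}
    [NormedAddCommGroup E] [SecondCountableTopologyEither ℂ E] {h : ℂ → E}
    (hc : ContinuousOn h Ω) {C : ℝ} (hb : ∀ z ∈ Ω, ‖h z‖ ≤ C) :
    MemLp h 2 (volume.restrict Ω) := by
  have : IsFiniteMeasure (volume.restrict Ω : Measure ℂ) := ⟨by
    rw [Measure.restrict_apply_univ]; exact hfinΩ.lt_top⟩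
  apply MemLp.of_bound (hc.aestronglyMeasurable hΩ.measurableSet) C
  rw [ae_restrict_iff' hΩ.measurableSet]
  exact Eventually.of_forall hb

/-- first variation in the target -/
theorem outer {Ω Ω' : Set ℂ} (hΩ : IsOpen Ω) (hΩ' : IsOpen Ω') (hb : Bornology.IsBounded Ω)
    (hb' : Bornology.IsBounded Ω') {h : ℂ → ℂ} (hmin : IsEnergyMinimalDiffeo Ω Ω' h)
    {η : ℂ → ℂ} (hη : ContDiff ℝ 1 η) (hηc : HasCompactSupport η) (hηΩ : tsupport η ⊆ Ω) :
    ∫ z in Ω, bil (fderiv ℝ h z) (fderiv ℝ η z) = 0 := by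
  obtain ⟨⟨hh, hbij, g, hg, hgh⟩, -, hfin⟩ := id hmin
  have hLp := memLp_of_energy hΩ hh hfin
  have hgmap : MapsTo g Ω' Ω := by
    intro w hw
    obtain ⟨z, hz, rfl⟩ := hbij.surjOn hw
    rw [hgh z hz]; exact hz
  have hhg : ∀ w ∈ Ω', h (g w) = w := by
    intro w hw
    obtain ⟨z, hz, rfl⟩ := hbij.surjOn hw
    rw [hgh z hz]
  set K : Set ℂ := tsupport η with hK
  have hKc : IsCompact K := hηc
  set K' : Set ℂ := h '' K with hK'
  have hK'c : IsCompact K' := hKc.image_of_continuousOn (hh.continuousOn.mono hηΩ)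
  have hK'Ω : K' ⊆ Ω' := by
    rintro w ⟨z, hz, rfl⟩
    exact hbij.mapsTo (hηΩ hz)
  set ζ : ℂ → ℂ := Ω'.indicator (fun w => η (g w)) with hζ
  have hζ0 : ∀ w, w ∉ K' → ζ w = 0 := by
    intro w hw
    by_cases hwΩ : w ∈ Ω'
    · rw [hζ, indicator_of_mem hwΩ]
      by_contra hne
      apply hw
      exact ⟨g w, subset_tsupport _ hne, hhg w hwΩ⟩
    · rw [hζ, indicator_of_notMem hwΩ]
  have hζC : ContDiff ℝ 1 ζ := by
    rw [contDiff_iff_contDiffAt]
    intro w
    by_cases hwΩ : w ∈ Ω'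
    · have h1 : ContDiffAt ℝ 1 (fun w => η (g w)) w :=
        hη.contDiffAt.comp w (hg.contDiffAt (hΩ'.mem_nhds hwΩ))
      apply h1.congr_of_eventuallyEq
      filter_upwards [hΩ'.mem_nhds hwΩ] with v hv
      rw [hζ, indicator_of_mem hv]
    · have h1 : w ∈ K'ᶜ := fun h => hwΩ (hK'Ω h)
      have h2 : ContDiffAt ℝ 1 (fun _ : ℂ => (0 : ℂ)) w := contDiffAt_const
      apply h2.congr_of_eventuallyEq
      filter_upwards [hK'c.isClosed.isOpen_compl.mem_nhds h1] with v hv
      exact hζ0 v hv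
  have hζs : HasCompactSupport ζ := by
    apply hK'c.of_isClosed_subset (isClosed_tsupport _)
    apply closure_minimal _ hK'c.isClosed
    intro w hw
    by_contra hcon
    exact hw (hζ0 w hcon)
  obtain ⟨C, hC⟩ := hζC.lipschitzWith_of_hasCompactSupport hζs one_ne_zero
  have hηd : MemLp (fderiv ℝ η) 2 (volume.restrict Ω) := by
    obtain ⟨B, hB⟩ := (hηc.fderiv ℝ).exists_bound_of_continuous (hη.continuous_fderiv one_ne_zero)
    exact memLp_of_bdd hΩ hb.measure_lt_top.ne (hη.continuous_fderiv one_ne_zero).continuousOn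
      (C := B) (fun z _ => hB z)
  have hi1 := integrable_dens hLp
  have hi2 := integrable_dens hηd
  have hib := integrable_bil hLp hηd
  apply quad_zero (t0 := 1 / ((C : ℝ) + 1)) (y := ∫ z in Ω, dens (fderiv ℝ η z)) (by positivity)
  intro t ht
  have htC : |t| * C < 1 := by
    rw [lt_div_iff₀ (by positivity)] at ht
    nlinarith [abs_nonneg t, C.2]
  have hLt : LipschitzWith (‖t‖₊ * C) (fun w => (t : ℂ) * ζ w) := by
    apply LipschitzWith.of_dist_le_mul
    intro x y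
    have h1 := hC.dist_le_mul x y
    rw [dist_eq_norm, ← mul_sub, norm_mul, Complex.norm_real, ← dist_eq_norm, NNReal.coe_mul,
      coe_nnnorm, mul_assoc]
    gcongr
  obtain ⟨e, he⟩ := perturb_homeo hLt (by
    rw [← NNReal.coe_lt_coe, NNReal.coe_mul, coe_nnnorm, Real.norm_eq_abs]; exact htC)
  have hefix : ∀ w, w ∉ Ω' → e w = w := by
    intro w hw
    rw [he, hζ0 w (fun h => hw (hK'Ω h)), mul_zero, add_zero]
  have hemap : ∀ w, w ∈ Ω' → e w ∈ Ω' := by
    intro w hw
    by_contra hcon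
    have h1 := hefix _ hcon
    have h2 := e.injective h1
    rw [h2] at hcon
    exact hcon hw
  have hesymm : ∀ w, w ∈ Ω' → e.symm w ∈ Ω' := by
    intro w hw
    by_contra hcon
    have h1 := hefix _ hcon
    rw [e.apply_symm_apply] at h1
    rw [← h1] at hcon
    exact hcon hw
  set u : ℂ → ℂ := fun z => h z + (t : ℂ) * η z with hu
  have hue : ∀ z ∈ Ω, u z = e (h z) := by
    intro z hz
    rw [he, hζ, indicator_of_mem (hbij.mapsTo hz), hgh z hz]
  have huC : ContDiffOn ℝ 1 u Ω := hh.add ((contDiff_const.mul hη).contDiffOn)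
  have hfd : ∀ z ∈ Ω, fderiv ℝ u z = fderiv ℝ h z + t • fderiv ℝ η z := by
    intro z hz
    have h1 : HasFDerivAt h (fderiv ℝ h z) z :=
      ((hh.differentiableOn one_ne_zero).differentiableAt (hΩ.mem_nhds hz)).hasFDerivAt
    have h2 : HasFDerivAt η (fderiv ℝ η z) z := (hη.differentiable one_ne_zero z).hasFDerivAt
    have h3 := h1.add (h2.const_smul t)
    have h4 : (h + t • η) = u := by
      funext w; simp [hu]
    rw [h4] at h3
    exact h3.fderiv
  have huS : IsSobolevHomeo Ω Ω' u (fderiv ℝ u) := by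
    refine ⟨⟨?_, ?_, ?_⟩, huC.continuousOn, ⟨fun w => g (e.symm w), ?_, ?_⟩, weakDeriv_C1 hΩ huC, ?_, ?_⟩
    · intro z hz
      rw [hue z hz]; exact hemap _ (hbij.mapsTo hz)
    · intro z hz w hw hzw
      rw [hue z hz, hue w hw] at hzw
      exact hbij.injOn hz hw (e.injective hzw)
    · intro w hw
      obtain ⟨z, hz, hzw⟩ := hbij.surjOn (hesymm w hw)
      refine ⟨z, hz, ?_⟩
      rw [hue z hz, hzw, e.apply_symm_apply]
    · exact hg.continuousOn.comp e.symm.continuous.continuousOn (fun w hw => hesymm w hw)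
    · intro z hz
      show g (e.symm (u z)) = z
      rw [hue z hz, e.symm_apply_apply, hgh z hz]
    · obtain ⟨B, hB⟩ := hb'.exists_norm_le
      refine memLp_of_bdd hΩ hb.measure_lt_top.ne huC.continuousOn (C := B) (fun z hz => ?_)
      rw [hue z hz]
      exact hB _ (hemap _ (hbij.mapsTo hz))
    · have h1 : MemLp (fun z => fderiv ℝ h z + t • fderiv ℝ η z) 2 (volume.restrict Ω) :=
        hLp.add (hηd.const_smul t)
      refine h1.ae_eq ?_
      rw [EventuallyEq, ae_restrict_iff' hΩ.measurableSet]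
      exact Eventually.of_forall fun z hz => (hfd z hz).symm
  have hle := min_le hΩ hmin huS
  have heq : ∫ z in Ω, dens (fderiv ℝ u z) = ∫ z in Ω, (dens (fderiv ℝ h z) +
      2 * t * bil (fderiv ℝ h z) (fderiv ℝ η z) + t ^ 2 * dens (fderiv ℝ η z)) := by
    apply setIntegral_congr_fun hΩ.measurableSet
    intro z hz
    show dens (fderiv ℝ u z) = _
    rw [hfd z hz, dens_add]
  rw [heq, integral_add3 hi1 (hib.const_mul _) (hi2.const_mul _),
    integral_const_mul, integral_const_mul] at hle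
  linarith

end Pool.Agent.H366R3.ED
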