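import Mathlib
import Pool.Agent.H366R3.ED.Outer
import Pool.Agent.H366R3.ED.Ends

set_option autoImplicit false

open Set Filter Topology MeasureTheory Metric
open scoped ContDiff ENNReal NNReal Real

namespace Pool.Agent.H366R3.ED

open Pool.Agent.Helper930.WD

/-- truncated modulus -/
noncomputable def mm (z : ℂ) : ℝ := max ‖z‖ (3 / 4)

/-- radial stretching -/
noncomputable def us (z : ℂ) : ℂ := ((13 - 9 / mm z : ℝ) : ℂ) * z

/-- the inverse radial stretching -/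
noncomputable def vs (w : ℂ) : ℂ := ((1 / 13 + 9 / (13 * mm w) : ℝ) : ℂ) * w

lemma mm_ge (z : ℂ) : 3 / 4 ≤ mm z := le_max_right _ _

lemma mm_pos (z : ℂ) : 0 < mm z := by linarith [mm_ge z]

lemma mm_cont : Continuous mm := by unfold mm; fun_prop

lemma mm_small {z : ℂ} (h : ‖z‖ ≤ 3 / 4) : mm z = 3 / 4 := max_eq_right h

lemma mm_big {z : ℂ} (h : 3 / 4 ≤ ‖z‖) : mm z = ‖z‖ := max_eq_left h

lemma us_small {z : ℂ} (h : ‖z‖ ≤ 3 / 4) : us z = z := by
  rw [us, mm_small h]; norm_num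

lemma vs_small {z : ℂ} (h : ‖z‖ ≤ 3 / 4) : vs z = z := by
  rw [vs, mm_small h]; norm_num

lemma norm_us {z : ℂ} (h : 3 / 4 ≤ ‖z‖) : ‖us z‖ = 13 * ‖z‖ - 9 := by
  have h0 : 0 < ‖z‖ := by linarith
  have h1 : 0 ≤ 13 - 9 / ‖z‖ := by
    have : 9 / ‖z‖ ≤ 9 / (3 / 4) := by gcongr
    norm_num at this; linarith
  rw [us, mm_big h, norm_mul, Complex.norm_real, Real.norm_of_nonneg h1]
  field_simp

lemma norm_vs {z : ℂ} (h : 3 / 4 ≤ ‖z‖) : ‖vs z‖ = (‖z‖ + 9) / 13 := by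
  have h0 : 0 < ‖z‖ := by linarith
  rw [vs, mm_big h, norm_mul, Complex.norm_real, Real.norm_of_nonneg (by positivity)]
  field_simp

lemma vs_us (z : ℂ) : vs (us z) = z := by
  rcases le_total ‖z‖ (3 / 4) with h | h
  · rw [us_small h, vs_small h]
  · have h1 := norm_us h
    have h2 : 3 / 4 ≤ ‖us z‖ := by rw [h1]; linarith
    have h0 : 0 < ‖z‖ := by linarith
    rw [vs, mm_big h2, h1, us, mm_big h, ← mul_assoc, ← Complex.ofReal_mul]
    have h3 : (1 / 13 + 9 / (13 * (13 * ‖z‖ - 9))) * (13 - 9 / ‖z‖) = 1 := by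
      have h4 : 13 * ‖z‖ - 9 ≠ 0 := by linarith
      field_simp
      ring
    rw [h3, Complex.ofReal_one, one_mul]

lemma us_vs (z : ℂ) : us (vs z) = z := by
  rcases le_total ‖z‖ (3 / 4) with h | h
  · rw [vs_small h, us_small h]
  · have h1 := norm_vs h
    have h2 : 3 / 4 ≤ ‖vs z‖ := by rw [h1]; linarith
    have h0 : 0 < ‖z‖ := by linarith
    rw [us, mm_big h2, h1, vs, mm_big h, ← mul_assoc, ← Complex.ofReal_mul]
    have h3 : (13 - 9 / ((‖z‖ + 9) / 13)) * (1 / 13 + 9 / (13 * ‖z‖)) = 1 := by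
      have h4 : ‖z‖ + 9 ≠ 0 := by linarith
      field_simp
      ring
    rw [h3, Complex.ofReal_one, one_mul]

lemma us_cont : Continuous us := by
  unfold us
  apply Continuous.mul _ continuous_id
  apply Complex.continuous_ofReal.comp
  exact continuous_const.sub (continuous_const.div mm_cont fun z => (mm_pos z).ne')

lemma vs_cont : Continuous vs := by
  unfold vs
  apply Continuous.mul _ continuous_id
  apply Complex.continuous_ofReal.comp
  exact continuous_const.add (continuous_const.div (continuous_const.mul mm_cont)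
    fun z => mul_ne_zero (by norm_num) (mm_pos z).ne')

lemma us_maps {ρ : ℝ} (hρ8 : ρ ≤ 1 / 8) : MapsTo us (Om 1 ρ) (Om 4 ρ) := by
  intro z hz
  obtain ⟨h1, h2, h3⟩ := mem_Om.1 hz
  rcases le_total ‖z‖ (3 / 4) with h | h
  · rw [us_small h]; exact mem_Om.2 ⟨by linarith, h2, h3⟩
  · have h4 := norm_us h
    have h5 := half_tri2 (us z)
    exact mem_Om.2 ⟨by rw [h4]; linarith, by rw [h4]; linarith, by linarith⟩

lemma vs_maps {ρ : ℝ} (hρ8 : ρ ≤ 1 / 8) : MapsTo vs (Om 4 ρ) (Om 1 ρ) := by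
  intro z hz
  obtain ⟨h1, h2, h3⟩ := mem_Om.1 hz
  rcases le_total ‖z‖ (3 / 4) with h | h
  · rw [vs_small h]; exact mem_Om.2 ⟨by linarith, h2, h3⟩
  · have h4 := norm_vs h
    have h5 := half_tri2 (vs z)
    exact mem_Om.2 ⟨by rw [h4]; linarith, by rw [h4]; linarith, by linarith⟩

lemma mm_lip (z w : ℂ) : |mm z - mm w| ≤ ‖z - w‖ := by
  have h1 : |mm z - mm w| ≤ |‖z‖ - ‖w‖| := by
    unfold mm
    exact abs_max_sub_max_le_abs _ _ _
  exact h1.trans (abs_norm_sub_norm_le z w)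

lemma us_lip : LipschitzOnWith 20 us (ball 0 1) := by
  apply LipschitzOnWith.of_dist_le_mul
  intro z hz w hw
  rw [mem_ball_zero_iff] at hz hw
  have hmz := mm_ge z
  have hmw := mm_ge w
  have hz1 : mm z ≤ 1 := max_le hz.le (by norm_num)
  have e : us z - us w = ((13 - 9 / mm z : ℝ) : ℂ) * (z - w) +
      ((9 * (mm z - mm w) / (mm z * mm w) : ℝ) : ℂ) * w := by
    rw [us, us]
    have h1 : (13 - 9 / mm w : ℝ) = (13 - 9 / mm z) - 9 * (mm z - mm w) / (mm z * mm w) := by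
      have := (mm_pos z).ne'
      have := (mm_pos w).ne'
      field_simp
      ring
    rw [h1]
    push_cast
    ring
  rw [dist_eq_norm, dist_eq_norm, e]
  refine (norm_add_le _ _).trans ?_
  rw [norm_mul, norm_mul, Complex.norm_real, Complex.norm_real, Real.norm_eq_abs, Real.norm_eq_abs]
  have h1 : |13 - 9 / mm z| ≤ 4 := by
    have a1 : 9 / mm z ≤ 12 := by rw [div_le_iff₀ (mm_pos z)]; linarith
    have a2 : 9 ≤ 9 / mm z := by rw [le_div_iff₀ (mm_pos z)]; linarith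
    rw [abs_of_nonneg (by linarith)]; linarith
  have h2 : |9 * (mm z - mm w) / (mm z * mm w)| ≤ 16 * ‖z - w‖ := by
    rw [abs_div, abs_mul, abs_of_pos (by norm_num : (0:ℝ) < 9),
      abs_of_pos (mul_pos (mm_pos z) (mm_pos w)), div_le_iff₀ (mul_pos (mm_pos z) (mm_pos w))]
    have a1 := mm_lip z w
    have a2 : 9 / 16 ≤ mm z * mm w := by nlinarith
    have a3 := norm_nonneg (z - w)
    nlinarith
  have h3 := norm_nonneg (z - w)
  have h4 := norm_nonneg w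
  have h5 : |9 * (mm z - mm w) / (mm z * mm w)| * ‖w‖ ≤ 16 * ‖z - w‖ * 1 := by
    gcongr
  have h6 : |13 - 9 / mm z| * ‖z - w‖ ≤ 4 * ‖z - w‖ := by gcongr
  have h7 : ((20 : ℝ≥0) : ℝ) = 20 := rfl
  rw [h7]
  linarith

lemma Om_sub (R ρ : ℝ) : Om R ρ ⊆ ball 0 R := sdiff_subset

lemma us_sobolev {ρ : ℝ} (hρ8 : ρ ≤ 1 / 8) : IsSobolevHomeo (Om 1 ρ) (Om 4 ρ) us (fderiv ℝ us) := by
  have hfin : volume (Om 1 ρ) ≠ ⊤ := (isBounded_ball.subset (Om_sub 1 ρ)).measure_lt_top.ne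
  have : IsFiniteMeasure (volume.restrict (Om 1 ρ) : Measure ℂ) := ⟨by
    rw [Measure.restrict_apply_univ]; exact hfin.lt_top⟩
  refine ⟨⟨us_maps hρ8, ?_, ?_⟩, us_cont.continuousOn, ⟨vs, vs_cont.continuousOn, fun z _ => vs_us z⟩,
    ?_, ?_, ?_⟩
  · intro z _ w _ h
    rw [← vs_us z, h, vs_us]
  · intro w hw; exact ⟨vs w, vs_maps hρ8 hw, us_vs w⟩
  · apply weakDeriv_of_lip (Om_open 1 ρ)
    intro K hK _
    exact ⟨ball 0 1, isOpen_ball, hK.trans (Om_sub 1 ρ), 20, us_lip⟩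
  · apply memLp_of_bdd (Om_open 1 ρ) hfin us_cont.continuousOn (C := 4)
    intro z hz
    exact (mem_Om.1 (us_maps hρ8 hz)).1.le
  · apply MemLp.of_bound (measurable_fderiv ℝ us).aestronglyMeasurable 20
    rw [ae_restrict_iff' (Om_open 1 ρ).measurableSet]
    refine Eventually.of_forall fun z hz => ?_
    exact norm_fderiv_le_of_lipschitzOn ℝ (isOpen_ball.mem_nhds (Om_sub 1 ρ hz)) us_lip

/-- a uniform bound of the infimum of the energies -/
theorem energyInf_le {ρ : ℝ} (hρ8 : ρ ≤ 1 / 8) :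
    energyInf (Om 1 ρ) (Om 4 ρ) ≤ ENNReal.ofReal (800 * π) := by
  have h1 : energyInf (Om 1 ρ) (Om 4 ρ) ≤ energy (Om 1 ρ) (fderiv ℝ us) :=
    iInf_le_of_le us (iInf_le_of_le (fderiv ℝ us) (iInf_le_of_le (us_sobolev hρ8) le_rfl))
  refine h1.trans ?_
  rw [energy]
  have h2 : ∀ z ∈ Om 1 ρ, ‖fderiv ℝ us z 1‖ₑ ^ 2 + ‖fderiv ℝ us z Complex.I‖ₑ ^ 2 ≤ (800 : ℝ≥0∞) := by
    intro z hz
    have h3 : ‖fderiv ℝ us z‖ ≤ 20 :=
      norm_fderiv_le_of_lipschitzOn ℝ (isOpen_ball.mem_nhds (Om_sub 1 ρ hz)) us_lip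
    have h4 : ∀ v : ℂ, ‖v‖ = 1 → ‖fderiv ℝ us z v‖ₑ ^ 2 ≤ 400 := by
      intro v hv
      have h5 : ‖fderiv ℝ us z v‖ ≤ 20 := by
        have := (fderiv ℝ us z).le_opNorm v
        rw [hv, mul_one] at this
        linarith
      have h6 : ‖fderiv ℝ us z v‖ₑ ≤ 20 := by
        rw [← ofReal_norm]
        calc ENNReal.ofReal ‖fderiv ℝ us z v‖ ≤ ENNReal.ofReal 20 := ENNReal.ofReal_le_ofReal h5
          _ = 20 := by norm_num
      calc ‖fderiv ℝ us z v‖ₑ ^ 2 ≤ 20 ^ 2 := by gcongr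
        _ = 400 := by norm_num
    calc ‖fderiv ℝ us z 1‖ₑ ^ 2 + ‖fderiv ℝ us z Complex.I‖ₑ ^ 2 ≤ 400 + 400 :=
          add_le_add (h4 1 (by simp)) (h4 Complex.I (by simp))
      _ = 800 := by norm_num
  calc ∫⁻ z in Om 1 ρ, (‖fderiv ℝ us z 1‖ₑ ^ 2 + ‖fderiv ℝ us z Complex.I‖ₑ ^ 2)
      ≤ ∫⁻ z in Om 1 ρ, (800 : ℝ≥0∞) := setLIntegral_mono measurable_const h2
    _ = 800 * volume (Om 1 ρ) := by rw [setLIntegral_const]
    _ ≤ 800 * volume (ball (0 : ℂ) 1) := by gcongr; exact Om_sub 1 ρ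
    _ = ENNReal.ofReal (800 * π) := by
        have hpi : ENNReal.ofReal π = (NNReal.pi : ℝ≥0∞) := by
          rw [← NNReal.coe_real_pi, ENNReal.ofReal_coe_nnreal]
        rw [Complex.volume_ball, ENNReal.ofReal_mul (by norm_num), hpi]
        simp

end Pool.Agent.H366R3.ED
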