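import Mathlib
import Pool.Agent.H366R3.ED.CC
import Pool.Agent.H366R3.ED.Ends

set_option autoImplicit false

open Set Filter Topology MeasureTheory Metric
open scoped ContDiff ENNReal NNReal ComplexConjugate Real

namespace Pool.Agent.H366R3.ED

/-- exhaustion -/
lemma exhaust {f : ℂ → ℂ} (hf : ContinuousOn f (Om 1 0)) {C : ℝ}
    (hK : ∀ K, IsCompact K → K ⊆ Om 1 0 → ∫ z in K, ‖f z‖ ^ 2 ≤ C) :
    IntegrableOn (fun z => ‖f z‖ ^ 2) (Om 1 0) ∧ ∫ z in Om 1 0, ‖f z‖ ^ 2 ≤ C := by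
  have hC : 0 ≤ C := by
    have := hK ∅ isCompact_empty (empty_subset _)
    simpa using this
  set a : ℕ → ℝ := fun n => 1 / ((n : ℝ) + 9) with ha
  have ha0 : ∀ n, 0 < a n := fun n => by positivity
  set U : ℕ → Set ℂ := fun n => {z | a n < ‖z‖ ∧ a n < ‖z - 1 / 2‖ ∧ ‖z‖ < 1 - a n} with hU
  set K : ℕ → Set ℂ := fun n => {z | a n ≤ ‖z‖ ∧ a n ≤ ‖z - 1 / 2‖ ∧ ‖z‖ ≤ 1 - a n} with hKd
  have c1 : Continuous fun w : ℂ => ‖w‖ := continuous_norm
  have c2 : Continuous fun w : ℂ => ‖w - 1 / 2‖ := by fun_prop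
  have hKc : ∀ n, IsCompact (K n) := by
    intro n
    apply (isCompact_closedBall (0 : ℂ) 1).of_isClosed_subset
    · exact (isClosed_le continuous_const c1).inter ((isClosed_le continuous_const c2).inter
        (isClosed_le c1 continuous_const))
    · rintro w ⟨-, -, h3⟩
      rw [mem_closedBall_zero_iff]; linarith [ha0 n]
  have hKO : ∀ n, K n ⊆ Om 1 0 := by
    rintro n w ⟨h1, h2, h3⟩
    have := ha0 n
    exact mem_Om.2 ⟨by linarith, by linarith, by linarith⟩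
  have hUK : ∀ n, U n ⊆ K n := fun n w hw => ⟨hw.1.le, hw.2.1.le, hw.2.2.le⟩
  have hanti : Antitone a := by
    intro m n hmn
    have : (m : ℝ) ≤ n := by exact_mod_cast hmn
    simp only [ha]
    gcongr
  have hmono : Monotone U := by
    intro m n hmn w hw
    have := hanti hmn
    exact ⟨lt_of_le_of_lt this hw.1, lt_of_le_of_lt this hw.2.1, by linarith [hw.2.2]⟩
  have hunion : ⋃ n, U n = Om 1 0 := by
    apply Subset.antisymm
    · exact iUnion_subset fun n => (hUK n).trans (hKO n)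
    · intro w hw
      obtain ⟨h1, h2, h3⟩ := mem_Om.1 hw
      have htend : Tendsto a atTop (𝓝 0) := by
        have := (tendsto_natCast_atTop_atTop (R := ℝ)).atTop_add (tendsto_const_nhds (x := (9:ℝ)))
        have h4 := this.inv_tendsto_atTop
        refine h4.congr fun n => ?_
        simp [ha]
      have hm : 0 < min ‖w‖ (min ‖w - 1 / 2‖ (1 - ‖w‖)) := lt_min h2 (lt_min h3 (by linarith))
      obtain ⟨n, hn⟩ := (htend.eventually (gt_mem_nhds hm)).exists
      rw [lt_min_iff, lt_min_iff] at hn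
      exact mem_iUnion.2 ⟨n, hn.1, hn.2.1, by linarith [hn.2.2]⟩
  have hle : ∫⁻ z in Om 1 0, ENNReal.ofReal (‖f z‖ ^ 2) ≤ ENNReal.ofReal C := by
    rw [← hunion, setLIntegral_iUnion_of_directed _ hmono.directed_le]
    apply iSup_le
    intro n
    have hi : IntegrableOn (fun z => ‖f z‖ ^ 2) (K n) :=
      ((hf.mono (hKO n)).norm.pow 2).integrableOn_compact (hKc n)
    calc ∫⁻ z in U n, ENNReal.ofReal (‖f z‖ ^ 2)
        ≤ ∫⁻ z in K n, ENNReal.ofReal (‖f z‖ ^ 2) := lintegral_mono_set (hUK n)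
      _ = ENNReal.ofReal (∫ z in K n, ‖f z‖ ^ 2) :=
          (ofReal_integral_eq_lintegral_ofReal hi (Eventually.of_forall fun z => by positivity)).symm
      _ ≤ ENNReal.ofReal C := ENNReal.ofReal_le_ofReal (hK _ (hKc n) (hKO n))
  have hm : AEStronglyMeasurable (fun z => ‖f z‖ ^ 2) (volume.restrict (Om 1 0)) :=
    (hf.norm.pow 2).aestronglyMeasurable (Om_open 1 0).measurableSet
  have hint : IntegrableOn (fun z => ‖f z‖ ^ 2) (Om 1 0) := by
    refine ⟨hm, ?_⟩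
    rw [hasFiniteIntegral_iff_ofReal (Eventually.of_forall fun z => by positivity)]
    exact hle.trans_lt ENNReal.ofReal_lt_top
  refine ⟨hint, ?_⟩
  rw [← ofReal_integral_eq_lintegral_ofReal hint (Eventually.of_forall fun z => by positivity)] at hle
  exact (ENNReal.ofReal_le_ofReal_iff hC).1 hle

/-- decay at the punctures -/
def Dec (f : ℂ → ℂ) : Prop :=
  ∀ c : ℂ, c = 0 ∨ c = 1 / 2 → ∀ ε > 0, ∀ᶠ z in 𝓝[≠] c, ‖f z‖ * ‖z - c‖ ≤ ε

lemma near_punct {c : ℂ} (hc : c = 0 ∨ c = 1 / 2) {z : ℂ} (h1 : z ≠ c) (h2 : ‖z - c‖ < 1 / 8) :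
    z ∈ Om 1 0 := by
  have h3 : 0 < ‖z - c‖ := norm_pos_iff.2 (sub_ne_zero.2 h1)
  have k1 := half_tri z
  have k2 := half_tri2 z
  rcases hc with rfl | rfl
  · rw [sub_zero] at h2 h3
    exact mem_Om.2 ⟨by linarith, h3, by linarith⟩
  · exact mem_Om.2 ⟨by linarith, by linarith, h3⟩

lemma bdd_dec {f : ℂ → ℂ} {M : ℝ} (hM : ∀ z ∈ Om 1 0, ‖f z‖ ≤ M) : Dec f := by
  intro c hc ε hε
  have hM' : 0 < |M| + 1 := by positivity
  have h1 : ball c (min (1 / 8) (ε / (|M| + 1))) ∈ 𝓝 c := ball_mem_nhds c (by positivity)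
  filter_upwards [self_mem_nhdsWithin, mem_nhdsWithin_of_mem_nhds h1] with z hz hzb
  rw [mem_ball, lt_min_iff, dist_eq_norm] at hzb
  have h2 := hM z (near_punct hc hz hzb.1)
  have h3 := hzb.2
  rw [lt_div_iff₀ hM'] at h3
  have h4 : ‖f z‖ ≤ |M| + 1 := by linarith [le_abs_self M]
  nlinarith [norm_nonneg (z - c), norm_nonneg (f z)]

lemma L2_dec {f : ℂ → ℂ} (hf : DifferentiableOn ℂ f (Om 1 0))
    (hi : IntegrableOn (fun z => ‖f z‖ ^ 2) (Om 1 0)) : Dec f := by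
  intro c hc ε hε
  have hπ := Real.pi_pos
  have hfin : ∫⁻ z, ENNReal.ofReal (‖f z‖ ^ 2) ∂(volume.restrict (Om 1 0)) ≠ ⊤ := by
    have := hi.2
    rw [hasFiniteIntegral_iff_ofReal (Eventually.of_forall fun z => by positivity)] at this
    exact this.ne
  set η : ℝ := π * ε ^ 2 / 4 with hη
  have hηp : 0 < η := by positivity
  obtain ⟨δ, hδ, hδS⟩ := exists_pos_setLIntegral_lt_of_measure_lt hfin
    (ENNReal.ofReal_pos.2 hηp).ne'
  -- small balls have small measure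
  obtain ⟨r0, hr0, hr0δ⟩ : ∃ r0 : ℝ, 0 < r0 ∧ ∀ w : ℂ, ∀ r, r ≤ r0 → volume (ball w r) < δ := by
    have h1 : Tendsto (fun r : ℝ => volume (ball (0 : ℂ) r)) (𝓝[>] 0) (𝓝 0) := by
      have h2 : ∀ r : ℝ, volume (ball (0 : ℂ) r) = ENNReal.ofReal r ^ 2 * NNReal.pi := fun r =>
        Complex.volume_ball 0 r
      simp_rw [h2]
      have h3 : Tendsto (fun r : ℝ => ENNReal.ofReal r ^ 2 * (NNReal.pi : ℝ≥0∞)) (𝓝 0)
          (𝓝 (ENNReal.ofReal 0 ^ 2 * NNReal.pi)) := by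
        apply ENNReal.Tendsto.mul_const
        · exact (ENNReal.continuous_pow 2).continuousAt.tendsto.comp
            (ENNReal.continuous_ofReal.tendsto 0)
        · right; exact ENNReal.coe_ne_top
      simp only [ENNReal.ofReal_zero, ne_eq, OfNat.ofNat_ne_zero, not_false_eq_true, zero_pow,
        zero_mul] at h3
      exact h3.mono_left nhdsWithin_le_nhds
    have h4 := (h1.eventually (gt_mem_nhds hδ)).and self_mem_nhdsWithin
    obtain ⟨r0, h5, h6⟩ := h4.exists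
    refine ⟨r0, h6, fun w r hr => ?_⟩
    calc volume (ball w r) ≤ volume (ball w r0) := measure_mono (ball_subset_ball hr)
      _ = volume (ball (0 : ℂ) r0) := by rw [Complex.volume_ball, Complex.volume_ball]
      _ < δ := h5
  have h1 : ball c (min (1 / 16) r0) ∈ 𝓝 c := ball_mem_nhds c (by positivity)
  filter_upwards [self_mem_nhdsWithin, mem_nhdsWithin_of_mem_nhds h1] with z hz hzb
  rw [mem_ball, lt_min_iff, dist_eq_norm] at hzb
  have hz0 : 0 < ‖z - c‖ := norm_pos_iff.2 (sub_ne_zero.2 hz)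
  set r : ℝ := ‖z - c‖ / 2 with hr
  have hrp : 0 < r := by positivity
  have hsub : ball z r ⊆ Om 1 0 := by
    intro w hw
    rw [mem_ball, dist_eq_norm] at hw
    have t1 := norm_sub_norm_le (z - c) (z - w)
    have t2 := norm_add_le (w - z) (z - c)
    have e1 : z - c - (z - w) = w - c := by ring
    have e2 : w - z + (z - c) = w - c := by ring
    rw [e1, norm_sub_rev z w] at t1
    rw [e2] at t2
    apply near_punct hc
    · intro h; rw [h, sub_self, norm_zero] at t1; rw [h] at hw; linarith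
    · linarith [hzb.1]
  have h2 := holo_sq_le hrp (hf.mono hsub) (hi.mono_set hsub)
  have h3 : ∫ w in ball z r, ‖f w‖ ^ 2 < η := by
    have h4 : ∫⁻ w in ball z r, ENNReal.ofReal (‖f w‖ ^ 2) ∂(volume.restrict (Om 1 0)) <
        ENNReal.ofReal η := by
      apply hδS
      calc (volume.restrict (Om 1 0)) (ball z r) ≤ volume (ball z r) := Measure.restrict_apply_le _ _
        _ < δ := hr0δ z r (by linarith [hzb.2])
    rw [Measure.restrict_restrict_of_subset hsub, ← ofReal_integral_eq_lintegral_ofReal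
      (hi.mono_set hsub) (Eventually.of_forall fun z => by positivity)] at h4
    exact (ENNReal.ofReal_lt_ofReal_iff hηp).1 h4
  have h4 : (‖f z‖ * ‖z - c‖) ^ 2 < ε ^ 2 := by
    have e : (‖f z‖ * ‖z - c‖) ^ 2 = 4 * (r ^ 2 * ‖f z‖ ^ 2) := by
      rw [hr]; ring
    rw [e]
    have h5 : π * (r ^ 2 * ‖f z‖ ^ 2) < π * (ε ^ 2 / 4) := by
      calc π * (r ^ 2 * ‖f z‖ ^ 2) = π * r ^ 2 * ‖f z‖ ^ 2 := by ring
        _ ≤ _ := h2
        _ < η := h3
        _ = _ := by rw [hη]; ring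
    have h6 := lt_of_mul_lt_mul_left h5 hπ.le
    linarith
  exact (lt_of_pow_lt_pow_left₀ 2 hε.le h4).le

/-- removal of the punctures -/
lemma ext_two {f : ℂ → ℂ} (hf : DifferentiableOn ℂ f (Om 1 0)) (hd : Dec f) :
    ∃ f' : ℂ → ℂ, DifferentiableOn ℂ f' (ball 0 1) ∧ EqOn f' f (Om 1 0) := by
  have key : ∀ (g : ℂ → ℂ) (s : Set ℂ) (c : ℂ), s ∈ 𝓝 c → DifferentiableOn ℂ g (s \ {c}) →
      (∀ ε > 0, ∀ᶠ z in 𝓝[≠] c, ‖g z‖ * ‖z - c‖ ≤ ε) →
      DifferentiableOn ℂ (Function.update g c (limUnder (𝓝[≠] c) g)) s := by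
    intro g s c hs hg hdec
    apply Complex.differentiableOn_update_limUnder_of_isLittleO hs hg
    rw [Asymptotics.isLittleO_iff]
    intro ε hε
    have h1 := hdec (ε / 2) (by positivity)
    have h2 : ball c (ε / (2 * (‖g c‖ + 1))) ∈ 𝓝 c := ball_mem_nhds c (by positivity)
    filter_upwards [h1, self_mem_nhdsWithin, mem_nhdsWithin_of_mem_nhds h2] with z k1 k2 k3
    have hz0 : 0 < ‖z - c‖ := norm_pos_iff.2 (sub_ne_zero.2 k2)
    rw [mem_ball, dist_eq_norm, lt_div_iff₀ (by positivity)] at k3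
    rw [norm_inv, ← div_eq_mul_inv, le_div_iff₀ hz0]
    have k4 := norm_sub_le (g z) (g c)
    have k5 : ‖g z - g c‖ * ‖z - c‖ ≤ (‖g z‖ + ‖g c‖) * ‖z - c‖ := by gcongr
    nlinarith [norm_nonneg (g c)]
  have hne : (0 : ℂ) ≠ 1 / 2 := by norm_num
  set s1 : Set ℂ := ball 0 1 \ {1 / 2} with hs1
  have hs1o : IsOpen s1 := isOpen_ball.sdiff isClosed_singleton
  have h0s1 : (0 : ℂ) ∈ s1 := ⟨mem_ball_self one_pos, by simp⟩
  have hOm : ∀ z, z ∈ Om 1 0 ↔ z ∈ ball (0 : ℂ) 1 ∧ z ≠ 0 ∧ z ≠ 1 / 2 := by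
    intro z
    rw [mem_Om, mem_ball_zero_iff, norm_pos_iff, norm_pos_iff, sub_ne_zero]
  set f1 := Function.update f 0 (limUnder (𝓝[≠] 0) f) with hf1
  have hd1 : DifferentiableOn ℂ f1 s1 := by
    apply key f s1 0 (hs1o.mem_nhds h0s1)
    · apply hf.mono
      rintro z ⟨⟨h1, h2⟩, h3⟩
      exact (hOm z).2 ⟨h1, h3, h2⟩
    · exact hd 0 (Or.inl rfl)
  set f2 := Function.update f1 (1 / 2) (limUnder (𝓝[≠] (1 / 2)) f1) with hf2
  have hhalf : (1 / 2 : ℂ) ∈ ball (0 : ℂ) 1 := by rw [mem_ball_zero_iff]; norm_num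
  have hd2 : DifferentiableOn ℂ f2 (ball 0 1) := by
    apply key f1 (ball 0 1) (1 / 2) (isOpen_ball.mem_nhds hhalf) hd1
    intro ε hε
    filter_upwards [hd (1 / 2) (Or.inr rfl) ε hε,
      mem_nhdsWithin_of_mem_nhds (isOpen_ne.mem_nhds hne.symm)] with z h1 h2
    rwa [hf1, Function.update_of_ne h2]
  refine ⟨f2, hd2, fun z hz => ?_⟩
  obtain ⟨-, h1, h2⟩ := (hOm z).1 hz
  rw [hf2, Function.update_of_ne h2, hf1, Function.update_of_ne h1]

lemma Om_ae : Om 1 0 =ᵐ[volume] ball (0 : ℂ) 1 := by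
  rw [Om, closedBall_zero, closedBall_zero]
  apply sdiff_null_ae_eq_self
  exact (Set.toFinite ({(0:ℂ)} ∪ {1 / 2})).measure_zero _

end Pool.Agent.H366R3.ED
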