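import Mathlib
import Pool.Agent.H366R3.ED.Compet
import Pool.Agent.H366R3.Topo

set_option autoImplicit false

open Set Filter Topology Metric

namespace Pool.Agent.H366R3.ED

open Pool.Agent.H366R3

/-- the disk of radius `R` without the closed disks of radius `ρ` about the points of `P` -/
def OmP (P : Finset ℝ) (R ρ : ℝ) : Set ℂ := {z | ‖z‖ < R ∧ ∀ c ∈ P, ρ < ‖z - (c : ℂ)‖}

/-- separation of the centers -/
structure Sep (P : Finset ℝ) (σ : ℝ) : Prop where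
  h0 : (0 : ℝ) ∈ P
  h1 : (1 / 2 : ℝ) ∈ P
  ge : ∀ c ∈ P, 0 ≤ c
  le : ∀ c ∈ P, c ≤ 1 / 2
  sep : ∀ c ∈ P, ∀ c' ∈ P, c ≠ c' → 4 * σ ≤ |c - c'|
  pos : 0 < σ
  le8 : σ ≤ 1 / 8

lemma OmP_open (P : Finset ℝ) (R ρ : ℝ) : IsOpen (OmP P R ρ) := by
  have h1 : OmP P R ρ = {z | ‖z‖ < R} ∩ ⋂ c ∈ P, {z : ℂ | ρ < ‖z - (c : ℂ)‖} := by
    ext z; simp [OmP]
  rw [h1]
  apply (isOpen_lt continuous_norm continuous_const).inter
  apply isOpen_biInter_finset
  intro c _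
  have : Continuous fun z : ℂ => ‖z - (c : ℂ)‖ := by fun_prop
  exact isOpen_lt continuous_const this

lemma tri1 {c : ℝ} (h0 : 0 ≤ c) (h1 : c ≤ 1 / 2) (z : ℂ) : ‖z‖ ≤ 1 / 2 + ‖z - (c : ℂ)‖ := by
  have h2 := norm_add_le (z - (c : ℂ)) (c : ℂ)
  rw [sub_add_cancel, Complex.norm_real, Real.norm_of_nonneg h0] at h2
  linarith

lemma tri2 (c c' : ℝ) (z : ℂ) : |c - c'| ≤ ‖z - (c : ℂ)‖ + ‖z - (c' : ℂ)‖ := by
  have h2 := norm_sub_le (z - (c' : ℂ)) (z - (c : ℂ))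
  have e : z - (c' : ℂ) - (z - (c : ℂ)) = ((c - c' : ℝ) : ℂ) := by push_cast; ring
  rw [e, Complex.norm_real, Real.norm_eq_abs] at h2
  linarith

/-- connectedness, with variable radii -/
lemma domP_preconnected {P : Finset ℝ} {R : ℝ} {r : ℝ → ℝ} (hR : 1 ≤ R) (hge : ∀ c ∈ P, 0 ≤ c)
    (hle : ∀ c ∈ P, c ≤ 1 / 2) (hr : ∀ c ∈ P, r c ≤ 1 / 8) :
    IsPreconnected {z : ℂ | ‖z‖ < R ∧ ∀ c ∈ P, r c < ‖z - (c : ℂ)‖} := by
  set W : Set ℂ := {z : ℂ | ‖z‖ < R ∧ ∀ c ∈ P, r c < ‖z - (c : ℂ)‖} with hW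
  set C : Set ℂ := annc 0 (3 / 4) R with hC
  have hCp : IsPreconnected C := annc_preconnected 0 (by norm_num)
  have hCW : C ⊆ W := by
    rintro w ⟨hw1, hw2⟩
    rw [sub_zero] at hw1 hw2
    refine ⟨hw2, fun c hc => ?_⟩
    have := tri1 (hge c hc) (hle c hc) w
    have := hr c hc
    linarith
  have hx0 : ((7 / 8 : ℝ) : ℂ) ∈ C := by
    have : ‖(((7 / 8 : ℝ) : ℂ)) - 0‖ = 7 / 8 := by
      rw [sub_zero, Complex.norm_real, Real.norm_of_nonneg (by norm_num)]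
    exact ⟨by rw [this]; norm_num, by rw [this]; linarith⟩
  apply isPreconnected_of_forall ((7 / 8 : ℝ) : ℂ)
  intro z hz
  by_cases hz34 : 3 / 4 < ‖z‖
  · exact ⟨C, hCW, hx0, ⟨by rwa [sub_zero], by rw [sub_zero]; exact hz.1⟩, hCp⟩
  rw [not_lt] at hz34
  -- vertical segment
  have hzn : ‖z‖ ^ 2 = z.re ^ 2 + z.im ^ 2 := by
    rw [← Complex.normSq_eq_norm_sq, Complex.normSq_apply]; ring
  have hzn' : z.re ^ 2 + z.im ^ 2 ≤ 9 / 16 := by
    rw [← hzn]; nlinarith [norm_nonneg z]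
  set t : ℝ := Real.sqrt (49 / 64 - z.re ^ 2) with ht
  have ht2 : t ^ 2 = 49 / 64 - z.re ^ 2 := by
    rw [ht, Real.sq_sqrt]; nlinarith [sq_nonneg z.im]
  have ht0 : 0 ≤ t := Real.sqrt_nonneg _
  have hyt : |z.im| ≤ t := by
    apply abs_le_of_sq_le_sq _ ht0
    nlinarith
  obtain ⟨s, hs1, hs2⟩ : ∃ s : ℝ, |s| = t ∧ 0 ≤ s * z.im := by
    rcases le_total 0 z.im with h | h
    · exact ⟨t, abs_of_nonneg ht0, mul_nonneg ht0 h⟩
    · exact ⟨-t, by rw [abs_neg, abs_of_nonneg ht0], by nlinarith⟩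
  set z' : ℂ := ⟨z.re, s⟩ with hz'
  have hs22 : s ^ 2 = 49 / 64 - z.re ^ 2 := by rw [← ht2, ← hs1, sq_abs]
  have hseg : ∀ w ∈ segment ℝ z z', w.re = z.re ∧ z.im ^ 2 ≤ w.im ^ 2 ∧ w.im ^ 2 ≤ s ^ 2 := by
    rintro w ⟨a, b, ha, hb, hab, rfl⟩
    have e1 : (a • z + b • z').re = z.re := by
      simp [hz']
      rw [← add_mul, hab, one_mul]
    have e2 : (a • z + b • z').im = a * z.im + b * s := by
      simp [hz']
    have hzs : z.im ^ 2 ≤ s ^ 2 := by
      rw [hs22]; linarith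
    have hprod : z.im ^ 2 ≤ s * z.im := by
      have h3 : |z.im| * |z.im| ≤ |s| * |z.im| := by
        rw [hs1]; exact mul_le_mul_of_nonneg_right hyt (abs_nonneg _)
      rw [← abs_mul s, abs_of_nonneg hs2, abs_mul_abs_self] at h3
      nlinarith
    have hprod2 : s * z.im ≤ s ^ 2 := by
      have h3 : |s| * |z.im| ≤ |s| * |s| := by
        rw [hs1]; exact mul_le_mul_of_nonneg_left hyt ht0
      rw [← abs_mul s, abs_of_nonneg hs2, abs_mul_abs_self] at h3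
      nlinarith
    have hb' : b = 1 - a := by linarith
    refine ⟨e1, ?_, ?_⟩
    · rw [e2]
      have : (a * z.im + b * s) ^ 2 = a ^ 2 * z.im ^ 2 + 2 * a * b * (s * z.im) + b ^ 2 * s ^ 2 := by
        ring
      rw [this]
      have h1 : z.im ^ 2 = a ^ 2 * z.im ^ 2 + 2 * a * b * z.im ^ 2 + b ^ 2 * z.im ^ 2 := by
        rw [hb']; ring
      have hab0 : 0 ≤ 2 * a * b := by positivity
      have hb20 : 0 ≤ b ^ 2 := by positivity
      nlinarith [mul_le_mul_of_nonneg_left hprod hab0, mul_le_mul_of_nonneg_left hzs hb20]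
    · rw [e2]
      have : (a * z.im + b * s) ^ 2 = a ^ 2 * z.im ^ 2 + 2 * a * b * (s * z.im) + b ^ 2 * s ^ 2 := by
        ring
      rw [this]
      have h1 : s ^ 2 = a ^ 2 * s ^ 2 + 2 * a * b * s ^ 2 + b ^ 2 * s ^ 2 := by
        rw [hb']; ring
      have hab0 : 0 ≤ 2 * a * b := by positivity
      have hb20 : 0 ≤ a ^ 2 := by positivity
      nlinarith [mul_le_mul_of_nonneg_left hprod2 hab0, mul_le_mul_of_nonneg_left hzs hb20]
  have hsegW : segment ℝ z z' ⊆ W := by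
    intro w hw
    obtain ⟨e1, e2, e3⟩ := hseg w hw
    have hwn : ‖w‖ ^ 2 = w.re ^ 2 + w.im ^ 2 := by
      rw [← Complex.normSq_eq_norm_sq, Complex.normSq_apply]; ring
    have hcn : ∀ (v : ℂ) (c : ℝ), ‖v - (c : ℂ)‖ ^ 2 = (v.re - c) ^ 2 + v.im ^ 2 := by
      intro v c
      rw [← Complex.normSq_eq_norm_sq, Complex.normSq_apply]; simp; ring
    refine ⟨?_, fun c hc => ?_⟩
    · have h5 : ‖w‖ ^ 2 < 1 ^ 2 := by rw [hwn, e1, one_pow]; linarith
      have : ‖w‖ < 1 := lt_of_pow_lt_pow_left₀ 2 (by norm_num) h5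
      linarith
    · have h5 : ‖z - (c : ℂ)‖ ^ 2 ≤ ‖w - (c : ℂ)‖ ^ 2 := by
        rw [hcn, hcn, e1]; linarith
      have : ‖z - (c : ℂ)‖ ≤ ‖w - (c : ℂ)‖ :=
        le_of_pow_le_pow_left₀ (by norm_num) (norm_nonneg _) h5
      exact (hz.2 c hc).trans_le this
  have hz'C : z' ∈ C := by
    have hn : ‖z'‖ ^ 2 = 49 / 64 := by
      rw [← Complex.normSq_eq_norm_sq, Complex.normSq_apply]
      simp only [hz']
      nlinarith
    have hn' : ‖z'‖ = 7 / 8 := by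
      have h2 : (‖z'‖ - 7 / 8) * (‖z'‖ + 7 / 8) = 0 := by ring_nf; rw [hn]; norm_num
      rcases mul_eq_zero.1 h2 with h | h
      · linarith
      · linarith [norm_nonneg z']
    exact ⟨by rw [sub_zero, hn']; norm_num, by rw [sub_zero, hn']; linarith⟩
  refine ⟨C ∪ segment ℝ z z', union_subset hCW hsegW, Or.inl hx0, Or.inr (left_mem_segment ℝ z z'), ?_⟩
  exact hCp.union z' hz'C (right_mem_segment ℝ z z') (convex_segment z z').isPreconnected

lemma OmP_connected {P : Finset ℝ} {σ R ρ : ℝ} (hS : Sep P σ) (hR : 1 ≤ R)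
    (hρσ : ρ ≤ σ) : IsConnected (OmP P R ρ) := by
  have h8 := hS.le8
  refine ⟨⟨((7 / 8 : ℝ) : ℂ), ?_, fun c hc => ?_⟩, ?_⟩
  · rw [Complex.norm_real, Real.norm_of_nonneg (by norm_num)]; linarith
  · have h1 := hS.le c hc
    rw [← Complex.ofReal_sub, Complex.norm_real, Real.norm_of_nonneg (by linarith)]
    linarith
  · exact domP_preconnected (r := fun _ => ρ) hR hS.ge hS.le (fun c _ => by linarith)

/-- components of a finite disjoint union of closed connected sets -/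
lemma comps_fam {ι : Type*} [Finite ι] {C : Set (OnePoint ℂ)} {A : ι → Set (OnePoint ℂ)}
    (hC : C = ⋃ i, A i) (hcl : ∀ i, IsClosed (A i)) (hp : ∀ i, IsPreconnected (A i))
    (hne : ∀ i, (A i).Nonempty) (hd : ∀ i j, i ≠ j → Disjoint (A i) (A j)) :
    ((fun x => connectedComponentIn C x) '' C).encard = ENat.card ι := by
  have hcomp : ∀ i, ∀ x ∈ A i, connectedComponentIn C x = A i := by
    intro i x hx
    apply comp_eq (B := ⋃ j : {j // j ≠ i}, A j) _ (hcl i) (isClosed_iUnion_of_finite fun j => hcl j)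
      _ (hp i) hx
    · rw [hC]
      ext y
      constructor
      · intro hy
        obtain ⟨j, hj⟩ := mem_iUnion.1 hy
        by_cases hji : j = i
        · left; rwa [← hji]
        · right; exact mem_iUnion.2 ⟨⟨j, hji⟩, hj⟩
      · rintro (hy | hy)
        · exact mem_iUnion.2 ⟨i, hy⟩
        · obtain ⟨j, hj⟩ := mem_iUnion.1 hy
          exact mem_iUnion.2 ⟨j, hj⟩
    · rw [Set.disjoint_iUnion_right]
      intro j
      exact hd _ _ j.2.symm
  have hinj : Function.Injective A := by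
    intro i j hij
    by_contra hne'
    obtain ⟨x, hx⟩ := hne i
    exact Set.disjoint_left.1 (hd i j hne') hx (hij ▸ hx)
  have himg : (fun x => connectedComponentIn C x) '' C = range A := by
    ext S
    constructor
    · rintro ⟨x, hx, rfl⟩
      rw [hC] at hx
      obtain ⟨i, hi⟩ := mem_iUnion.1 hx
      exact ⟨i, (hcomp i x hi).symm⟩
    · rintro ⟨i, rfl⟩
      obtain ⟨x, hx⟩ := hne i
      refine ⟨x, ?_, hcomp i x hx⟩
      rw [hC]; exact mem_iUnion.2 ⟨i, hx⟩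
  rw [himg, ← image_univ, hinj.encard_image, encard_univ]

lemma OmP_comps {P : Finset ℝ} {σ R ρ : ℝ} (hS : Sep P σ) (hR : 1 ≤ R) (hρ : 0 < ρ)
    (hρσ : ρ ≤ σ) : (complComps (OmP P R ρ)).encard = (P.card + 1 : ℕ) := by
  have h8 := hS.le8
  set A : Option P → Set (OnePoint ℂ) := fun i => match i with
    | none => sphCompl (ball 0 R)
    | some c => (↑) '' (closedBall ((c : ℝ) : ℂ) ρ) with hA
  have hG : IsOpen (ball (0 : ℂ) R) := isOpen_ball
  have hU : sphCompl (OmP P R ρ) = ⋃ i, A i := by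
    ext x
    constructor
    · intro hx
      by_cases h : x ∈ ((↑) '' ball (0 : ℂ) R : Set (OnePoint ℂ))
      · obtain ⟨z, hz, rfl⟩ := h
        by_contra hcon
        apply hx
        refine ⟨z, ⟨by rwa [mem_ball_zero_iff] at hz, fun c hc => ?_⟩, rfl⟩
        by_contra hcon2
        apply hcon
        refine mem_iUnion.2 ⟨some ⟨c, hc⟩, ⟨z, ?_, rfl⟩⟩
        rw [mem_closedBall, dist_eq_norm]; exact not_lt.1 hcon2
      · exact mem_iUnion.2 ⟨none, h⟩
    · intro hx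
      obtain ⟨i, hi⟩ := mem_iUnion.1 hx
      rintro ⟨w, hw, rfl⟩
      rcases i with _ | c
      · exact hi ⟨w, by rw [mem_ball_zero_iff]; exact hw.1, rfl⟩
      · obtain ⟨z, hz, hzw⟩ := hi
        rw [OnePoint.coe_injective hzw, mem_closedBall, dist_eq_norm] at hz
        exact absurd (hw.2 c c.2) (not_lt.2 hz)
  have hin : ∀ c ∈ P, closedBall ((c : ℝ) : ℂ) ρ ⊆ ball (0 : ℂ) R := by
    intro c hc z hz
    rw [mem_closedBall, dist_eq_norm] at hz
    rw [mem_ball_zero_iff]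
    have := tri1 (hS.ge c hc) (hS.le c hc) z
    linarith
  have h1 := comps_fam hU (fun i => ?_) (fun i => ?_) (fun i => ?_) (fun i j hij => ?_)
  · show ((fun x => connectedComponentIn (sphCompl (OmP P R ρ)) x) '' sphCompl (OmP P R ρ)).encard = _
    rw [h1]
    simp
  · rcases i with _ | c
    · exact (OnePoint.isOpen_image_coe.2 hG).isClosed_compl
    · exact OnePoint.isClosed_image_coe.2 ⟨isClosed_closedBall, isCompact_closedBall _ _⟩
  · rcases i with _ | c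
    · apply sphCompl_preconnected
      intro z hz w hwi hwr
      rw [mem_ball_zero_iff, not_lt] at hz ⊢
      refine hz.trans ?_
      have h2 : ‖z‖ ^ 2 ≤ ‖w‖ ^ 2 := by
        rw [← Complex.normSq_eq_norm_sq, ← Complex.normSq_eq_norm_sq, Complex.normSq_apply,
          Complex.normSq_apply, hwi]
        nlinarith [abs_mul_abs_self z.re, abs_mul_abs_self w.re, abs_nonneg z.re, abs_nonneg w.re]
      exact le_of_pow_le_pow_left₀ (by norm_num) (norm_nonneg _) h2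
    · exact (convex_closedBall _ _).isPreconnected.image _ OnePoint.continuous_coe.continuousOn
  · rcases i with _ | c
    · refine ⟨OnePoint.infty, ?_⟩
      rintro ⟨z, -, hz⟩
      exact OnePoint.coe_ne_infty z hz
    · exact ⟨_, ⟨((c : ℝ) : ℂ), mem_closedBall_self hρ.le, rfl⟩⟩
  · rw [Set.disjoint_left]
    rcases i with _ | c <;> rcases j with _ | c'
    · exact absurd rfl hij
    · rintro x hx ⟨z, hz, rfl⟩
      exact hx ⟨z, hin c' c'.2 hz, rfl⟩
    · rintro x ⟨z, hz, rfl⟩ hx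
      exact hx ⟨z, hin c c.2 hz, rfl⟩
    · rintro x ⟨z, hz, rfl⟩ ⟨w, hw, hzw⟩
      rw [OnePoint.coe_injective hzw] at hw
      rw [mem_closedBall, dist_eq_norm] at hz hw
      have hcc : (c : ℝ) ≠ c' := by
        intro h; apply hij; rw [Subtype.ext h]
      have k1 := hS.sep c c.2 c' c'.2 hcc
      have k2 := tri2 c c' z
      have := hS.pos
      linarith

/-- the squeezing homotopy -/
noncomputable def hs (t : ℝ) (w : ℂ) : ℂ := ((1 - t + t * (1 / 13 + 9 / (13 * mm w)) : ℝ) : ℂ) * w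

lemma hs_zero (w : ℂ) : hs 0 w = w := by simp [hs]

lemma hs_one (w : ℂ) : hs 1 w = vs w := by simp [hs, vs]

lemma hs_small {w : ℂ} (h : ‖w‖ ≤ 3 / 4) (t : ℝ) : hs t w = w := by
  rw [hs, mm_small h]
  have : (1 - t + t * (1 / 13 + 9 / (13 * (3 / 4))) : ℝ) = 1 := by ring
  rw [this]; simp

lemma hs_big {w : ℂ} (h : 3 / 4 ≤ ‖w‖) {t : ℝ} (h0 : 0 ≤ t) (h1 : t ≤ 1) :
    3 / 4 ≤ ‖hs t w‖ ∧ ‖hs t w‖ ≤ ‖w‖ ∧ ‖hs t w‖ = (1 - t) * ‖w‖ + t * ((‖w‖ + 9) / 13) := by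
  have hw0 : 0 < ‖w‖ := by linarith
  have e : ‖hs t w‖ = (1 - t) * ‖w‖ + t * ((‖w‖ + 9) / 13) := by
    rw [hs, mm_big h, norm_mul, Complex.norm_real, Real.norm_of_nonneg]
    · field_simp
    · have : 0 ≤ 1 / 13 + 9 / (13 * ‖w‖) := by positivity
      have := mul_nonneg h0 this
      linarith
  refine ⟨?_, ?_, e⟩
  · rw [e]; nlinarith
  · rw [e]; nlinarith

lemma hs_cont : Continuous fun p : ℝ × ℂ => hs p.1 p.2 := by
  unfold hs
  apply Continuous.mul _ continuous_snd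
  apply Complex.continuous_ofReal.comp
  have h1 : Continuous fun p : ℝ × ℂ => 9 / (13 * mm p.2) :=
    continuous_const.div (continuous_const.mul (mm_cont.comp continuous_snd))
      fun p => mul_ne_zero (by norm_num) (mm_pos _).ne'
  fun_prop

lemma hs_maps {P : Finset ℝ} {σ R ρ : ℝ} (hS : Sep P σ) (hρσ : ρ ≤ σ) {t : ℝ}
    (h0 : 0 ≤ t) (h1 : t ≤ 1) {w : ℂ} (hw : w ∈ OmP P R ρ) : hs t w ∈ OmP P R ρ := by
  rcases le_total ‖w‖ (3 / 4) with h | h
  · rw [hs_small h]; exact hw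
  · obtain ⟨k1, k2, -⟩ := hs_big h h0 h1
    refine ⟨k2.trans_lt hw.1, fun c hc => ?_⟩
    have := tri1 (hS.ge c hc) (hS.le c hc) (hs t w)
    have := hS.le8
    linarith

lemma vsP_maps {P : Finset ℝ} {σ ρ : ℝ} (hS : Sep P σ) (hρσ : ρ ≤ σ) {w : ℂ}
    (hw : w ∈ OmP P 4 ρ) : vs w ∈ OmP P 1 ρ := by
  have h1 := hs_maps hS hρσ zero_le_one le_rfl hw
  rw [hs_one] at h1
  refine ⟨?_, h1.2⟩
  rcases le_total ‖w‖ (3 / 4) with h | h
  · rw [vs_small h]; linarith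
  · rw [norm_vs h]; linarith [hw.1]

lemma OmP_mono {P : Finset ℝ} {ρ : ℝ} : OmP P 1 ρ ⊆ OmP P 4 ρ := by
  rintro z ⟨h1, h2⟩
  exact ⟨by linarith, h2⟩

/-- the inclusion is a homotopy equivalence -/
theorem OmP_equiv {P : Finset ℝ} {σ ρ : ℝ} (hS : Sep P σ) (hρσ : ρ ≤ σ) :
    ∃ e : ContinuousMap.HomotopyEquiv (OmP P 1 ρ) (OmP P 4 ρ),
      ∀ z : OmP P 1 ρ, ((e z : OmP P 4 ρ) : ℂ) = z := by
  let i : C(OmP P 1 ρ, OmP P 4 ρ) := ⟨fun z => ⟨z, OmP_mono z.2⟩, by fun_prop⟩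
  let r : C(OmP P 4 ρ, OmP P 1 ρ) := ⟨fun z => ⟨vs z, vsP_maps hS hρσ z.2⟩, by
    apply Continuous.subtype_mk
    exact vs_cont.comp continuous_subtype_val⟩
  have hL : (ContinuousMap.id (OmP P 1 ρ)).Homotopic (r.comp i) := by
    refine ⟨⟨⟨fun p => ⟨hs p.1 p.2, hs_maps hS hρσ p.1.2.1 p.1.2.2 p.2.2⟩, ?_⟩, ?_, ?_⟩⟩
    · apply Continuous.subtype_mk
      exact hs_cont.comp (f := fun p : unitInterval × OmP P 1 ρ => (((p.1 : ℝ)), ((p.2 : ℂ))))
        (by fun_prop)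
    · intro x
      apply Subtype.ext
      show hs ((0 : unitInterval) : ℝ) x = x
      simp [hs_zero]
    · intro x
      apply Subtype.ext
      show hs ((1 : unitInterval) : ℝ) x = vs x
      simp [hs_one]
  have hR : (ContinuousMap.id (OmP P 4 ρ)).Homotopic (i.comp r) := by
    refine ⟨⟨⟨fun p => ⟨hs p.1 p.2, hs_maps hS hρσ p.1.2.1 p.1.2.2 p.2.2⟩, ?_⟩, ?_, ?_⟩⟩
    · apply Continuous.subtype_mk
      exact hs_cont.comp (f := fun p : unitInterval × OmP P 4 ρ => (((p.1 : ℝ)), ((p.2 : ℂ))))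
        (by fun_prop)
    · intro x
      apply Subtype.ext
      show hs ((0 : unitInterval) : ℝ) x = x
      simp [hs_zero]
    · intro x
      apply Subtype.ext
      show hs ((1 : unitInterval) : ℝ) x = vs x
      simp [hs_one]
  exact ⟨⟨i, r, hL.symm, hR.symm⟩, fun z => rfl⟩

end Pool.Agent.H366R3.ED
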