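import Mathlib
import Pool.Agent.H366R3.Energy2

set_option autoImplicit false

open Set Filter Topology Metric

namespace Pool.Agent.H366R3.ED

open Pool.Agent.H366R3

/-- a circle around a point of the complement is not mapped into a convex subset -/
lemma no_fill {Ω Ω' V : Set ℂ} {h g : ℂ → ℂ} {c : ℂ} {δ : ℝ} (hδ : 0 < δ) (hc : c ∉ Ω)
    (hh : ContinuousOn h Ω) (hg : ContinuousOn g Ω') (hgh : ∀ z ∈ Ω, g (h z) = z)
    (hmaps : MapsTo g Ω' Ω) (hS : sphere c δ ⊆ Ω) (hV : Convex ℝ V) (hVΩ : V ⊆ Ω')
    (hSV : MapsTo h (sphere c δ) V) : False := by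
  -- parametrisation of the circle
  set q : ℂ → ℂ := fun u => c + (δ : ℂ) * (u / (‖u‖ : ℂ)) with hq
  have hqS : ∀ u, u ≠ 0 → q u ∈ sphere c δ := by
    intro u hu
    have hn : (‖u‖ : ℝ) ≠ 0 := norm_ne_zero_iff.2 hu
    rw [mem_sphere, dist_eq_norm, hq]
    simp only [add_sub_cancel_left]
    rw [norm_mul, norm_div, Complex.norm_real, Complex.norm_real, norm_norm, div_self hn, mul_one,
      Real.norm_of_nonneg hδ.le]
  set v0 : ℂ := h (c + δ) with hv0
  have hv0V : v0 ∈ V := by
    apply hSV
    rw [mem_sphere, dist_eq_norm, add_sub_cancel_left, Complex.norm_real, Real.norm_of_nonneg hδ.le]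
  have hhS : ContinuousOn h (sphere c δ) := hh.mono hS
  obtain ⟨B, hB⟩ := (isCompact_sphere c δ).exists_bound_of_continuousOn hhS
  set E : ℂ → ℂ := fun u => ((1 - ‖u‖ : ℝ) : ℂ) * v0 + (‖u‖ : ℂ) * h (q u) with hE
  have hEc : Continuous E := by
    rw [continuous_iff_continuousAt]
    intro u
    have h1 : ContinuousAt (fun u : ℂ => ((1 - ‖u‖ : ℝ) : ℂ) * v0) u := by
      apply Continuous.continuousAt
      fun_prop
    apply h1.add
    by_cases hu : u = 0
    · rw [hu]
      have h2 : Tendsto (fun u : ℂ => (‖u‖ : ℂ) * h (q u)) (𝓝 0) (𝓝 0) := by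
        apply squeeze_zero_norm (a := fun u => ‖u‖ * |B|)
        · intro u
          rw [norm_mul, Complex.norm_real, norm_norm]
          by_cases hu : u = 0
          · rw [hu, norm_zero, zero_mul, zero_mul]
          · gcongr
            exact (hB _ (hqS u hu)).trans (le_abs_self B)
        · have : Tendsto (fun u : ℂ => ‖u‖ * |B|) (𝓝 0) (𝓝 (‖(0:ℂ)‖ * |B|)) := by
            apply Continuous.tendsto; fun_prop
          simpa using this
      rw [ContinuousAt]
      simpa using h2
    · have hn : (‖u‖ : ℂ) ≠ 0 := by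
        exact_mod_cast (norm_ne_zero_iff.2 hu)
      have hqc : ContinuousAt q u := by
        apply ContinuousAt.add continuousAt_const
        apply ContinuousAt.mul continuousAt_const
        exact continuousAt_id.div (Complex.continuous_ofReal.comp continuous_norm).continuousAt hn
      have h3 : ContinuousAt (fun u => h (q u)) u := by
        have h4 : ContinuousWithinAt h (sphere c δ) (q u) := hhS _ (hqS u hu)
        have h5 : Tendsto q (𝓝 u) (𝓝[sphere c δ] (q u)) := by
          apply tendsto_nhdsWithin_iff.2 ⟨hqc, ?_⟩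
          filter_upwards [isOpen_ne.mem_nhds hu] with w hw
          exact hqS w hw
        exact h4.tendsto.comp h5
      exact ((Complex.continuous_ofReal.comp continuous_norm).continuousAt).mul h3
  have hEV : ∀ u ∈ closedBall (0 : ℂ) 1, E u ∈ V := by
    intro u hu
    rw [mem_closedBall_zero_iff] at hu
    by_cases hu0 : u = 0
    · rw [hE, hu0]; simpa using hv0V
    · have := hV hv0V (hSV (hqS u hu0)) (by linarith : 0 ≤ 1 - ‖u‖) (norm_nonneg u) (by ring)
      rw [hE]
      simpa [Complex.real_smul] using this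
  set G : ℂ → ℂ := fun u => g (E u) with hG
  have hGc : ContinuousOn G (closedBall 0 1) :=
    hg.comp hEc.continuousOn (fun u hu => hVΩ (hEV u hu))
  have hGΩ : ∀ u ∈ closedBall (0 : ℂ) 1, G u ∈ Ω := fun u hu => hmaps (hVΩ (hEV u hu))
  have hGne : ∀ u ∈ closedBall (0 : ℂ) 1, G u - c ≠ 0 := by
    intro u hu h0
    apply hc
    rw [← sub_eq_zero.1 h0]; exact hGΩ u hu
  -- the self map
  set T : ℂ → ℂ := fun u => -((G (clamp 0 1 u) - c) / (‖G (clamp 0 1 u) - c‖ : ℂ)) with hT
  have hcl : ∀ u, clamp (0 : ℂ) 1 u ∈ closedBall (0 : ℂ) 1 := fun u => clamp_mem one_pos u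
  have hTc : Continuous T := by
    have h1 : Continuous fun u => G (clamp 0 1 u) - c :=
      (hGc.comp_continuous (clamp_continuous one_pos) hcl).sub continuous_const
    apply Continuous.neg
    apply h1.div (Complex.continuous_ofReal.comp h1.norm)
    intro u
    have := norm_ne_zero_iff.2 (hGne _ (hcl u))
    show ((‖G (clamp 0 1 u) - c‖ : ℝ) : ℂ) ≠ 0
    exact_mod_cast this
  have hTn : ∀ u, ‖T u‖ = 1 := by
    intro u
    have := norm_ne_zero_iff.2 (hGne _ (hcl u))
    rw [hT]
    simp only
    rw [norm_neg, norm_div, Complex.norm_real, norm_norm, div_self this]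
  obtain ⟨u, hu⟩ := Pool.Agent.Helper133.Brouwer.brouwer T hTc 1 (fun x => (hTn x).le)
  have hun : ‖u‖ = 1 := by rw [← hu]; exact hTn u
  have hu0 : u ≠ 0 := by rintro rfl; rw [norm_zero] at hun; linarith
  have hclu : clamp (0 : ℂ) 1 u = u := clamp_eq one_pos (by rw [mem_closedBall_zero_iff, hun])
  have hGu : G u = c + δ * u := by
    have h1 : E u = h (q u) := by
      rw [hE]; simp [hun]
    have h2 : q u = c + δ * u := by rw [hq]; simp [hun]
    rw [hG]
    simp only
    rw [h1, hgh _ (hS (hqS u hu0)), h2]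
  have hTu : T u = -u := by
    rw [hT]
    simp only
    rw [hclu, hGu, add_sub_cancel_left, norm_mul, Complex.norm_real, hun, mul_one,
      Real.norm_of_nonneg hδ.le]
    have : (δ : ℂ) ≠ 0 := by exact_mod_cast hδ.ne'
    field_simp
  rw [hu] at hTu
  have : u = 0 := by
    have h2 : u + u = 0 := by
      nth_rewrite 1 [hTu]; ring
    have h3 : (2 : ℂ) * u = 0 := by rw [two_mul]; exact h2
    rcases mul_eq_zero.1 h3 with h | h
    · norm_num at h
    · exact h
  exact hu0 this

end Pool.Agent.H366R3.ED
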