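import Mathlib
import Pool.Agent.H366R3.ED.Polar

set_option autoImplicit false

open Set Filter Topology MeasureTheory Metric
open scoped ContDiff ENNReal NNReal ComplexConjugate Real

namespace Pool.Agent.H366R3.ED

lemma ann_area {r s : ℝ} (hr : 0 ≤ r) (hrs : r ≤ s) : ∫ z in ann r s, (1 : ℝ) = π * (s ^ 2 - r ^ 2) := by
  have hsub : ann r s ⊆ ball 0 s := fun z hz => by rw [mem_ball_zero_iff]; exact hz.2
  have hfin : volume (ann r s) ≠ ⊤ := (measure_mono hsub).trans_lt measure_ball_lt_top |>.ne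
  rw [polar_avg hr continuousOn_const (integrableOn_const hfin)]
  simp only [Real.circleAverage_const, smul_eq_mul, mul_one]
  rw [← integral_Ioc_eq_integral_Ioo, ← intervalIntegral.integral_of_le hrs,
    intervalIntegral.integral_const_mul, integral_id]
  ring

lemma deriv_circleMap_rad (θ τ : ℝ) :
    HasDerivAt (fun τ : ℝ => circleMap 0 τ θ) (Complex.exp (θ * Complex.I)) τ := by
  simp only [circleMap, zero_add]
  have := (Complex.ofRealCLM.hasDerivAt (x := τ)).mul_const (Complex.exp (θ * Complex.I))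
  simpa using this

/-- radial estimate -/
theorem radial {h : ℂ → ℂ} (hh : ContDiffOn ℝ 1 h (ann (3 / 4) 1))
    (hi : IntegrableOn (fun z => ‖fderiv ℝ h z‖ ^ 2) (ann (3 / 4) 1)) {E : ℝ}
    (hE : ∫ z in ann (3 / 4) 1, ‖fderiv ℝ h z‖ ^ 2 ≤ E) {r s lam : ℝ} (hr : 3 / 4 < r) (hrs : r < s)
    (hs : s < 1) (hlam : 0 < lam) :
    Real.circleAverage (fun z => ‖h z‖) 0 s ≤ Real.circleAverage (fun z => ‖h z‖) 0 r +
      (lam * (1 - r) + E / lam) := by
  have hr0 : 0 < r := by linarith
  have hs0 : 0 < s := by linarith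
  have hπ := Real.pi_pos
  set f : ℂ → ℝ := fun z => ‖fderiv ℝ h z‖ with hf
  have hfc : ContinuousOn f (ann (3 / 4) 1) :=
    (hh.continuousOn_fderiv_of_isOpen (ann_open _ _) le_rfl).norm
  have hmem : ∀ τ ∈ Icc r s, ∀ θ : ℝ, circleMap 0 τ θ ∈ ann (3 / 4) 1 := by
    intro τ hτ θ
    exact circleMap_mem_ann (by norm_num) ⟨by linarith [hτ.1], by linarith [hτ.2]⟩
  -- pointwise in the angle
  have hpt : ∀ θ : ℝ, ‖h (circleMap 0 s θ)‖ - ‖h (circleMap 0 r θ)‖ ≤
      ∫ τ in Ioo r s, f (circleMap 0 τ θ) := by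
    intro θ
    have hd : ∀ τ ∈ Icc r s, HasDerivAt (fun τ => h (circleMap 0 τ θ))
        (fderiv ℝ h (circleMap 0 τ θ) (Complex.exp (θ * Complex.I))) τ := by
      intro τ hτ
      have h1 : HasFDerivAt h (fderiv ℝ h (circleMap 0 τ θ)) (circleMap 0 τ θ) :=
        ((hh.differentiableOn one_ne_zero).differentiableAt
          ((ann_open _ _).mem_nhds (hmem τ hτ θ))).hasFDerivAt
      exact h1.comp_hasDerivAt τ (deriv_circleMap_rad θ τ)
    have hcd : ContinuousOn (fun τ => fderiv ℝ h (circleMap 0 τ θ) (Complex.exp (θ * Complex.I)))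
        (Icc r s) := by
      have h2 : ContinuousOn (fun τ => fderiv ℝ h (circleMap 0 τ θ)) (Icc r s) :=
        (hh.continuousOn_fderiv_of_isOpen (ann_open _ _) le_rfl).comp
          (by simp only [circleMap]; fun_prop) (fun τ hτ => hmem τ hτ θ)
      exact h2.clm_apply continuousOn_const
    have hft : ∫ τ in r..s, fderiv ℝ h (circleMap 0 τ θ) (Complex.exp (θ * Complex.I)) =
        h (circleMap 0 s θ) - h (circleMap 0 r θ) := by
      apply intervalIntegral.integral_eq_sub_of_hasDerivAt
      · intro τ hτ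
        rw [uIcc_of_le hrs.le] at hτ
        exact hd τ hτ
      · apply ContinuousOn.intervalIntegrable
        rwa [uIcc_of_le hrs.le]
    have hfcθ : ContinuousOn (fun τ => f (circleMap 0 τ θ)) (Icc r s) :=
      hfc.comp (by simp only [circleMap]; fun_prop) (fun τ hτ => hmem τ hτ θ)
    calc ‖h (circleMap 0 s θ)‖ - ‖h (circleMap 0 r θ)‖
        ≤ ‖h (circleMap 0 s θ) - h (circleMap 0 r θ)‖ := norm_sub_norm_le _ _
      _ = ‖∫ τ in r..s, fderiv ℝ h (circleMap 0 τ θ) (Complex.exp (θ * Complex.I))‖ := by rw [hft]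
      _ ≤ ∫ τ in r..s, ‖fderiv ℝ h (circleMap 0 τ θ) (Complex.exp (θ * Complex.I))‖ :=
          intervalIntegral.norm_integral_le_integral_norm hrs.le
      _ ≤ ∫ τ in r..s, f (circleMap 0 τ θ) := by
          apply intervalIntegral.integral_mono_on hrs.le
          · apply ContinuousOn.intervalIntegrable
            rw [uIcc_of_le hrs.le]; exact hcd.norm
          · apply ContinuousOn.intervalIntegrable
            rwa [uIcc_of_le hrs.le]
          · intro τ _
            have := (fderiv ℝ h (circleMap 0 τ θ)).le_opNorm (Complex.exp (θ * Complex.I))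
            rwa [Complex.norm_exp_ofReal_mul_I, mul_one] at this
      _ = ∫ τ in Ioo r s, f (circleMap 0 τ θ) := by
          rw [intervalIntegral.integral_of_le hrs.le, integral_Ioc_eq_integral_Ioo]
  -- integrability on the product
  have hprod : IntegrableOn (fun p : ℝ × ℝ => f (circleMap 0 p.1 p.2)) (Ioo r s ×ˢ Ioo (-π) π)
      (volume.prod volume) := by
    have h1 : ContinuousOn (fun p : ℝ × ℝ => f (circleMap 0 p.1 p.2)) (Icc r s ×ˢ Icc (-π) π) :=
      hfc.comp circleMap_cont.continuousOn (fun p hp => hmem p.1 hp.1 p.2)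
    exact (h1.integrableOn_compact (μ := volume) (isCompact_Icc.prod isCompact_Icc)).mono_set
      (prod_mono Ioo_subset_Icc_self Ioo_subset_Icc_self)
  rw [IntegrableOn, ← Measure.prod_restrict] at hprod
  have hswap : ∫ θ in Ioo (-π) π, ∫ τ in Ioo r s, f (circleMap 0 τ θ) =
      ∫ τ in Ioo r s, (2 * π) * Real.circleAverage f 0 τ := by
    rw [← integral_integral_swap (f := fun τ θ => f (circleMap 0 τ θ)) hprod]
    congr 1
    funext τ
    rw [avg_eq, smul_eq_mul]
  have hsubA : ann r s ⊆ ann (3 / 4) 1 := fun z hz => ⟨hr.trans hz.1, hz.2.trans hs⟩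
  have hfA : IntegrableOn f (ann r s) := by
    have hcomp : IsCompact (closedBall (0 : ℂ) s \ ball 0 r) :=
      (isCompact_closedBall _ _).diff isOpen_ball
    have hsub1 : closedBall (0 : ℂ) s \ ball 0 r ⊆ ann (3 / 4) 1 := by
      rintro z ⟨h1, h2⟩
      rw [mem_closedBall_zero_iff] at h1
      rw [mem_ball_zero_iff, not_lt] at h2
      exact ⟨by linarith, by linarith⟩
    apply ((hfc.mono hsub1).integrableOn_compact hcomp).mono_set
    rintro z ⟨h1, h2⟩
    exact ⟨by rw [mem_closedBall_zero_iff]; exact h2.le,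
      by rw [mem_ball_zero_iff, not_lt]; exact h1.le⟩
  have hpol := polar_avg hr0.le (hfc.mono hsubA) hfA
  -- the average is integrable
  have havgc : ContinuousOn (fun τ => Real.circleAverage f 0 τ) (Icc r s) := by
    have h1 : ∀ τ, Real.circleAverage f 0 τ = (2 * π)⁻¹ * ∫ θ in Ioo (-π) π, f (circleMap 0 τ θ) := by
      intro τ
      rw [avg_eq, smul_eq_mul]; field_simp
    simp_rw [h1]
    apply continuousOn_const.mul
    obtain ⟨B, hB⟩ := ((isCompact_Icc (a := r) (b := s)).prod (isCompact_Icc (a := -π) (b := π))).exists_bound_of_continuousOn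
      (f := fun p : ℝ × ℝ => f (circleMap 0 p.1 p.2))
      (hfc.comp circleMap_cont.continuousOn (fun p hp => hmem p.1 hp.1 p.2))
    apply continuousOn_of_dominated (bound := fun _ => B)
    · intro τ hτ
      apply ContinuousOn.aestronglyMeasurable _ measurableSet_Ioo
      exact hfc.comp (continuous_circleMap 0 τ).continuousOn (fun θ _ => hmem τ hτ θ)
    · intro τ hτ
      rw [ae_restrict_iff' measurableSet_Ioo]
      exact Eventually.of_forall fun θ hθ => hB (τ, θ) ⟨hτ, Ioo_subset_Icc_self hθ⟩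
    · exact integrableOn_const (by simp)
    · refine Eventually.of_forall fun θ => ?_
      exact hfc.comp (by simp only [circleMap]; fun_prop) (fun τ hτ => hmem τ hτ θ)
  have hI1 : IntegrableOn (fun τ => (2 * π) * Real.circleAverage f 0 τ) (Ioo r s) :=
    ((continuousOn_const.mul havgc).integrableOn_compact isCompact_Icc).mono_set Ioo_subset_Icc_self
  have hI2 : IntegrableOn (fun τ => (2 * π * τ) • Real.circleAverage f 0 τ) (Ioo r s) :=
    (((continuous_const.mul continuous_id).continuousOn.smul havgc).integrableOn_compact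
      isCompact_Icc).mono_set Ioo_subset_Icc_self
  have hcmp : ∫ τ in Ioo r s, (2 * π) * Real.circleAverage f 0 τ ≤ (4 / 3) * ∫ z in ann r s, f z := by
    rw [hpol, ← integral_const_mul]
    apply setIntegral_mono_on hI1 (hI2.const_mul _) measurableSet_Ioo
    intro τ hτ
    have h0 : 0 ≤ Real.circleAverage f 0 τ :=
      Real.circleAverage_nonneg_of_nonneg fun z _ => norm_nonneg _
    rw [smul_eq_mul]
    have h1 : 3 / 4 < τ := hr.trans hτ.1
    have h2 : 0 ≤ 2 * π * Real.circleAverage f 0 τ := by positivity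
    nlinarith
  -- arithmetic-geometric mean
  have hag : ∫ z in ann r s, f z ≤ lam / 2 * (π * (s ^ 2 - r ^ 2)) + E / (2 * lam) := by
    have hi' : IntegrableOn (fun z => f z ^ 2) (ann r s) := hi.mono_set hsubA
    have hc1 : IntegrableOn (fun _ : ℂ => lam / 2 * (1 : ℝ)) (ann r s) := by
      have hsub : ann r s ⊆ ball 0 s := fun z hz => by rw [mem_ball_zero_iff]; exact hz.2
      exact integrableOn_const ((measure_mono hsub).trans_lt measure_ball_lt_top).ne
        enorm_ne_top
    have h1 : ∫ z in ann r s, f z ≤ ∫ z in ann r s, (lam / 2 * (1 : ℝ) + 1 / (2 * lam) * f z ^ 2) := by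
      apply setIntegral_mono_on hfA (hc1.add (hi'.const_mul _)) (ann_open _ _).measurableSet
      intro z _
      have h2 : lam / 2 * (1 : ℝ) + 1 / (2 * lam) * f z ^ 2 - f z = (lam - f z) ^ 2 / (2 * lam) := by
        field_simp
        ring
      have h3 : 0 ≤ (lam - f z) ^ 2 / (2 * lam) := by positivity
      show f z ≤ lam / 2 * (1 : ℝ) + 1 / (2 * lam) * f z ^ 2
      linarith
    have h4 : ∫ z in ann r s, f z ^ 2 ≤ E :=
      (setIntegral_mono_set hi (Eventually.of_forall fun z => by positivity)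
        hsubA.eventuallyLE).trans hE
    rw [integral_add hc1 (hi'.const_mul _), integral_const_mul, integral_const_mul,
      ann_area hr0.le hrs.le] at h1
    have h5 : 1 / (2 * lam) * ∫ z in ann r s, f z ^ 2 ≤ 1 / (2 * lam) * E := by gcongr
    have h6 : 1 / (2 * lam) * E = E / (2 * lam) := by ring
    linarith
  -- averages of the norm
  have hhc : ContinuousOn (fun z => ‖h z‖) (ann (3 / 4) 1) := hh.continuousOn.norm
  have hav : ∀ τ ∈ Icc r s, (2 * π) * Real.circleAverage (fun z => ‖h z‖) 0 τ =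
      ∫ θ in Ioo (-π) π, ‖h (circleMap 0 τ θ)‖ := by
    intro τ _
    rw [avg_eq (fun z => ‖h z‖) τ, smul_eq_mul]
  have hint : ∀ τ ∈ Icc r s, IntegrableOn (fun θ => ‖h (circleMap 0 τ θ)‖) (Ioo (-π) π) := by
    intro τ hτ
    have h1 : ContinuousOn (fun θ => ‖h (circleMap 0 τ θ)‖) (Icc (-π) π) :=
      hhc.comp (continuous_circleMap 0 τ).continuousOn (fun θ _ => hmem τ hτ θ)
    exact (h1.integrableOn_compact isCompact_Icc).mono_set Ioo_subset_Icc_self
  have hdiff : (2 * π) * Real.circleAverage (fun z => ‖h z‖) 0 s -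
      (2 * π) * Real.circleAverage (fun z => ‖h z‖) 0 r ≤
      ∫ θ in Ioo (-π) π, ∫ τ in Ioo r s, f (circleMap 0 τ θ) := by
    rw [hav s (right_mem_Icc.2 hrs.le), hav r (left_mem_Icc.2 hrs.le),
      ← integral_sub (hint s (right_mem_Icc.2 hrs.le)) (hint r (left_mem_Icc.2 hrs.le))]
    apply setIntegral_mono_on ((hint s (right_mem_Icc.2 hrs.le)).sub
      (hint r (left_mem_Icc.2 hrs.le))) hprod.integral_prod_right measurableSet_Ioo
    intro θ _
    exact hpt θ
  rw [hswap] at hdiff
  have h7 : s ^ 2 - r ^ 2 ≤ 2 * (1 - r) := by nlinarith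
  have hE0 : 0 ≤ E := (setIntegral_nonneg (ann_open _ _).measurableSet
    fun z _ => by positivity).trans hE
  have h8 : lam / 2 * (π * (s ^ 2 - r ^ 2)) ≤ lam / 2 * (π * (2 * (1 - r))) := by gcongr
  have h9 : (2 * π) * (Real.circleAverage (fun z => ‖h z‖) 0 s -
      Real.circleAverage (fun z => ‖h z‖) 0 r) ≤ (2 * π) * (lam * (1 - r) + E / lam) := by
    have h10 : E / (2 * lam) = (E / lam) / 2 := by field_simp
    have h11 : 0 ≤ E / lam := by positivity
    have h12 : 0 ≤ lam * (1 - r) := mul_nonneg hlam.le (by linarith)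
    have h13 : 3 < π := Real.pi_gt_three
    rw [h10] at hag
    nlinarith [mul_nonneg hπ.le h12, mul_nonneg (by linarith : 0 ≤ π - 3) h11]
  have := le_of_mul_le_mul_left h9 (by positivity : 0 < 2 * π)
  linarith

end Pool.Agent.H366R3.ED
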