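import Mathlib
import Pool.Agent.H366R3.ED.Ext
import Pool.Agent.H366R3.ED.NoFill
import Pool.Agent.H366R3.ED.Radial
import Pool.Agent.H366R3.ED.Coef

set_option autoImplicit false

open Set Filter Topology MeasureTheory Metric
open scoped ContDiff ENNReal NNReal ComplexConjugate Real

namespace Pool.Agent.H366R3.ED

/-- a sequence of homeomorphisms of bounded energy converging to a holomorphic map -/
structure Data (l : Ultrafilter ℕ) (ρ : ℕ → ℝ) (h g : ℕ → ℂ → ℂ) (k : ℂ → ℂ) : Prop where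
  ρ0 : ∀ n, 0 < ρ n
  ρ8 : ∀ n, ρ n ≤ 1 / 8
  ρt : Tendsto ρ l (𝓝 0)
  H : ∀ n, IsH (Om 1 (ρ n)) (Om 4 (ρ n)) (h n) (g n)
  C1 : ∀ n, ContDiffOn ℝ 1 (h n) (Om 1 (ρ n))
  mem : ∀ n, IntegrableOn (fun z => ‖fderiv ℝ (h n) z‖ ^ 2) (Om 1 (ρ n))
  en : ∀ n, ∫ z in Om 1 (ρ n), ‖fderiv ℝ (h n) z‖ ^ 2 ≤ 1600 * π
  cc : CC l (Om 1 0) h k
  hol : DifferentiableOn ℂ k (Om 1 0)
  area : ∀ K, IsCompact K → K ⊆ Om 1 0 → ∫ z in K, ‖deriv k z‖ ^ 2 ≤ 16 * π

variable {l : Ultrafilter ℕ} {ρ : ℕ → ℝ} {h g : ℕ → ℂ → ℂ} {k : ℂ → ℂ}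

lemma Om_sub_Om {R ρ : ℝ} (h : 0 ≤ ρ) : Om R ρ ⊆ Om R 0 := by
  intro z hz
  obtain ⟨h1, h2, h3⟩ := mem_Om.1 hz
  exact mem_Om.2 ⟨h1, by linarith, by linarith⟩

lemma Data.bdd (D : Data l ρ h g k) : ∀ z ∈ Om 1 0, ‖k z‖ ≤ 4 := by
  intro z hz
  have h1 := (D.cc.pt hz).norm
  obtain ⟨k1, k2, k3⟩ := mem_Om.1 hz
  apply le_of_tendsto h1
  filter_upwards [D.ρt.eventually (gt_mem_nhds k2), D.ρt.eventually (gt_mem_nhds k3)] with n h2 h3
  exact (mem_Om.1 ((D.H n).hm (mem_Om.2 ⟨k1, h2, h3⟩))).1.le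

lemma cen_cases (i : Fin 2) : cen i = 0 ∨ cen i = 1 / 2 := by
  fin_cases i <;> simp [cen]

lemma cen_mem (i : Fin 2) : cen i ∈ ball (0 : ℂ) 1 := by
  rcases cen_cases i with h | h <;> rw [h, mem_ball_zero_iff] <;> norm_num

/-- the extension of the limit -/
lemma Data.ext (D : Data l ρ h g k) : ∃ K : ℂ → ℂ, DifferentiableOn ℂ K (ball 0 1) ∧
    EqOn K k (Om 1 0) ∧ ∀ z ∈ ball (0 : ℂ) 1, ‖K z‖ ≤ 4 := by
  obtain ⟨K, hK, hKe⟩ := ext_two D.hol (bdd_dec D.bdd)
  refine ⟨K, hK, hKe, ?_⟩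
  intro z hz
  by_cases hzO : z ∈ Om 1 0
  · rw [hKe hzO]; exact D.bdd z hzO
  · have hc : z = 0 ∨ z = 1 / 2 := by
      by_contra hcon
      push Not at hcon
      apply hzO
      rw [mem_ball_zero_iff] at hz
      exact mem_Om.2 ⟨hz, norm_pos_iff.2 hcon.1, norm_pos_iff.2 (sub_ne_zero.2 hcon.2)⟩
    have h1 : Tendsto (fun w => ‖K w‖) (𝓝[≠] z) (𝓝 ‖K z‖) :=
      ((hK.differentiableAt (isOpen_ball.mem_nhds hz)).continuousAt.norm.tendsto).mono_left
        nhdsWithin_le_nhds
    apply le_of_tendsto h1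
    have h2 : ball z (1 / 8) ∈ 𝓝 z := ball_mem_nhds z (by norm_num)
    filter_upwards [self_mem_nhdsWithin, mem_nhdsWithin_of_mem_nhds h2] with w hw hwb
    rw [mem_ball, dist_eq_norm] at hwb
    have h3 := near_punct hc hw hwb
    rw [hKe h3]; exact D.bdd w h3

/-- values of the limit at the punctures -/
lemma Data.val (D : Data l ρ h g k) {K : ℂ → ℂ} (hK : DifferentiableOn ℂ K (ball 0 1))
    (hKe : EqOn K k (Om 1 0)) (i : Fin 2) : K (cen i) = 0 ∨ K (cen i) = 1 / 2 := by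
  by_contra hcon
  push Not at hcon
  set c := cen i with hc
  set b := K c with hb
  have hcb : c ∈ ball (0 : ℂ) 1 := cen_mem i
  have hb0 : 0 < ‖b‖ := norm_pos_iff.2 hcon.1
  have hb1 : 0 < ‖b - 1 / 2‖ := norm_pos_iff.2 (sub_ne_zero.2 hcon.2)
  set η : ℝ := min ‖b‖ ‖b - 1 / 2‖ / 2 with hη
  have hηp : 0 < η := by positivity
  have hη0 : 2 * η ≤ ‖b‖ := by rw [hη]; linarith [min_le_left ‖b‖ ‖b - 1 / 2‖]
  have hη1 : 2 * η ≤ ‖b - 1 / 2‖ := by rw [hη]; linarith [min_le_right ‖b‖ ‖b - 1 / 2‖]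
  have hKc : ContinuousAt K c := (hK.differentiableAt (isOpen_ball.mem_nhds hcb)).continuousAt
  obtain ⟨δ, hδ, hδK⟩ := Metric.continuousAt_iff.1 hKc (η / 2) (by positivity)
  set δ' : ℝ := min (δ / 2) (1 / 16) with hδ'
  have hδ'p : 0 < δ' := by positivity
  have hδ'1 : δ' ≤ 1 / 16 := min_le_right _ _
  have hδ'2 : δ' < δ := lt_of_le_of_lt (min_le_left _ _) (by linarith)
  have hS : sphere c δ' ⊆ Om 1 0 := by
    intro z hz
    rw [mem_sphere, dist_eq_norm] at hz
    apply near_punct (cen_cases i)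
    · intro h; rw [h, ← hc, sub_self, norm_zero] at hz; linarith
    · rw [← hc, hz]; linarith
  have hu := D.cc.unif (Om_open 1 0) D.hol.continuousOn (isCompact_sphere c δ') hS
    (ε := η / 2) (by positivity)
  obtain ⟨n, hn1, hn2, hn3⟩ := (hu.and ((D.ρt.eventually (gt_mem_nhds hδ'p)).and
    (D.ρt.eventually (gt_mem_nhds hηp)))).exists
  have HH := D.H n
  refine no_fill (Ω := Om 1 (ρ n)) (Ω' := Om 4 (ρ n)) (V := ball b η ∩ ball 0 4) (c := c) hδ'p ?_
    HH.hc HH.gc HH.gh HH.gm ?_ ((convex_ball b η).inter (convex_ball 0 4)) ?_ ?_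
  · intro hcO
    obtain ⟨-, h1, h2⟩ := mem_Om.1 hcO
    have := D.ρ0 n
    rcases cen_cases i with h | h
    · rw [hc, h, norm_zero] at h1; linarith
    · rw [hc, h, sub_self, norm_zero] at h2; linarith
  · intro z hz
    rw [mem_sphere, dist_eq_norm] at hz
    have k1 := half_tri z
    have k2 := half_tri2 z
    have hρ := D.ρ8 n
    rcases cen_cases i with h | h
    · rw [hc, h, sub_zero] at hz
      exact mem_Om.2 ⟨by linarith, by linarith, by linarith⟩
    · rw [hc, h] at hz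
      exact mem_Om.2 ⟨by linarith, by linarith, by linarith⟩
  · rintro w ⟨hw1, hw2⟩
    rw [mem_ball, dist_eq_norm] at hw1
    rw [mem_ball_zero_iff] at hw2
    refine mem_Om.2 ⟨hw2, ?_, ?_⟩
    · have := norm_sub_norm_le b w
      rw [norm_sub_rev b w] at this
      linarith
    · have := norm_sub_norm_le (b - 1 / 2) (w - 1 / 2)
      have e : b - 1 / 2 - (w - 1 / 2) = b - w := by ring
      rw [e, norm_sub_rev b w] at this
      linarith
  · intro z hz
    have hzO := hS hz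
    have hz2 : dist z c < δ := by rw [mem_sphere] at hz; rw [hz]; exact hδ'2
    have h1 := hn1 z hz
    have h2 := hδK hz2
    rw [← hKe hzO] at h1
    have h3 := dist_triangle (h n z) (K z) b
    refine ⟨?_, ?_⟩
    · rw [mem_ball]; rw [← hb] at h2; linarith
    · rw [mem_ball_zero_iff]
      have k1 := half_tri z
      have k2 := half_tri2 z
      have hρ := D.ρ8 n
      rw [mem_sphere, dist_eq_norm] at hz
      have hzn : z ∈ Om 1 (ρ n) := by
        rcases cen_cases i with h | h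
        · rw [hc, h, sub_zero] at hz
          exact mem_Om.2 ⟨by linarith, by linarith, by linarith⟩
        · rw [hc, h] at hz
          exact mem_Om.2 ⟨by linarith, by linarith, by linarith⟩
      exact (mem_Om.1 (HH.hm hzn)).1

/-- the outer end -/
lemma Data.outer (D : Data l ρ h g k) {K : ℂ → ℂ} (hK : DifferentiableOn ℂ K (ball 0 1))
    (hKe : EqOn K k (Om 1 0)) : ∀ᶠ n in (l : Filter ℕ), ∀ ε' : ℝ, 0 < ε' → ε' ≤ 1 / 8 →
      ∃ ε : ℝ, 0 < ε ∧ ε ≤ 1 / 8 ∧ MapsTo (h n) (col 1 (ρ n) ε 2) (col 4 (ρ n) ε' 2) := by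
  have key : ∀ i : Fin 2, ∀ᶠ n in (l : Filter ℕ), ∃ δ : ℝ, ρ n < δ ∧ δ ≤ 1 / 8 ∧ ∃ a : Fin 2,
      MapsTo (h n) (sphere (cen i) δ) (closedBall (cen a) (1 / 8)) := by
    intro i
    set c := cen i with hc
    have hcb : c ∈ ball (0 : ℂ) 1 := cen_mem i
    obtain ⟨a, ha⟩ : ∃ a : Fin 2, K c = cen a := by
      rcases D.val hK hKe i with h | h
      · exact ⟨0, by rw [h]; simp [cen]⟩
      · exact ⟨1, by rw [h]; simp [cen]⟩
    have hKc : ContinuousAt K c := (hK.differentiableAt (isOpen_ball.mem_nhds hcb)).continuousAt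
    obtain ⟨δ, hδ, hδK⟩ := Metric.continuousAt_iff.1 hKc (1 / 16) (by norm_num)
    set δ' : ℝ := min (δ / 2) (1 / 16) with hδ'
    have hδ'p : 0 < δ' := by positivity
    have hδ'1 : δ' ≤ 1 / 16 := min_le_right _ _
    have hδ'2 : δ' < δ := lt_of_le_of_lt (min_le_left _ _) (by linarith)
    have hS : sphere c δ' ⊆ Om 1 0 := by
      intro z hz
      rw [mem_sphere, dist_eq_norm] at hz
      apply near_punct (cen_cases i)
      · intro h; rw [h, ← hc, sub_self, norm_zero] at hz; linarith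
      · rw [← hc, hz]; linarith
    have hu := D.cc.unif (Om_open 1 0) D.hol.continuousOn (isCompact_sphere c δ') hS
      (ε := 1 / 16) (by norm_num)
    filter_upwards [hu, D.ρt.eventually (gt_mem_nhds hδ'p)] with n hn1 hn2
    refine ⟨δ', hn2, by linarith, a, ?_⟩
    intro z hz
    have hzO := hS hz
    have hz2 : dist z c < δ := by rw [mem_sphere] at hz; rw [hz]; exact hδ'2
    have h1 := hn1 z hz
    have h2 := hδK hz2
    rw [← hKe hzO] at h1
    rw [ha] at h2
    have h3 := dist_triangle (h n z) (K z) (cen a)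
    rw [mem_closedBall]; linarith
  filter_upwards [key 0, key 1] with n h0 h1 ε' hε' hε8
  apply outer_end (D.ρ0 n) (D.ρ8 n) (D.H n) _ hε' hε8
  intro i
  have hi : i = 0 ∨ i = 1 := by fin_cases i <;> simp
  rcases hi with rfl | rfl
  · exact h0
  · exact h1

lemma ann_sub_Om {ρ : ℝ} (hρ8 : ρ ≤ 1 / 8) : ann (3 / 4) 1 ⊆ Om 1 ρ := by
  rintro z ⟨h1, h2⟩
  have k2 := half_tri2 z
  exact mem_Om.2 ⟨h2, by linarith, by linarith⟩

/-- lower bound of the averages -/
lemma Data.avg_lower (D : Data l ρ h g k) {n : ℕ}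
    (ho : ∀ ε' : ℝ, 0 < ε' → ε' ≤ 1 / 8 →
      ∃ ε : ℝ, 0 < ε ∧ ε ≤ 1 / 8 ∧ MapsTo (h n) (col 1 (ρ n) ε 2) (col 4 (ρ n) ε' 2))
    {r lam : ℝ} (hr : 3 / 4 < r) (hr1 : r < 1) (hlam : 0 < lam) :
    4 - (lam * (1 - r) + 1600 * π / lam) ≤ Real.circleAverage (fun z => ‖h n z‖) 0 r := by
  have hsub := ann_sub_Om (D.ρ8 n)
  have hC1 : ContDiffOn ℝ 1 (h n) (ann (3 / 4) 1) := (D.C1 n).mono hsub
  have hi : IntegrableOn (fun z => ‖fderiv ℝ (h n) z‖ ^ 2) (ann (3 / 4) 1) :=
    (D.mem n).mono_set hsub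
  have hE : ∫ z in ann (3 / 4) 1, ‖fderiv ℝ (h n) z‖ ^ 2 ≤ 1600 * π :=
    (setIntegral_mono_set (D.mem n) (Eventually.of_forall fun z => by positivity)
      hsub.eventuallyLE).trans (D.en n)
  apply le_of_forall_pos_le_add
  intro ε' hε'
  obtain ⟨ε, hε, hε8, hm⟩ := ho (min ε' (1 / 8)) (by positivity) (min_le_right _ _)
  set s : ℝ := max ((r + 1) / 2) (1 - ε / 2) with hs
  have hs1 : s < 1 := max_lt (by linarith) (by linarith)
  have hrs : r < s := lt_of_lt_of_le (by linarith) (le_max_left _ _)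
  have hsε : 1 - ε < s := lt_of_lt_of_le (by linarith) (le_max_right _ _)
  have hs0 : 0 < s := by linarith
  have h1 := radial hC1 hi hE hr hrs hs1 hlam
  have h2 : 4 - ε' ≤ Real.circleAverage (fun z => ‖h n z‖) 0 s := by
    have hsph : sphere (0 : ℂ) |s| ⊆ ann (3 / 4) 1 := by
      intro z hz
      rw [mem_sphere_zero_iff_norm, abs_of_pos hs0] at hz
      exact ⟨by rw [hz]; linarith, by rw [hz]; exact hs1⟩
    have hci : CircleIntegrable (fun z => ‖h n z‖) 0 s :=
      ((hC1.continuousOn.norm).mono hsph).circleIntegrable'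
    have h3 := Real.circleAverage_mono (f₁ := fun _ => 4 - ε') (circleIntegrable_const _ _ _) hci (by
      intro z hz
      rw [mem_sphere_zero_iff_norm, abs_of_pos hs0] at hz
      have h4 : z ∈ col 1 (ρ n) ε 2 := by
        rw [col2]; exact ⟨by rw [sub_zero, hz]; exact hsε, by rw [sub_zero, hz]; exact hs1⟩
      have h5 := hm h4
      rw [col2] at h5
      have h6 := h5.1
      rw [sub_zero] at h6
      have h7 : min ε' (1 / 8) ≤ ε' := min_le_left _ _
      linarith)
    rwa [Real.circleAverage_const] at h3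
  linarith

/-- no such data exist -/
theorem Data.false (D : Data l ρ h g k) : False := by
  obtain ⟨K, hK, hKe, hKb⟩ := D.ext
  have hπ := Real.pi_pos
  set q : ℂ → ℂ := fun z => K z / 4 with hq
  have hqd : DifferentiableOn ℂ q (ball 0 1) := hK.div_const 4
  have hdq : ∀ z ∈ ball (0 : ℂ) 1, deriv q z = deriv K z / 4 := by
    intro z hz
    rw [hq]
    simp only [deriv_div_const]
  have hder : EqOn (deriv K) (deriv k) (Om 1 0) := by
    intro z hz
    apply Filter.EventuallyEq.deriv_eq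
    filter_upwards [(Om_open 1 0).mem_nhds hz] with w hw
    exact hKe hw
  have hdc : ContinuousOn (deriv k) (Om 1 0) := (D.hol.deriv (Om_open 1 0)).continuousOn
  obtain ⟨hi, hA⟩ := exhaust hdc D.area
  have hiK : IntegrableOn (fun z => ‖deriv K z‖ ^ 2) (ball (0 : ℂ) 1) := by
    rw [← integrableOn_congr_set_ae Om_ae]
    refine hi.congr_fun (fun z hz => ?_) (Om_open 1 0).measurableSet
    rw [hder hz]
  have hAK : ∫ z in ball (0 : ℂ) 1, ‖deriv K z‖ ^ 2 ≤ 16 * π := by
    rw [← setIntegral_congr_set Om_ae]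
    refine (le_of_eq ?_).trans hA
    apply setIntegral_congr_fun (Om_open 1 0).measurableSet
    intro z hz
    show ‖deriv K z‖ ^ 2 = ‖deriv k z‖ ^ 2
    rw [hder hz]
  have hdKc : ContinuousOn (deriv K) (ball 0 1) := (hK.deriv isOpen_ball).continuousOn
  have hqq : ∀ z ∈ ball (0 : ℂ) 1, ‖deriv q z‖ ^ 2 = (1 / 16) * ‖deriv K z‖ ^ 2 := by
    intro z hz
    rw [hdq z hz, norm_div, div_pow]
    norm_num
    ring
  apply no_such hqd
  · have := D.val hK hKe 0
    rw [hq]; simp only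
    have hc0 : cen 0 = 0 := by simp [cen]
    rw [hc0] at this
    rw [norm_div]
    rcases this with h | h <;> rw [h] <;> norm_num
  · have := D.val hK hKe 1
    rw [hq]; simp only
    have hc0 : cen 1 = 1 / 2 := by simp [cen]
    rw [hc0] at this
    rw [norm_div]
    rcases this with h | h <;> rw [h] <;> norm_num
  · rw [memLp_two_iff_integrable_sq_norm
      ((hqd.deriv isOpen_ball).continuousOn.aestronglyMeasurable measurableSet_ball)]
    refine IntegrableOn.congr_fun (hiK.const_mul (1 / 16)) (fun z hz => ?_) measurableSet_ball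
    exact (hqq z hz).symm
  · rw [setIntegral_congr_fun measurableSet_ball hqq, integral_const_mul]
    linarith
  · intro ε hε
    set lam : ℝ := 1600 * π / ε with hlam
    have hlamp : 0 < lam := by positivity
    set r : ℝ := max (7 / 8) (1 - ε / (lam + ε)) with hr
    have hεl : 0 < ε / (lam + ε) := by positivity
    have hr1 : r < 1 := max_lt (by norm_num) (by linarith)
    have hr34 : 3 / 4 < r := lt_of_lt_of_le (by norm_num) (le_max_left _ _)
    have hr0 : 0 < r := by linarith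
    refine ⟨r, hr0, hr1, ?_⟩
    have hlr : lam * (1 - r) ≤ ε := by
      have h1 : 1 - r ≤ ε / (lam + ε) := by
        have := le_max_right (7 / 8) (1 - ε / (lam + ε))
        linarith
      have h2 : lam * (1 - r) ≤ lam * (ε / (lam + ε)) := by gcongr
      have h3 : lam * (ε / (lam + ε)) ≤ ε := by
        rw [← mul_div_assoc, div_le_iff₀ (by positivity)]
        nlinarith
      linarith
    have hll : 1600 * π / lam = ε := by rw [hlam]; field_simp
    have hsphO : sphere (0 : ℂ) |r| ⊆ Om 1 0 := by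
      intro z hz
      rw [mem_sphere_zero_iff_norm, abs_of_pos hr0] at hz
      exact ann_sub_Om (by norm_num) ⟨by rw [hz]; exact hr34, by rw [hz]; exact hr1⟩
    -- pass to the limit
    have hlow : 4 - 2 * ε ≤ Real.circleAverage (fun z => ‖k z‖) 0 r := by
      have hcc : CC l (Om 1 0) (fun n z => ((‖h n z‖ : ℝ) : ℂ)) (fun z => ((‖k z‖ : ℝ) : ℂ)) :=
        D.cc.comp (φ := fun w => ((‖w‖ : ℝ) : ℂ)) (Complex.continuous_ofReal.comp continuous_norm)
      have hkc : ContinuousOn (fun z => ((‖k z‖ : ℝ) : ℂ)) (Om 1 0) :=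
        Complex.continuous_ofReal.comp_continuousOn D.hol.continuousOn.norm
      have hsphn : ∀ n, sphere (0 : ℂ) |r| ⊆ Om 1 (ρ n) := by
        intro n z hz
        rw [mem_sphere_zero_iff_norm, abs_of_pos hr0] at hz
        exact ann_sub_Om (D.ρ8 n) ⟨by rw [hz]; exact hr34, by rw [hz]; exact hr1⟩
      have h1 := hcc.avg (Om_open 1 0) hkc hsphO (Eventually.of_forall fun n =>
        Complex.continuous_ofReal.comp_continuousOn
          (((D.C1 n).continuousOn.mono (hsphn n)).norm))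
      have h2 : ∀ f : ℂ → ℝ, Real.circleAverage (fun z => ((f z : ℝ) : ℂ)) 0 r =
          ((Real.circleAverage f 0 r : ℝ) : ℂ) := by
        intro f
        rw [Real.circleAverage_def, Real.circleAverage_def, intervalIntegral.integral_ofReal]
        simp
      simp_rw [h2] at h1
      have h3 := (Complex.continuous_re.tendsto _).comp h1
      simp only [Function.comp_def, Complex.ofReal_re] at h3
      apply ge_of_tendsto h3
      filter_upwards [D.outer hK hKe] with n hn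
      have h4 := D.avg_lower hn hr34 hr1 hlamp
      rw [hll] at h4
      linarith
    have hsphb : sphere (0 : ℂ) |r| ⊆ ball 0 1 := by
      intro z hz
      rw [mem_sphere_zero_iff_norm, abs_of_pos hr0] at hz
      rw [mem_ball_zero_iff, hz]; exact hr1
    have hKk : Real.circleAverage (fun z => ‖K z‖) 0 r = Real.circleAverage (fun z => ‖k z‖) 0 r := by
      apply Real.circleAverage_congr_sphere
      intro z hz
      show ‖K z‖ = ‖k z‖
      rw [hKe (hsphO hz)]
    have hci1 : CircleIntegrable (fun z => ‖K z‖) 0 r :=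
      ((hK.continuousOn.mono hsphb).norm).circleIntegrable'
    have hci2 : CircleIntegrable (fun z => ‖q z‖ ^ 2) 0 r :=
      (((hqd.continuousOn.mono hsphb).norm).pow 2).circleIntegrable'
    have hci3 : CircleIntegrable (fun z => (1 / 2 : ℝ) • ‖K z‖) 0 r := hci1.const_smul
    have h5 := Real.circleAverage_mono (f₁ := fun z => (1 / 2 : ℝ) • ‖K z‖ - 1)
      (hci3.sub (circleIntegrable_const (1 : ℝ) _ _)) hci2 (by
        intro z _
        show (1 / 2 : ℝ) • ‖K z‖ - 1 ≤ ‖K z / 4‖ ^ 2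
        rw [norm_div, smul_eq_mul]
        have : ‖(4 : ℂ)‖ = 4 := by norm_num
        rw [this]
        nlinarith [sq_nonneg (‖K z‖ / 4 - 1)])
    rw [Real.circleAverage_fun_sub hci3 (circleIntegrable_const (1 : ℝ) _ _),
      Real.circleAverage_fun_smul, Real.circleAverage_const, smul_eq_mul] at h5
    rw [← hKk] at hlow
    have h6 : Real.circleAverage (fun z => ‖K z‖) 0 r = Real.circleAverage (fun z => ‖K z‖) 0 r := rfl
    linarith

end Pool.Agent.H366R3.ED
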