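import Mathlib
import Pool.Agent.H366R3.ED.Outer

set_option autoImplicit false

open Set Filter Topology MeasureTheory Metric
open scoped ContDiff ENNReal NNReal ComplexConjugate

namespace Pool.Agent.H366R3.ED

/-- the complex derivative in `z` -/
noncomputable def dz (h : ℂ → ℂ) (z : ℂ) : ℂ :=
  (fderiv ℝ h z 1 - Complex.I * fderiv ℝ h z Complex.I) / 2

/-- the complex derivative in `z bar` -/
noncomputable def dzb (h : ℂ → ℂ) (z : ℂ) : ℂ :=
  (fderiv ℝ h z 1 + Complex.I * fderiv ℝ h z Complex.I) / 2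

/-- the conjugate of the complex derivative in `z bar` -/
noncomputable def cz (h : ℂ → ℂ) (z : ℂ) : ℂ := conj (dzb h z)

lemma test_continuous {Ω : Set ℂ} (hΩ : IsOpen Ω) {A : ℂ → ℂ} (hA : ContinuousOn A Ω) {ψ : ℂ → ℝ}
    (hψ : Continuous ψ) (hψΩ : tsupport ψ ⊆ Ω) : Continuous fun z => (ψ z : ℂ) * A z := by
  apply continuous_of_tsupport
  intro z hz
  have h1 : z ∈ tsupport ψ := by
    apply closure_mono _ hz
    intro w hw h0
    apply hw
    have : ψ w = 0 := by simpa using h0
    show (ψ w : ℂ) * A w = 0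
    rw [this]; simp
  exact (Complex.continuous_ofReal.comp hψ).continuousAt.mul
    (hA.continuousAt (hΩ.mem_nhds (hψΩ h1)))

lemma test_integrable {Ω : Set ℂ} (hΩ : IsOpen Ω) {A : ℂ → ℂ} (hA : ContinuousOn A Ω) {ψ : ℂ → ℝ}
    (hψ : Continuous ψ) (hψc : HasCompactSupport ψ) (hψΩ : tsupport ψ ⊆ Ω) :
    Integrable fun z => (ψ z : ℂ) * A z := by
  apply (test_continuous hΩ hA hψ hψΩ).integrable_of_hasCompactSupport
  apply hψc.of_isClosed_subset (isClosed_tsupport _)
  apply closure_mono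
  intro w hw h0
  apply hw
  have : ψ w = 0 := by simpa using h0
  show (ψ w : ℂ) * A w = 0
  rw [this]; simp

lemma snd_symm {φ : ℂ → ℝ} (hφ : ContDiff ℝ ∞ φ) (z : ℂ) :
    fderiv ℝ (fun w => fderiv ℝ φ w Complex.I) z 1 = fderiv ℝ (fun w => fderiv ℝ φ w 1) z Complex.I := by
  have h1 : IsSymmSndFDerivAt ℝ φ z := hφ.contDiffAt.isSymmSndFDerivAt (by
    simp only [minSmoothness_of_isRCLikeNormedField]; exact WithTop.coe_le_coe.2 le_top)
  have hd : DifferentiableAt ℝ (fderiv ℝ φ) z :=
    (hφ.fderiv_right (m := 1) (by norm_cast)).differentiable one_ne_zero z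
  have h2 : ∀ v u : ℂ, fderiv ℝ (fun w => fderiv ℝ φ w v) z u = fderiv ℝ (fderiv ℝ φ) z u v := by
    intro v u
    have h3 : HasFDerivAt (fun w => fderiv ℝ φ w v)
        ((ContinuousLinearMap.apply ℝ ℝ v).comp (fderiv ℝ (fderiv ℝ φ) z)) z :=
      (ContinuousLinearMap.apply ℝ ℝ v).hasFDerivAt.comp z hd.hasFDerivAt
    rw [h3.fderiv]; rfl
  rw [h2, h2]
  exact h1 1 Complex.I

theorem hol {Ω Ω' : Set ℂ} (hΩ : IsOpen Ω) (hΩ' : IsOpen Ω') (hb : Bornology.IsBounded Ω)
    (hb' : Bornology.IsBounded Ω') {h : ℂ → ℂ} (hmin : IsEnergyMinimalDiffeo Ω Ω' h) :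
    DifferentiableOn ℂ (dz h) Ω ∧ DifferentiableOn ℂ (cz h) Ω := by
  have hh := hmin.1.1
  have hfc : ContinuousOn (fderiv ℝ h) Ω := hh.continuousOn_fderiv_of_isOpen hΩ le_rfl
  have hA : ∀ v, ContinuousOn (fun z => fderiv ℝ h z v) Ω := fun v =>
    hfc.clm_apply continuousOn_const
  -- key identities
  have key1 : ∀ φ : ℂ → ℝ, ContDiff ℝ ∞ φ → HasCompactSupport φ → tsupport φ ⊆ Ω →
      ∫ z, ((fderiv ℝ φ z 1 : ℂ) * fderiv ℝ h z 1 +
        (fderiv ℝ φ z Complex.I : ℂ) * fderiv ℝ h z Complex.I) = 0 := by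
    intro φ hφ hφc hφΩ
    have hsv : ∀ v, tsupport (fun z => fderiv ℝ φ z v) ⊆ tsupport φ := by
      intro v
      refine (closure_mono ?_).trans (tsupport_fderiv_subset ℝ (f := φ))
      intro w hw h0
      apply hw
      show fderiv ℝ φ w v = 0
      rw [h0]; rfl
    have hcv : ∀ v, Continuous fun z => fderiv ℝ φ z v := fun v =>
      (hφ.continuous_fderiv (by norm_num)).clm_apply continuous_const
    have hkv : ∀ v, HasCompactSupport fun z => fderiv ℝ φ z v := fun v =>
      hφc.of_isClosed_subset (isClosed_tsupport _) (hsv v)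
    have hint : ∀ v, Integrable fun z => ((fderiv ℝ φ z v : ℝ) : ℂ) * fderiv ℝ h z v := fun v =>
      test_integrable hΩ (hA v) (hcv v) (hkv v) ((hsv v).trans hφΩ)
    set S : ℂ → ℂ := fun z => (fderiv ℝ φ z 1 : ℂ) * fderiv ℝ h z 1 +
        (fderiv ℝ φ z Complex.I : ℂ) * fderiv ℝ h z Complex.I with hS
    have hSi : Integrable S := (hint 1).add (hint Complex.I)
    have hc : ∀ c : ℂ, (conj c * ∫ z, S z).re = 0 := by
      intro c
      set η : ℂ → ℂ := fun z => (φ z : ℂ) * c with hη
      have hη1 : ContDiff ℝ 1 η :=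
        (Complex.ofRealCLM.contDiff.comp (hφ.of_le (by norm_cast))).mul contDiff_const
      have hηs : tsupport η ⊆ tsupport φ := by
        apply closure_mono
        intro w hw h0
        apply hw
        show (φ w : ℂ) * c = 0
        have : φ w = 0 := h0
        rw [this]; simp
      have hηd : ∀ z v, fderiv ℝ η z v = (fderiv ℝ φ z v : ℂ) * c := by
        intro z v
        have h1 : HasFDerivAt φ (fderiv ℝ φ z) z := (hφ.differentiable (by norm_num) z).hasFDerivAt
        have h2 : HasFDerivAt (fun z => (φ z : ℂ)) (Complex.ofRealCLM.comp (fderiv ℝ φ z)) z :=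
          Complex.ofRealCLM.hasFDerivAt.comp z h1
        have h3 := h2.mul_const c
        rw [h3.fderiv]
        simp [mul_comm]
      have h0 := outer hΩ hΩ' hb hb' hmin hη1 (hφc.of_isClosed_subset (isClosed_tsupport _) hηs)
        (hηs.trans hφΩ)
      have h1 : ∀ z, bil (fderiv ℝ h z) (fderiv ℝ η z) = (conj c * S z).re := by
        intro z
        rw [bil, hηd, hηd, hS]
        simp only [map_mul, Complex.conj_ofReal]
        rw [← Complex.add_re]
        congr 1
        ring
      simp_rw [h1] at h0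
      have h2 : ∫ z in Ω, (conj c * S z).re = ∫ z, (conj c * S z).re := by
        apply setIntegral_eq_integral_of_forall_compl_eq_zero
        intro z hz
        have hz' : z ∉ tsupport φ := fun h => hz (hφΩ h)
        have h3 : fderiv ℝ φ z = 0 := by
          by_contra hne
          exact hz' (support_fderiv_subset ℝ hne)
        simp [hS, h3]
      rw [h2] at h0
      have h3 : ∫ z, (conj c * S z).re = (conj c * ∫ z, S z).re := by
        have h4 := integral_re (hSi.const_mul (conj c))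
        rw [integral_const_mul] at h4
        exact h4
      rw [← h3]; exact h0
    have h1 := hc 1
    have hI := hc Complex.I
    apply Complex.ext
    · simpa using h1
    · simpa using hI
  have key2 : ∀ φ : ℂ → ℝ, ContDiff ℝ ∞ φ → HasCompactSupport φ → tsupport φ ⊆ Ω →
      ∫ z, ((fderiv ℝ φ z Complex.I : ℂ) * fderiv ℝ h z 1 -
        (fderiv ℝ φ z 1 : ℂ) * fderiv ℝ h z Complex.I) = 0 := by
    intro φ hφ hφc hφΩ
    have hsv : ∀ v, tsupport (fun z => fderiv ℝ φ z v) ⊆ tsupport φ := by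
      intro v
      refine (closure_mono ?_).trans (tsupport_fderiv_subset ℝ (f := φ))
      intro w hw h0
      apply hw
      show fderiv ℝ φ w v = 0
      rw [h0]; rfl
    have hcv : ∀ v, ContDiff ℝ ∞ fun z => fderiv ℝ φ z v := fun v =>
      (hφ.fderiv_right (m := ∞) (by simp)).clm_apply contDiff_const
    have hkv : ∀ v, HasCompactSupport fun z => fderiv ℝ φ z v := fun v =>
      hφc.of_isClosed_subset (isClosed_tsupport _) (hsv v)
    have hint : ∀ v u, Integrable fun z => ((fderiv ℝ φ z v : ℝ) : ℂ) * fderiv ℝ h z u := fun v u =>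
      test_integrable hΩ (hA u) (hcv v).continuous (hkv v) ((hsv v).trans hφΩ)
    have hw := weakDeriv_C1 hΩ hh
    have e1 := hw.2.2 _ (hcv Complex.I) (hkv _) ((hsv _).trans hφΩ) 1
    have e2 := hw.2.2 _ (hcv 1) (hkv _) ((hsv _).trans hφΩ) Complex.I
    simp_rw [snd_symm hφ] at e1
    rw [e1] at e2
    rw [integral_sub (hint _ _) (hint _ _)]
    have h1 : ∫ z, ((fderiv ℝ φ z Complex.I : ℝ) : ℂ) * fderiv ℝ h z 1 =
        ∫ z, (fderiv ℝ φ z Complex.I) • fderiv ℝ h z 1 := by
      congr 1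
    have h2 : ∫ z, ((fderiv ℝ φ z 1 : ℝ) : ℂ) * fderiv ℝ h z Complex.I =
        ∫ z, (fderiv ℝ φ z 1) • fderiv ℝ h z Complex.I := by
      congr 1
    rw [h1, h2]
    have := neg_injective e2
    rw [this, sub_self]
  have hintg : ∀ φ : ℂ → ℝ, ContDiff ℝ ∞ φ → HasCompactSupport φ → tsupport φ ⊆ Ω → ∀ v u,
      Integrable fun z => ((fderiv ℝ φ z v : ℝ) : ℂ) * fderiv ℝ h z u := by
    intro φ hφ hφc hφΩ v u
    have hsv : ∀ v, tsupport (fun z => fderiv ℝ φ z v) ⊆ tsupport φ := by
      intro v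
      refine (closure_mono ?_).trans (tsupport_fderiv_subset ℝ (f := φ))
      intro w hw h0
      apply hw
      show fderiv ℝ φ w v = 0
      rw [h0]; rfl
    exact test_integrable hΩ (hA u) ((hφ.continuous_fderiv (by norm_num)).clm_apply continuous_const)
      (hφc.of_isClosed_subset (isClosed_tsupport _) (hsv v)) ((hsv v).trans hφΩ)
  constructor
  · apply weyl hΩ
    · exact ((hA 1).sub (continuousOn_const.mul (hA Complex.I))).div_const 2
    · intro φ hφ hφc hφΩ
      have k1 := key1 φ hφ hφc hφΩ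
      have k2 := key2 φ hφ hφc hφΩ
      have hi := hintg φ hφ hφc hφΩ
      have : ∀ z, ((fderiv ℝ φ z 1 : ℂ) + Complex.I * (fderiv ℝ φ z Complex.I : ℂ)) * dz h z =
          (1 / 2) * ((fderiv ℝ φ z 1 : ℂ) * fderiv ℝ h z 1 +
            (fderiv ℝ φ z Complex.I : ℂ) * fderiv ℝ h z Complex.I) +
          (Complex.I / 2) * ((fderiv ℝ φ z Complex.I : ℂ) * fderiv ℝ h z 1 -
            (fderiv ℝ φ z 1 : ℂ) * fderiv ℝ h z Complex.I) := by
        intro z
        rw [dz]
        linear_combination (-(1 / 2) * (fderiv ℝ φ z Complex.I : ℂ) * fderiv ℝ h z Complex.I) *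
          Complex.I_sq
      simp_rw [this]
      rw [integral_add (f := fun z => (1 / 2) * ((fderiv ℝ φ z 1 : ℂ) * fderiv ℝ h z 1 +
            (fderiv ℝ φ z Complex.I : ℂ) * fderiv ℝ h z Complex.I))
        (g := fun z => (Complex.I / 2) * ((fderiv ℝ φ z Complex.I : ℂ) * fderiv ℝ h z 1 -
            (fderiv ℝ φ z 1 : ℂ) * fderiv ℝ h z Complex.I))
        (((hi 1 1).add (hi Complex.I Complex.I)).const_mul _)
        (((hi Complex.I 1).sub (hi 1 Complex.I)).const_mul _), integral_const_mul,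
        integral_const_mul, k1, k2]
      simp
  · apply weyl hΩ
    · exact Complex.continuous_conj.comp_continuousOn
        (((hA 1).add (continuousOn_const.mul (hA Complex.I))).div_const 2)
    · intro φ hφ hφc hφΩ
      have k1 := key1 φ hφ hφc hφΩ
      have k2 := key2 φ hφ hφc hφΩ
      have hi := hintg φ hφ hφc hφΩ
      have : ∀ z, ((fderiv ℝ φ z 1 : ℂ) + Complex.I * (fderiv ℝ φ z Complex.I : ℂ)) * cz h z =
          conj ((1 / 2) * ((fderiv ℝ φ z 1 : ℂ) * fderiv ℝ h z 1 +
            (fderiv ℝ φ z Complex.I : ℂ) * fderiv ℝ h z Complex.I) -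
          (Complex.I / 2) * ((fderiv ℝ φ z Complex.I : ℂ) * fderiv ℝ h z 1 -
            (fderiv ℝ φ z 1 : ℂ) * fderiv ℝ h z Complex.I)) := by
        intro z
        rw [cz, dzb]
        have e : ((fderiv ℝ φ z 1 : ℂ) + Complex.I * (fderiv ℝ φ z Complex.I : ℂ)) =
            conj ((fderiv ℝ φ z 1 : ℂ) - Complex.I * (fderiv ℝ φ z Complex.I : ℂ)) := by
          simp
        rw [e, ← map_mul]
        congr 1
        linear_combination (-(1 / 2) * (fderiv ℝ φ z Complex.I : ℂ) * fderiv ℝ h z Complex.I) *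
          Complex.I_sq
      simp_rw [this]
      rw [integral_conj, integral_sub (f := fun z => (1 / 2) * ((fderiv ℝ φ z 1 : ℂ) * fderiv ℝ h z 1 +
            (fderiv ℝ φ z Complex.I : ℂ) * fderiv ℝ h z Complex.I))
        (g := fun z => (Complex.I / 2) * ((fderiv ℝ φ z Complex.I : ℂ) * fderiv ℝ h z 1 -
            (fderiv ℝ φ z 1 : ℂ) * fderiv ℝ h z Complex.I))
        (((hi 1 1).add (hi Complex.I Complex.I)).const_mul _)
        (((hi Complex.I 1).sub (hi 1 Complex.I)).const_mul _), integral_const_mul,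
        integral_const_mul, k1, k2]
      simp

end Pool.Agent.H366R3.ED
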