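import Mathlib
import Pool.Agent.H366R3.ED.Hol
import Pool.Agent.H366R3.Energy1

set_option autoImplicit false

open Set Filter Topology MeasureTheory Metric
open scoped ContDiff ENNReal NNReal ComplexConjugate

namespace Pool.Agent.H366R3.ED

/-- the real linear map `v ↦ a v + b conj v` -/
noncomputable def lin (a b : ℂ) : ℂ →L[ℝ] ℂ :=
  (ContinuousLinearMap.mul ℝ ℂ a) +
    (ContinuousLinearMap.mul ℝ ℂ b).comp (Complex.conjCLE : ℂ →L[ℝ] ℂ)

lemma lin_apply (a b v : ℂ) : lin a b v = a * v + b * conj v := by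
  simp [lin]

lemma clm_ext {A B : ℂ →L[ℝ] ℂ} (h1 : A 1 = B 1) (hI : A Complex.I = B Complex.I) : A = B := by
  ext z
  have hz : z = z.re • (1 : ℂ) + z.im • Complex.I := by
    simp [Complex.re_add_im]
  rw [hz, map_add, map_add, map_smul, map_smul, map_smul, map_smul, h1, hI]

lemma lin_comp (a b c d : ℂ) :
    (lin a b).comp (lin c d) = lin (a * c + b * conj d) (a * d + b * conj c) := by
  ext z
  simp only [ContinuousLinearMap.comp_apply, lin_apply, map_add, map_mul, Complex.conj_conj]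
  ring

lemma eq_lin (A : ℂ →L[ℝ] ℂ) :
    A = lin ((A 1 - Complex.I * A Complex.I) / 2) ((A 1 + Complex.I * A Complex.I) / 2) := by
  apply clm_ext
  · rw [lin_apply]; simp; ring
  · rw [lin_apply]; simp
    linear_combination (A Complex.I) * Complex.I_sq

lemma dens_lin (a b : ℂ) : dens (lin a b) = 2 * (‖a‖ ^ 2 + ‖b‖ ^ 2) := by
  rw [dens, lin_apply, lin_apply, ← Complex.normSq_eq_norm_sq, ← Complex.normSq_eq_norm_sq,
    ← Complex.normSq_eq_norm_sq, ← Complex.normSq_eq_norm_sq]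
  simp only [Complex.normSq_apply]
  simp
  ring

lemma det_lin (a b : ℂ) : (lin a b).det = ‖a‖ ^ 2 - ‖b‖ ^ 2 := by
  rw [det_formula, lin_apply, lin_apply, ← Complex.normSq_eq_norm_sq, ← Complex.normSq_eq_norm_sq]
  simp only [Complex.normSq_apply]
  simp
  ring

lemma norm_lin_le (a b : ℂ) : ‖lin a b‖ ≤ ‖a‖ + ‖b‖ := by
  apply ContinuousLinearMap.opNorm_le_bound _ (by positivity)
  intro z
  rw [lin_apply]
  refine (norm_add_le _ _).trans ?_
  rw [norm_mul, norm_mul, Complex.norm_conj]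
  linarith [norm_nonneg z]

lemma fderiv_eq_lin (h : ℂ → ℂ) (z : ℂ) : fderiv ℝ h z = lin (dz h z) (dzb h z) := eq_lin _

lemma alg1 (a b p q : ℂ) :
    2 * (‖a * conj p - b * conj q‖ ^ 2 + ‖b * p - a * q‖ ^ 2) =
      2 * (‖a‖ ^ 2 + ‖b‖ ^ 2) * (‖p‖ ^ 2 + ‖q‖ ^ 2) - 8 * ((a * conj b) * (conj p * q)).re := by
  rw [← Complex.normSq_eq_norm_sq, ← Complex.normSq_eq_norm_sq, ← Complex.normSq_eq_norm_sq,
    ← Complex.normSq_eq_norm_sq, ← Complex.normSq_eq_norm_sq, ← Complex.normSq_eq_norm_sq]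
  simp only [Complex.normSq_apply]
  simp
  ring

lemma alg2 (A B p q : ℂ) :
    (A * p + B * conj q) * conj p - (A * q + B * conj p) * conj q =
      ((‖p‖ ^ 2 - ‖q‖ ^ 2 : ℝ) : ℂ) * A := by
  have h1 : p * conj p = ((‖p‖ ^ 2 : ℝ) : ℂ) := by rw [Complex.mul_conj, Complex.normSq_eq_norm_sq]
  have h2 : q * conj q = ((‖q‖ ^ 2 : ℝ) : ℂ) := by rw [Complex.mul_conj, Complex.normSq_eq_norm_sq]
  rw [Complex.ofReal_sub]
  linear_combination A * h1 - A * h2

lemma alg3 (A B p q : ℂ) :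
    (A * q + B * conj p) * p - (A * p + B * conj q) * q =
      ((‖p‖ ^ 2 - ‖q‖ ^ 2 : ℝ) : ℂ) * B := by
  have h1 : p * conj p = ((‖p‖ ^ 2 : ℝ) : ℂ) := by rw [Complex.mul_conj, Complex.normSq_eq_norm_sq]
  have h2 : q * conj q = ((‖q‖ ^ 2 : ℝ) : ℂ) := by rw [Complex.mul_conj, Complex.normSq_eq_norm_sq]
  rw [Complex.ofReal_sub]
  linear_combination B * h1 - B * h2

/-- the Jacobian of the perturbation -/
lemma jac (e w c : ℂ) (t : ℝ) (he : ‖e‖ = 1) :
    ‖e * (1 - Complex.I * t * w * conj c)‖ ^ 2 - ‖e * (-(Complex.I * t * w * c))‖ ^ 2 =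
      1 + 2 * t * (w * conj c).im := by
  rw [norm_mul, norm_mul, he, one_mul, one_mul, ← Complex.normSq_eq_norm_sq,
    ← Complex.normSq_eq_norm_sq]
  simp only [Complex.normSq_apply]
  simp
  ring

lemma pq (e w c : ℂ) (t : ℝ) (he : ‖e‖ = 1) :
    conj (e * (1 - Complex.I * t * w * conj c)) * (e * (-(Complex.I * t * w * c))) =
      -(Complex.I * t * (w * c)) + ((t ^ 2 * ‖w‖ ^ 2 : ℝ) : ℂ) * c ^ 2 := by
  have h1 : e * conj e = 1 := by
    rw [Complex.mul_conj, Complex.normSq_eq_norm_sq, he]; simp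
  have h2 : w * conj w = ((‖w‖ ^ 2 : ℝ) : ℂ) := by rw [Complex.mul_conj, Complex.normSq_eq_norm_sq]
  rw [Complex.ofReal_mul, ← h2, map_mul, map_sub, map_one, map_mul, map_mul, map_mul,
    Complex.conj_conj, Complex.conj_I, Complex.conj_ofReal, Complex.ofReal_pow]
  linear_combination (-(Complex.I * t * w * c)) * (1 + Complex.I * t * conj w * c) * h1 -
    (t ^ 2 * w * conj w * c ^ 2) * Complex.I_sq

set_option maxHeartbeats 1000000 in
/-- the pointwise inequality for the perturbed energy -/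
lemma pert_le {U : ℂ →L[ℝ] ℂ} {a b e w c : ℂ} {t M : ℝ} (he : ‖e‖ = 1) (hM : ‖w‖ * ‖c‖ ≤ M)
    (htM : |t| * M ≤ 1 / 4)
    (hU : U.comp (lin (e * (1 - Complex.I * t * w * conj c)) (e * (-(Complex.I * t * w * c)))) =
      lin a b) :
    0 < 1 + 2 * t * (w * conj c).im ∧
    (1 + 2 * t * (w * conj c).im) * dens U ≤ dens (lin a b) +
      8 * t * (Complex.I * (a * conj b) * (w * c)).re + 16 * M ^ 2 * t ^ 2 * dens (lin a b) := by
  set p : ℂ := e * (1 - Complex.I * t * w * conj c) with hp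
  set q : ℂ := e * (-(Complex.I * t * w * c)) with hq
  have hJ := jac e w c t he
  have hpq := pq e w c t he
  rw [← hp, ← hq] at hJ hpq
  set J : ℝ := 1 + 2 * t * (w * conj c).im with hJd
  obtain ⟨A, B, hAB⟩ : ∃ A B, U = lin A B := ⟨_, _, eq_lin U⟩
  rw [hAB, lin_comp] at hU
  have e1 := congrArg (fun L : ℂ →L[ℝ] ℂ => (L 1 - Complex.I * L Complex.I) / 2) hU
  have e2 := congrArg (fun L : ℂ →L[ℝ] ℂ => (L 1 + Complex.I * L Complex.I) / 2) hU
  have s1 : ∀ x y : ℂ, (lin x y 1 - Complex.I * lin x y Complex.I) / 2 = x := by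
    intro x y
    rw [lin_apply, lin_apply]; simp
    linear_combination (-x / 2 + y / 2) * Complex.I_sq
  have s2 : ∀ x y : ℂ, (lin x y 1 + Complex.I * lin x y Complex.I) / 2 = y := by
    intro x y
    rw [lin_apply, lin_apply]; simp
    linear_combination (x / 2 - y / 2) * Complex.I_sq
  simp only [s1, s2] at e1 e2
  have hτ0 : 0 ≤ |t| * M := mul_nonneg (abs_nonneg _) ((by positivity : 0 ≤ ‖w‖ * ‖c‖).trans hM)
  have hwc : |t| * (‖w‖ * ‖c‖) ≤ |t| * M := mul_le_mul_of_nonneg_left hM (abs_nonneg _)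
  -- bounds on J
  have hJ1 : |J - 1| ≤ 2 * (|t| * M) := by
    have h1 : |(w * conj c).im| ≤ ‖w‖ * ‖c‖ := by
      refine (Complex.abs_im_le_norm _).trans ?_
      rw [norm_mul, Complex.norm_conj]
    have h2 : J - 1 = 2 * t * (w * conj c).im := by rw [hJd]; ring
    rw [h2, abs_mul, abs_mul, abs_two]
    have h3 := mul_le_mul_of_nonneg_left h1 (abs_nonneg t)
    nlinarith
  have hJ2 := abs_le.1 hJ1
  have hJpos : 0 < J := by linarith
  refine ⟨hJpos, ?_⟩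
  have hde : dens (lin a b) = 2 * (‖a‖ ^ 2 + ‖b‖ ^ 2) := dens_lin a b
  set en : ℝ := dens (lin a b) with hen
  have hen0 : 0 ≤ en := by rw [hde]; positivity
  have hUd : dens U = 2 * (‖A‖ ^ 2 + ‖B‖ ^ 2) := by rw [hAB, dens_lin]
  have k1 := alg1 a b p q
  have k2 := alg2 A B p q
  have k3 := alg3 A B p q
  rw [e1, e2] at k2 k3
  rw [hJ] at k2 k3
  have nJ : ∀ x : ℂ, ‖(J : ℂ) * x‖ = J * ‖x‖ := by
    intro x
    rw [norm_mul, Complex.norm_real, Real.norm_eq_abs, abs_of_pos hJpos]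
  rw [k2, k3, nJ, nJ] at k1
  -- expand
  have hp2 : ‖p‖ ^ 2 = J + ‖q‖ ^ 2 := by linarith
  have hq2 : ‖q‖ ^ 2 ≤ (|t| * M) ^ 2 := by
    have h1 : ‖q‖ = |t| * (‖w‖ * ‖c‖) := by
      rw [hq, norm_mul, he, norm_neg, norm_mul, norm_mul, norm_mul, Complex.norm_I,
        Complex.norm_real, Real.norm_eq_abs]
      ring
    rw [h1]
    gcongr
  have hΦ : ‖a * conj b‖ ≤ en / 4 := by
    rw [norm_mul, Complex.norm_conj, hde]
    nlinarith [sq_nonneg (‖a‖ - ‖b‖)]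
  set y : ℝ := 8 * t * (Complex.I * (a * conj b) * (w * c)).re with hy
  have hre : - 8 * ((a * conj b) * (conj p * q)).re ≤ y + 2 * (|t| * M) ^ 2 * en := by
    rw [hpq]
    have h1 : (a * conj b) * (-(Complex.I * t * (w * c)) + ((t ^ 2 * ‖w‖ ^ 2 : ℝ) : ℂ) * c ^ 2) =
        -((t : ℂ) * (Complex.I * (a * conj b) * (w * c))) +
          ((t ^ 2 * ‖w‖ ^ 2 : ℝ) : ℂ) * ((a * conj b) * c ^ 2) := by ring
    rw [h1, Complex.add_re, Complex.neg_re, Complex.re_ofReal_mul, Complex.re_ofReal_mul]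
    have h2 : |((a * conj b) * c ^ 2).re| ≤ en / 4 * ‖c‖ ^ 2 := by
      refine (Complex.abs_re_le_norm _).trans ?_
      rw [norm_mul, norm_pow]
      gcongr
    have h3 : t ^ 2 * ‖w‖ ^ 2 * (- ((a * conj b) * c ^ 2).re) ≤
        t ^ 2 * ‖w‖ ^ 2 * (en / 4 * ‖c‖ ^ 2) := by
      gcongr
      exact (neg_le_abs _).trans h2
    have h4 : t ^ 2 * ‖w‖ ^ 2 * (en / 4 * ‖c‖ ^ 2) ≤ (|t| * M) ^ 2 * (en / 4) := by
      have h5 : t ^ 2 * ‖w‖ ^ 2 * (en / 4 * ‖c‖ ^ 2) = (|t| * (‖w‖ * ‖c‖)) ^ 2 * (en / 4) := by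
        rw [mul_pow, sq_abs]; ring
      rw [h5]
      gcongr
    rw [hy]
    nlinarith
  have hyb : |y| ≤ 2 * (|t| * M) * en := by
    rw [hy, abs_mul, abs_mul, abs_of_pos (by norm_num : (0:ℝ) < 8)]
    have h1 : |(Complex.I * (a * conj b) * (w * c)).re| ≤ en / 4 * (‖w‖ * ‖c‖) := by
      refine (Complex.abs_re_le_norm _).trans ?_
      rw [norm_mul, norm_mul, Complex.norm_I, one_mul, norm_mul w c]
      gcongr
    have h2 := mul_le_mul_of_nonneg_left h1 (abs_nonneg t)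
    have h3 : |t| * (en / 4 * (‖w‖ * ‖c‖)) ≤ (|t| * M) * (en / 4) := by
      have := mul_le_mul_of_nonneg_right hwc (by positivity : 0 ≤ en / 4)
      linarith
    linarith
  set X : ℝ := J * dens U with hX
  have hXJ : X * J = en * (J + 2 * ‖q‖ ^ 2) - 8 * ((a * conj b) * (conj p * q)).re := by
    have : X * J = 2 * ((J * ‖A‖) ^ 2 + (J * ‖B‖) ^ 2) := by rw [hX, hUd]; ring
    rw [this, k1, hp2, hde]; ring
  set τ : ℝ := |t| * M with hτ
  have hM2 : M ^ 2 * t ^ 2 = τ ^ 2 := by rw [hτ, mul_pow, sq_abs]; ring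
  have hXJ2 : X * J ≤ en * J + y + 4 * τ ^ 2 * en := by
    have h1 : 2 * (en * ‖q‖ ^ 2) ≤ 2 * (en * τ ^ 2) := by gcongr
    nlinarith
  have hyJ : -(4 * τ ^ 2 * en) ≤ y * (J - 1) := by
    have h1 : |y * (J - 1)| ≤ (2 * τ * en) * (2 * τ) := by
      rw [abs_mul]
      gcongr
    have h2 := neg_abs_le (y * (J - 1))
    nlinarith
  have hJh : 1 / 2 ≤ J := by linarith
  have hfin : X * J ≤ (en + y + 16 * M ^ 2 * t ^ 2 * en) * J := by
    have h1 : 16 * M ^ 2 * t ^ 2 * en = 16 * τ ^ 2 * en := by rw [← hM2]; ring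
    rw [h1]
    have h2 : 0 ≤ τ ^ 2 * en * (J - 1 / 2) := by
      have := sub_nonneg.2 hJh
      positivity
    have h3 : (en + y + 16 * τ ^ 2 * en) * J = en * J + y + y * (J - 1) +
        16 * (τ ^ 2 * en * (J - 1 / 2)) + 8 * (τ ^ 2 * en) := by ring
    rw [h3]
    linarith
  exact le_of_mul_le_mul_right hfin hJpos

end Pool.Agent.H366R3.ED
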