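import Mathlib
import Pool.Agent.H366R3.ED.Lin

set_option autoImplicit false

open Set Filter Topology MeasureTheory Metric
open scoped ContDiff ENNReal NNReal ComplexConjugate

namespace Pool.Agent.H366R3.ED

/-- the derivative of a real function in `z bar` -/
noncomputable def cb (β : ℂ → ℝ) (w : ℂ) : ℂ :=
  ((fderiv ℝ β w 1 : ℂ) + Complex.I * (fderiv ℝ β w Complex.I : ℂ)) / 2

/-- the rotation field -/
noncomputable def chi (β : ℂ → ℝ) (t : ℝ) (w : ℂ) : ℂ := w * Complex.exp (Complex.I * (-(t * β w) : ℝ))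

lemma norm_e (x : ℝ) : ‖Complex.exp (Complex.I * (x : ℝ))‖ = 1 := by
  rw [mul_comm]; exact Complex.norm_exp_ofReal_mul_I x

lemma norm_chi (β : ℂ → ℝ) (t : ℝ) (w : ℂ) : ‖chi β t w‖ = ‖w‖ := by
  rw [chi, norm_mul, norm_e, mul_one]

lemma chi_eq {β : ℂ → ℝ} {w : ℂ} (h : β w = 0) (t : ℝ) : chi β t w = w := by
  rw [chi, h]; simp

lemma chi_deriv {β : ℂ → ℝ} (hβ : Differentiable ℝ β) (t : ℝ) (w : ℂ) :
    HasFDerivAt (chi β t) (lin (Complex.exp (Complex.I * (-(t * β w) : ℝ)) *
      (1 - Complex.I * t * w * conj (cb β w))) (Complex.exp (Complex.I * (-(t * β w) : ℝ)) *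
      (-(Complex.I * t * w * cb β w)))) w := by
  have h1 : HasFDerivAt (fun w => -(t * β w)) (-(t • fderiv ℝ β w)) w :=
    ((hβ w).hasFDerivAt.const_mul t).neg
  have h2 : HasFDerivAt (fun w => ((-(t * β w) : ℝ) : ℂ))
      (Complex.ofRealCLM.comp (-(t • fderiv ℝ β w))) w :=
    Complex.ofRealCLM.hasFDerivAt.comp w h1
  have h3 := h2.const_mul Complex.I
  have h4 := h3.cexp
  have h5 := (hasFDerivAt_id (𝕜 := ℝ) w).mul h4
  have h6 : HasFDerivAt (chi β t) _ w := h5
  refine h6.congr_fderiv ?_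
  have c2 : (starRingEnd ℂ) (2:ℂ) = 2 := by
    rw [show (2:ℂ) = ((2:ℝ):ℂ) by norm_num, Complex.conj_ofReal]
  apply clm_ext
  · rw [lin_apply]
    simp [cb, c2]
    ring
  · rw [lin_apply]
    simp [cb, c2]
    ring_nf
    simp only [Complex.I_pow_three]
    ring

lemma contDiff_chi {β : ℂ → ℝ} (hβ : ContDiff ℝ ∞ β) (t : ℝ) : ContDiff ℝ 1 (chi β t) := by
  have h1 : ContDiff ℝ 1 fun w => ((-(t * β w) : ℝ) : ℂ) :=
    Complex.ofRealCLM.contDiff.comp ((contDiff_const.mul (hβ.of_le (by norm_cast))).neg)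
  exact contDiff_id.mul ((contDiff_const.mul h1).cexp)

lemma cb_continuous {β : ℂ → ℝ} (hβ : ContDiff ℝ ∞ β) : Continuous (cb β) := by
  have h : ∀ v, Continuous fun w => ((fderiv ℝ β w v : ℝ) : ℂ) := fun v =>
    Complex.continuous_ofReal.comp ((hβ.continuous_fderiv (by norm_num)).clm_apply continuous_const)
  exact ((h 1).add (continuous_const.mul (h Complex.I))).div_const 2

lemma cb_zero {β : ℂ → ℝ} {w : ℂ} (hw : w ∉ tsupport β) : cb β w = 0 := by
  have h3 : fderiv ℝ β w = 0 := by
    by_contra hne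
    exact hw (support_fderiv_subset ℝ hne)
  simp [cb, h3]

lemma bounds {β : ℂ → ℝ} (hβ : ContDiff ℝ ∞ β) (hβc : HasCompactSupport β) :
    ∃ M : ℝ, 0 ≤ M ∧ (∀ w, ‖w‖ * ‖cb β w‖ ≤ M) ∧ ∀ w, |β w| ≤ M := by
  have h1 : Continuous fun w => w * cb β w := continuous_id.mul (cb_continuous hβ)
  have h2 : HasCompactSupport fun w => w * cb β w := by
    apply hβc.of_isClosed_subset (isClosed_tsupport _)
    apply closure_minimal _ (isClosed_tsupport _)
    intro w hw
    by_contra hcon
    exact hw (by show w * cb β w = 0; rw [cb_zero hcon, mul_zero])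
  obtain ⟨C1, hC1⟩ := h2.exists_bound_of_continuous h1
  obtain ⟨C2, hC2⟩ := hβc.exists_bound_of_continuous hβ.continuous
  refine ⟨max C1 C2, ((norm_nonneg _).trans (hC2 0)).trans (le_max_right _ _), fun w => ?_, fun w => ?_⟩
  · rw [← norm_mul]; exact (hC1 w).trans (le_max_left _ _)
  · rw [← Real.norm_eq_abs]; exact (hC2 w).trans (le_max_right _ _)

/-- the perturbation is a homeomorphism -/
lemma chi_homeo {β : ℂ → ℝ} (hβ : ContDiff ℝ ∞ β) {M t : ℝ} (hM0 : 0 ≤ M)
    (hM1 : ∀ w, ‖w‖ * ‖cb β w‖ ≤ M) (hM2 : ∀ w, |β w| ≤ M) (ht : |t| * (3 * M) < 1) :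
    ∃ e : ℂ ≃ₜ ℂ, ∀ w, e w = chi β t w := by
  set ζ : ℂ → ℂ := fun w => chi β t w - w with hζ
  have hder : ∀ w, HasFDerivAt ζ (lin (Complex.exp (Complex.I * (-(t * β w) : ℝ)) *
      (1 - Complex.I * t * w * conj (cb β w)) - 1) (Complex.exp (Complex.I * (-(t * β w) : ℝ)) *
      (-(Complex.I * t * w * cb β w)))) w := by
    intro w
    have h1 := (chi_deriv (hβ.differentiable (by norm_num)) t w).sub (hasFDerivAt_id (𝕜 := ℝ) w)
    refine h1.congr_fderiv ?_
    apply clm_ext
    · simp only [ContinuousLinearMap.sub_apply, lin_apply, ContinuousLinearMap.id_apply]; ring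
    · simp only [ContinuousLinearMap.sub_apply, lin_apply, ContinuousLinearMap.id_apply]; ring
  obtain ⟨M', hM'⟩ : ∃ M' : ℝ≥0, (M' : ℝ) = M := ⟨⟨M, hM0⟩, rfl⟩
  have hb : ∀ w, ‖fderiv ℝ ζ w‖₊ ≤ ‖t‖₊ * (3 * M') := by
    intro w
    rw [← NNReal.coe_le_coe, coe_nnnorm, (hder w).fderiv]
    refine (norm_lin_le _ _).trans ?_
    set e := Complex.exp (Complex.I * (-(t * β w) : ℝ)) with he
    have hen : ‖e‖ = 1 := norm_e _
    have h1 : ‖e - 1‖ ≤ |t| * M := by
      rw [he]
      refine Real.norm_exp_I_mul_ofReal_sub_one_le.trans ?_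
      rw [norm_neg, Real.norm_eq_abs, abs_mul]
      exact mul_le_mul_of_nonneg_left (hM2 w) (abs_nonneg _)
    have h2 : ‖e * (Complex.I * t * w * conj (cb β w))‖ ≤ |t| * M := by
      rw [norm_mul, hen, one_mul, norm_mul, norm_mul, norm_mul, Complex.norm_I, one_mul,
        Complex.norm_real, Complex.norm_conj, Real.norm_eq_abs, mul_assoc]
      exact mul_le_mul_of_nonneg_left (hM1 w) (abs_nonneg _)
    have h3 : ‖e * (-(Complex.I * t * w * cb β w))‖ ≤ |t| * M := by
      rw [norm_mul, hen, one_mul, norm_neg, norm_mul, norm_mul, norm_mul, Complex.norm_I, one_mul,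
        Complex.norm_real, Real.norm_eq_abs, mul_assoc]
      exact mul_le_mul_of_nonneg_left (hM1 w) (abs_nonneg _)
    have h4 : e * (1 - Complex.I * t * w * conj (cb β w)) - 1 =
        (e - 1) - e * (Complex.I * t * w * conj (cb β w)) := by ring
    rw [h4]
    have h5 := norm_sub_le (e - 1) (e * (Complex.I * t * w * conj (cb β w)))
    have h6 : ((‖t‖₊ * (3 * M') : ℝ≥0) : ℝ) = |t| * (3 * M) := by
      push_cast; rw [hM', Real.norm_eq_abs]
    rw [h6]
    linarith
  have hL := lipschitzWith_of_nnnorm_fderiv_le (fun w => (hder w).differentiableAt) hb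
  obtain ⟨e, he⟩ := perturb_homeo hL (by
    rw [← NNReal.coe_lt_coe]
    push_cast
    rw [hM', Real.norm_eq_abs]
    exact ht)
  refine ⟨e, fun w => ?_⟩
  rw [he, hζ]; ring

lemma memLp_of_integrable_dens {Ω : Set ℂ} {D : ℂ → ℂ →L[ℝ] ℂ}
    (hm : AEStronglyMeasurable D (volume.restrict Ω))
    (hi : Integrable (fun z => dens (D z)) (volume.restrict Ω)) : MemLp D 2 (volume.restrict Ω) := by
  rw [memLp_two_iff_integrable_sq_norm hm]
  refine (hi.const_mul 2).mono' (hm.norm.pow 2) (Eventually.of_forall fun z => ?_)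
  rw [Real.norm_eq_abs, abs_of_nonneg (by positivity)]
  exact norm_sq_le_dens _

set_option maxHeartbeats 1000000 in
/-- first variation in the source -/
theorem inner_var {K Ω' : Set ℂ} (hK : IsClosed K) (hb' : Bornology.IsBounded Ω') {h : ℂ → ℂ}
    (hmin : IsEnergyMinimalDiffeo (ball 0 1 \ K) Ω' h) {β : ℂ → ℝ} (hβ : ContDiff ℝ ∞ β)
    (hβc : HasCompactSupport β) (hβK : ∀ w ∈ K, β w = 0) :
    ∫ z in ball 0 1 \ K, (Complex.I * (dz h z * cz h z) * (z * cb β z)).re = 0 := by
  set Ω : Set ℂ := ball 0 1 \ K with hΩd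
  have hΩ : IsOpen Ω := isOpen_ball.sdiff hK
  have hb : Bornology.IsBounded Ω := isBounded_ball.subset sdiff_subset
  obtain ⟨⟨hh, hbij, g, hg, hgh⟩, -, hfin⟩ := id hmin
  have hLp := memLp_of_energy hΩ hh hfin
  have hiE := integrable_dens hLp
  have hfc : ContinuousOn (fderiv ℝ h) Ω := hh.continuousOn_fderiv_of_isOpen hΩ le_rfl
  obtain ⟨M, hM0, hM1, hM2⟩ := bounds hβ hβc
  set E : ℝ := ∫ z in Ω, dens (fderiv ℝ h z) with hE
  set Y : ℂ → ℝ := fun z => (Complex.I * (dz h z * cz h z) * (z * cb β z)).re with hY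
  have hdz : ContinuousOn (dz h) Ω :=
    ((hfc.clm_apply continuousOn_const).sub
      (continuousOn_const.mul (hfc.clm_apply continuousOn_const))).div_const 2
  have hcz : ContinuousOn (cz h) Ω :=
    Complex.continuous_conj.comp_continuousOn (((hfc.clm_apply continuousOn_const).add
      (continuousOn_const.mul (hfc.clm_apply continuousOn_const))).div_const 2)
  have hYc : ContinuousOn Y Ω :=
    Complex.continuous_re.comp_continuousOn ((continuousOn_const.mul (hdz.mul hcz)).mul
      (continuous_id.mul (cb_continuous hβ)).continuousOn)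
  have hYb : ∀ z, |Y z| ≤ M * dens (fderiv ℝ h z) := by
    intro z
    rw [fderiv_eq_lin h z, dens_lin]
    refine (Complex.abs_re_le_norm _).trans ?_
    rw [norm_mul, norm_mul, norm_mul, Complex.norm_I, one_mul, norm_mul z]
    have h1 : ‖cz h z‖ = ‖dzb h z‖ := by rw [cz, Complex.norm_conj]
    rw [h1]
    have h2 : ‖dz h z‖ * ‖dzb h z‖ ≤ 2 * (‖dz h z‖ ^ 2 + ‖dzb h z‖ ^ 2) := by
      nlinarith [sq_nonneg (‖dz h z‖ - ‖dzb h z‖), sq_nonneg ‖dz h z‖, sq_nonneg ‖dzb h z‖]
    calc ‖dz h z‖ * ‖dzb h z‖ * (‖z‖ * ‖cb β z‖)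
        ≤ (2 * (‖dz h z‖ ^ 2 + ‖dzb h z‖ ^ 2)) * M := by
          gcongr
          exact hM1 z
      _ = _ := by ring
  have hYi : Integrable Y (volume.restrict Ω) := by
    refine (hiE.const_mul M).mono' (hYc.aestronglyMeasurable hΩ.measurableSet)
      (Eventually.of_forall fun z => ?_)
    rw [Real.norm_eq_abs]; exact hYb z
  have hgoal : 4 * ∫ z in Ω, Y z = 0 := by
    apply quad_zero (t0 := 1 / (4 * M + 1)) (y := 16 * M ^ 2 * E) (by positivity)
    intro t ht
    have htM : |t| * (4 * M) < 1 := by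
      rw [lt_div_iff₀ (by positivity)] at ht
      nlinarith [abs_nonneg t]
    obtain ⟨e, he⟩ := chi_homeo (t := t) hβ hM0 hM1 hM2 (by nlinarith [abs_nonneg t, mul_nonneg (abs_nonneg t) hM0])
    have heK : ∀ w ∈ K, e w = w := fun w hw => by rw [he, chi_eq (hβK w hw)]
    have hen : ∀ w, ‖e w‖ = ‖w‖ := fun w => by rw [he, norm_chi]
    have hens : ∀ w, ‖e.symm w‖ = ‖w‖ := fun w => by
      rw [← hen (e.symm w), e.apply_symm_apply]
    have hmap : ∀ w ∈ Ω, e w ∈ Ω := by
      rintro w ⟨hw1, hw2⟩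
      refine ⟨by rw [mem_ball_zero_iff, hen]; rwa [mem_ball_zero_iff] at hw1, fun hcon => hw2 ?_⟩
      have h1 := heK _ hcon
      have h2 := e.injective h1
      rwa [h2] at hcon
    have hsymm : ∀ w ∈ Ω, e.symm w ∈ Ω := by
      rintro w ⟨hw1, hw2⟩
      refine ⟨by rw [mem_ball_zero_iff, hens]; rwa [mem_ball_zero_iff] at hw1, fun hcon => hw2 ?_⟩
      have h1 := heK _ hcon
      rw [e.apply_symm_apply] at h1
      rwa [← h1] at hcon
    have himg : e '' Ω = Ω := by
      apply Subset.antisymm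
      · rintro w ⟨z, hz, rfl⟩; exact hmap z hz
      · intro w hw; exact ⟨e.symm w, hsymm w hw, e.apply_symm_apply w⟩
    -- derivative
    set P : ℂ → ℂ →L[ℝ] ℂ := fun w => lin (Complex.exp (Complex.I * (-(t * β w) : ℝ)) *
      (1 - Complex.I * t * w * conj (cb β w))) (Complex.exp (Complex.I * (-(t * β w) : ℝ)) *
      (-(Complex.I * t * w * cb β w))) with hP
    have heP : ∀ w, HasFDerivAt e (P w) w := by
      intro w
      have : (e : ℂ → ℂ) = chi β t := funext he
      rw [this]
      exact chi_deriv (hβ.differentiable (by norm_num)) t w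
    have hdetP : ∀ w, (P w).det = 1 + 2 * t * (w * conj (cb β w)).im := by
      intro w
      rw [hP]
      simp only
      rw [det_lin, jac _ _ _ _ (norm_e _)]
    have hJpos : ∀ w, 1 / 2 < 1 + 2 * t * (w * conj (cb β w)).im := by
      intro w
      have h1 : |(w * conj (cb β w)).im| ≤ M := by
        refine (Complex.abs_im_le_norm _).trans ?_
        rw [norm_mul, Complex.norm_conj]; exact hM1 w
      have h2 : |2 * t * (w * conj (cb β w)).im| < 1 / 2 := by
        rw [abs_mul, abs_mul, abs_two]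
        have := mul_le_mul_of_nonneg_left h1 (abs_nonneg t)
        nlinarith
      have := (abs_lt.1 h2).1
      linarith
    have hinvC : ContDiff ℝ 1 (e.symm : ℂ → ℂ) := by
      have heC : ContDiff ℝ 1 (e : ℂ → ℂ) := by
        have : (e : ℂ → ℂ) = chi β t := funext he
        rw [this]; exact contDiff_chi hβ t
      have hunit : ∀ w, ∃ A : ℂ ≃L[ℝ] ℂ, (A : ℂ →L[ℝ] ℂ) = P w := by
        intro w
        set p : ℂ := Complex.exp (Complex.I * (-(t * β w) : ℝ)) *
          (1 - Complex.I * t * w * conj (cb β w)) with hp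
        set q : ℂ := Complex.exp (Complex.I * (-(t * β w) : ℝ)) *
          (-(Complex.I * t * w * cb β w)) with hq
        have hJ : ‖p‖ ^ 2 - ‖q‖ ^ 2 = 1 + 2 * t * (w * conj (cb β w)).im := jac _ _ _ _ (norm_e _)
        set J : ℝ := 1 + 2 * t * (w * conj (cb β w)).im with hJd
        have hJ0 : (J : ℂ) ≠ 0 := by
          have := hJpos w
          exact_mod_cast (by linarith : J ≠ 0)
        have hJc : p * conj p - q * conj q = (J : ℂ) := by
          rw [Complex.mul_conj, Complex.mul_conj, Complex.normSq_eq_norm_sq,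
            Complex.normSq_eq_norm_sq, ← hJ]
          push_cast; ring
        refine ⟨ContinuousLinearEquiv.equivOfInverse (lin p q) (lin (conj p / J) (-q / J)) ?_ ?_, rfl⟩
        · intro v
          rw [lin_apply, lin_apply]
          simp only [map_add, map_mul, Complex.conj_conj]
          field_simp
          linear_combination v * hJc
        · intro v
          rw [lin_apply, lin_apply]
          simp only [map_add, map_mul, map_div₀, map_neg, Complex.conj_conj, Complex.conj_ofReal]
          field_simp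
          linear_combination v * hJc
      choose A hA using hunit
      exact e.contDiff_symm (f₀' := A) (fun w => by rw [hA]; exact heP w) heC
    -- the competitor
    set u : ℂ → ℂ := fun z => h (e.symm z) with hu
    have huC : ContDiffOn ℝ 1 u Ω := hh.comp hinvC.contDiffOn hsymm
    have huchain : ∀ w ∈ Ω, (fderiv ℝ u (e w)).comp (P w) = lin (dz h w) (dzb h w) := by
      intro w hw
      have h1 : HasFDerivAt u (fderiv ℝ u (e w)) (e w) :=
        ((huC.differentiableOn one_ne_zero).differentiableAt (hΩ.mem_nhds (hmap w hw))).hasFDerivAt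
      have h2 := h1.comp w (heP w)
      have h3 : u ∘ e = h := by
        funext z; simp [hu]
      rw [h3] at h2
      rw [← fderiv_eq_lin, h2.fderiv]
    have hpt : ∀ w ∈ Ω, |(P w).det| * dens (fderiv ℝ u (e w)) ≤ dens (fderiv ℝ h w) +
        8 * t * Y w + 16 * M ^ 2 * t ^ 2 * dens (fderiv ℝ h w) := by
      intro w hw
      have h1 := (pert_le (t := t) (M := M) (norm_e (-(t * β w))) (hM1 w) (by linarith) (huchain w hw)).2
      rw [hdetP, abs_of_pos (by linarith [hJpos w]), fderiv_eq_lin h w]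
      exact h1
    -- integrability of the competitor
    have hinj : InjOn e Ω := e.injective.injOn
    have hfdc : ContinuousOn (fderiv ℝ u) Ω := huC.continuousOn_fderiv_of_isOpen hΩ le_rfl
    have hRi : Integrable (fun w => dens (fderiv ℝ h w) +
        8 * t * Y w + 16 * M ^ 2 * t ^ 2 * dens (fderiv ℝ h w)) (volume.restrict Ω) :=
      (hiE.add (hYi.const_mul _)).add (hiE.const_mul _)
    have hLi : IntegrableOn (fun w => |(P w).det| • dens (fderiv ℝ u (e w))) Ω := by
      refine hRi.mono' ?_ ?_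
      · apply ContinuousOn.aestronglyMeasurable _ hΩ.measurableSet
        have c1 : ContinuousOn (fun w => |(P w).det|) Ω := by
          simp_rw [hdetP]
          apply Continuous.continuousOn
          apply continuous_abs.comp
          exact continuous_const.add (continuous_const.mul (Complex.continuous_im.comp
            (continuous_id.mul (Complex.continuous_conj.comp (cb_continuous hβ)))))
        exact c1.smul (continuous_dens.comp_continuousOn
          (hfdc.comp e.continuous.continuousOn hmap))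
      · rw [ae_restrict_iff' hΩ.measurableSet]
        refine Eventually.of_forall fun w hw => ?_
        rw [Real.norm_eq_abs, smul_eq_mul, abs_of_nonneg (mul_nonneg (abs_nonneg _) (dens_nonneg _))]
        exact hpt w hw
    have hLi' : IntegrableOn (fun z => dens (fderiv ℝ u z)) Ω := by
      rw [← himg]
      exact (integrableOn_image_iff_integrableOn_abs_det_fderiv_smul volume hΩ.measurableSet
        (fun w _ => (heP w).hasFDerivWithinAt) hinj _).2 hLi
    have hcv : ∫ z in Ω, dens (fderiv ℝ u z) = ∫ w in Ω, |(P w).det| • dens (fderiv ℝ u (e w)) := by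
      conv_lhs => rw [← himg]
      exact integral_image_eq_integral_abs_det_fderiv_smul volume hΩ.measurableSet
        (fun w _ => (heP w).hasFDerivWithinAt) hinj _
    have huS : IsSobolevHomeo Ω Ω' u (fderiv ℝ u) := by
      refine ⟨⟨?_, ?_, ?_⟩, huC.continuousOn, ⟨fun w => e (g w), ?_, ?_⟩, weakDeriv_C1 hΩ huC, ?_, ?_⟩
      · intro z hz; exact hbij.mapsTo (hsymm z hz)
      · intro z hz w hw hzw
        exact e.symm.injective (hbij.injOn (hsymm z hz) (hsymm w hw) hzw)
      · intro w hw
        obtain ⟨z, hz, hzw⟩ := hbij.surjOn hw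
        refine ⟨e z, hmap z hz, ?_⟩
        rw [hu]; simp only [e.symm_apply_apply]; exact hzw
      · exact e.continuous.comp_continuousOn hg.continuousOn
      · intro z hz
        show e (g (h (e.symm z))) = z
        rw [hgh _ (hsymm z hz), e.apply_symm_apply]
      · obtain ⟨B, hB⟩ := hb'.exists_norm_le
        refine memLp_of_bdd hΩ hb.measure_lt_top.ne huC.continuousOn (C := B) (fun z hz => ?_)
        exact hB _ (hbij.mapsTo (hsymm z hz))
      · exact memLp_of_integrable_dens (hfdc.aestronglyMeasurable hΩ.measurableSet) hLi'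
    have hle := min_le hΩ hmin huS
    rw [hcv] at hle
    have hle2 : ∫ w in Ω, |(P w).det| • dens (fderiv ℝ u (e w)) ≤ ∫ w in Ω, (dens (fderiv ℝ h w) +
        8 * t * Y w + 16 * M ^ 2 * t ^ 2 * dens (fderiv ℝ h w)) := by
      apply setIntegral_mono_on hLi hRi hΩ.measurableSet
      intro w hw
      rw [smul_eq_mul]; exact hpt w hw
    rw [integral_add3 hiE (hYi.const_mul _) (hiE.const_mul _), integral_const_mul,
      integral_const_mul] at hle2
    rw [← hE] at hle hle2
    nlinarith
  linarith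

end Pool.Agent.H366R3.ED
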