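import Mathlib
import Pool.Agent.H366R3.ED.Inner
import Pool.Agent.H366R3.ED.Polar

set_option autoImplicit false

open Set Filter Topology MeasureTheory Metric
open scoped ContDiff ENNReal NNReal ComplexConjugate Real

namespace Pool.Agent.H366R3.ED

/-- the radial cutoff -/
noncomputable def cut (s : ℝ) : ℝ :=
  Real.smoothTransition (10 * (s - 6 / 10)) * (1 - Real.smoothTransition (s - 2))

lemma cut_smooth : ContDiff ℝ ∞ cut := by
  unfold cut
  exact (Real.smoothTransition.contDiff.comp (contDiff_const.mul (contDiff_id.sub contDiff_const))).mul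
    (contDiff_const.sub (Real.smoothTransition.contDiff.comp (contDiff_id.sub contDiff_const)))

lemma cut_zero {s : ℝ} (h : s ≤ 6 / 10) : cut s = 0 := by
  rw [cut, Real.smoothTransition.zero_of_nonpos (by linarith), zero_mul]

lemma cut_zero' {s : ℝ} (h : 3 ≤ s) : cut s = 0 := by
  rw [cut, Real.smoothTransition.one_of_one_le (x := s - 2) (by linarith), sub_self, mul_zero]

lemma cut_one : cut 1 = 1 := by
  rw [cut, Real.smoothTransition.one_of_one_le (by norm_num),
    Real.smoothTransition.zero_of_nonpos (by norm_num)]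
  norm_num

/-- the test function -/
noncomputable def bt (l : ℂ) (m : ℕ) (w : ℂ) : ℝ := (l * conj w ^ m).re * cut (Complex.normSq w)

lemma normSq_smooth : ContDiff ℝ ∞ Complex.normSq := by
  have : (fun z : ℂ => Complex.normSq z) = fun z => z.re * z.re + z.im * z.im := by
    funext z; exact Complex.normSq_apply z
  show ContDiff ℝ ∞ (fun z : ℂ => Complex.normSq z)
  rw [this]
  exact (Complex.reCLM.contDiff.mul Complex.reCLM.contDiff).add
    (Complex.imCLM.contDiff.mul Complex.imCLM.contDiff)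

lemma bt_smooth (l : ℂ) (m : ℕ) : ContDiff ℝ ∞ (bt l m) := by
  unfold bt
  exact (Complex.reCLM.contDiff.comp (contDiff_const.mul (Complex.conjCLE.contDiff.pow m))).mul
    (cut_smooth.comp normSq_smooth)

lemma bt_zero (l : ℂ) (m : ℕ) {w : ℂ} (h : Complex.normSq w ≤ 6 / 10) : bt l m w = 0 := by
  rw [bt, cut_zero h, mul_zero]

lemma bt_supp (l : ℂ) (m : ℕ) : tsupport (bt l m) ⊆ {w | 6 / 10 ≤ Complex.normSq w} ∩
    closedBall 0 2 := by
  apply closure_minimal
  · intro w hw
    constructor
    · by_contra hcon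
      exact hw (bt_zero l m (not_le.1 hcon).le)
    · by_contra hcon
      rw [mem_closedBall_zero_iff, not_le] at hcon
      apply hw
      have : 3 ≤ Complex.normSq w := by
        rw [Complex.normSq_eq_norm_sq]; nlinarith
      rw [bt, cut_zero' this, mul_zero]
  · exact (isClosed_le continuous_const Complex.continuous_normSq).inter isClosed_closedBall

lemma bt_compact (l : ℂ) (m : ℕ) : HasCompactSupport (bt l m) :=
  (isCompact_closedBall (0 : ℂ) 2).of_isClosed_subset (isClosed_tsupport _)
    ((bt_supp l m).trans inter_subset_right)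

lemma lin_mul {f g : ℂ → ℂ} {a b c d w : ℂ} (hf : HasFDerivAt f (lin a b) w)
    (hg : HasFDerivAt g (lin c d) w) :
    HasFDerivAt (fun z => f z * g z) (lin (f w * c + g w * a) (f w * d + g w * b)) w := by
  refine (hf.mul hg).congr_fderiv ?_
  apply clm_ext <;>
  · simp only [add_apply, smul_apply, lin_apply, smul_eq_mul]
    ring

lemma cb_of {β : ℂ → ℝ} {a b w : ℂ} (hβ : DifferentiableAt ℝ β w)
    (h : HasFDerivAt (fun z => (β z : ℂ)) (lin a b) w) : cb β w = b := by
  have h1 : HasFDerivAt (fun z => (β z : ℂ)) (Complex.ofRealCLM.comp (fderiv ℝ β w)) w :=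
    Complex.ofRealCLM.hasFDerivAt.comp w hβ.hasFDerivAt
  have h2 := h1.unique h
  have e1 : ((fderiv ℝ β w 1 : ℝ) : ℂ) = lin a b 1 := by rw [← h2]; rfl
  have e2 : ((fderiv ℝ β w Complex.I : ℝ) : ℂ) = lin a b Complex.I := by rw [← h2]; rfl
  rw [cb, e1, e2, lin_apply, lin_apply]
  simp
  linear_combination (a / 2 - b / 2) * Complex.I_sq

lemma hasFDerivAt_holo {f : ℂ → ℂ} {f' w : ℂ} (h : HasDerivAt f f' w) :
    HasFDerivAt f (lin f' 0) w := by
  have h1 := h.hasFDerivAt.restrictScalars ℝ
  refine h1.congr_fderiv ?_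
  apply clm_ext <;> simp [lin_apply, mul_comm]

lemma cb_bt (l : ℂ) (k : ℕ) (w : ℂ) : w * cb (bt l (k + 2)) w =
    (1 / 2) * l * ((k + 2 : ℕ) * w * conj w ^ (k + 1)) * (cut (Complex.normSq w) : ℂ) +
      (1 / 2) * (l * conj w ^ (k + 2) + conj l * w ^ (k + 2)) * w ^ 2 *
        ((deriv cut (Complex.normSq w) : ℝ) : ℂ) := by
  set m := k + 2 with hm
  have e : (fun z => (bt l m z : ℂ)) = fun z => ((1 / 2) * (l * conj z ^ m) +
      (1 / 2) * (conj l * z ^ m)) * (cut (Complex.normSq z) : ℂ) := by
    funext z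
    rw [bt, Complex.ofReal_mul, Complex.re_eq_add_conj]
    simp only [map_mul, map_pow, Complex.conj_conj]
    ring
  have h1 : HasFDerivAt (fun z : ℂ => z ^ m) (lin (m * w ^ (k + 1)) 0) w := by
    have := hasDerivAt_pow m w
    exact hasFDerivAt_holo this
  have h2 : HasFDerivAt (fun z : ℂ => conj z ^ m) (lin 0 (m * conj w ^ (k + 1))) w := by
    have h3 : HasFDerivAt (fun z : ℂ => z ^ m) (lin (m * (conj w) ^ (k + 1)) 0) (conj w) :=
      hasFDerivAt_holo (hasDerivAt_pow m (conj w))
    have h4 : HasFDerivAt (fun z : ℂ => conj z) (lin 0 1) w := by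
      have := (Complex.conjCLE : ℂ ≃L[ℝ] ℂ).hasFDerivAt (x := w)
      refine this.congr_fderiv ?_
      apply clm_ext <;> simp [lin_apply]
    have h5 := h3.comp w h4
    refine h5.congr_fderiv ?_
    rw [lin_comp]
    congr 1 <;> simp
  have h6 : HasFDerivAt (fun z : ℂ => (cut (Complex.normSq z) : ℂ))
      (lin (((deriv cut (Complex.normSq w) : ℝ) : ℂ) * conj w) (((deriv cut (Complex.normSq w) : ℝ) : ℂ) * w)) w := by
    have h7 : HasFDerivAt (fun z : ℂ => z * conj z) (lin (conj w) w) w := by
      have h8 : HasFDerivAt (fun z : ℂ => z) (lin 1 0) w := hasFDerivAt_holo (hasDerivAt_id w)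
      have h9 : HasFDerivAt (fun z : ℂ => conj z) (lin 0 1) w := by
        have := (Complex.conjCLE : ℂ ≃L[ℝ] ℂ).hasFDerivAt (x := w)
        refine this.congr_fderiv ?_
        apply clm_ext <;> simp [lin_apply]
      simpa using lin_mul h8 h9
    have h10 : HasFDerivAt (fun z : ℂ => Complex.normSq z) (fderiv ℝ Complex.normSq w) w :=
      (normSq_smooth.differentiable (by norm_num) w).hasFDerivAt
    have h11 : HasFDerivAt (fun z : ℂ => ((Complex.normSq z : ℝ) : ℂ))
        (Complex.ofRealCLM.comp (fderiv ℝ Complex.normSq w)) w :=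
      Complex.ofRealCLM.hasFDerivAt.comp w h10
    have h12 : (fun z : ℂ => z * conj z) = fun z => ((Complex.normSq z : ℝ) : ℂ) := by
      funext z; exact Complex.mul_conj z
    rw [h12] at h7
    have h13 := h11.unique h7
    have h14 : HasDerivAt cut (deriv cut (Complex.normSq w)) (Complex.normSq w) :=
      (cut_smooth.differentiable (by norm_num) _).hasDerivAt
    have h15 := h14.comp_hasFDerivAt w h10
    have h16 : HasFDerivAt (fun z : ℂ => ((cut (Complex.normSq z) : ℝ) : ℂ)) _ w :=
      Complex.ofRealCLM.hasFDerivAt.comp w h15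
    refine h16.congr_fderiv ?_
    have k1 : ((fderiv ℝ Complex.normSq w 1 : ℝ) : ℂ) = lin (conj w) w 1 := by rw [← h13]; rfl
    have k2 : ((fderiv ℝ Complex.normSq w Complex.I : ℝ) : ℂ) = lin (conj w) w Complex.I := by
      rw [← h13]; rfl
    apply clm_ext
    · have : (Complex.ofRealCLM ∘SL ((deriv cut (Complex.normSq w) : ℝ) • fderiv ℝ Complex.normSq w)) 1 =
        ((deriv cut (Complex.normSq w) : ℝ) : ℂ) * ((fderiv ℝ Complex.normSq w 1 : ℝ) : ℂ) := by simp
      rw [this, k1, lin_apply, lin_apply]; ring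
    · have : (Complex.ofRealCLM ∘SL ((deriv cut (Complex.normSq w) : ℝ) • fderiv ℝ Complex.normSq w))
          Complex.I =
        ((deriv cut (Complex.normSq w) : ℝ) : ℂ) * ((fderiv ℝ Complex.normSq w Complex.I : ℝ) : ℂ) := by
        simp
      rw [this, k2, lin_apply, lin_apply]; ring
  have h7 : HasFDerivAt (fun z : ℂ => (1 / 2) * (l * conj z ^ m) + (1 / 2) * (conj l * z ^ m))
      (lin ((1 / 2) * (conj l * (m * w ^ (k + 1)))) ((1 / 2) * (l * (m * conj w ^ (k + 1))))) w := by
    have a1 := (h2.const_mul l).const_mul (1 / 2 : ℂ)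
    have a2 := (h1.const_mul (conj l)).const_mul (1 / 2 : ℂ)
    refine (a1.add a2).congr_fderiv ?_
    apply clm_ext <;>
    · simp only [add_apply, smul_apply, lin_apply, smul_eq_mul]
      ring
  have h8 := lin_mul h7 h6
  rw [← e] at h8
  rw [cb_of ((bt_smooth l m).differentiable (by norm_num) w) h8]
  ring

end Pool.Agent.H366R3.ED
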