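import Mathlib
import Pool.Agent.H366R3.ED.Laurent

set_option autoImplicit false

open Set Filter Topology MeasureTheory Metric
open scoped ContDiff ENNReal NNReal ComplexConjugate Real

namespace Pool.Agent.H366R3.ED

/-- first radial coefficient -/
noncomputable def c1 (k : ℕ) (r : ℝ) : ℝ :=
  (k + 2 : ℕ) * r ^ (2 * (k + 1)) * cut (r ^ 2) + r ^ (2 * (k + 2)) * deriv cut (r ^ 2)

lemma kappa_circle (l : ℂ) (k : ℕ) {r : ℝ} (hr : 0 < r) {w : ℂ} (hw : ‖w‖ = r) :
    w * cb (bt l (k + 2)) w = (1 / 2 * l * (c1 k r : ℂ)) * (w ^ k)⁻¹ +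
      (1 / 2 * conj l * ((deriv cut (r ^ 2) : ℝ) : ℂ)) * w ^ (k + 4) := by
  have hw0 : w ≠ 0 := by rintro rfl; rw [norm_zero] at hw; linarith
  have hww : w * conj w = (r : ℂ) ^ 2 := by
    rw [Complex.mul_conj, Complex.normSq_eq_norm_sq, hw]; push_cast; rfl
  have e1 : w * conj w ^ (k + 1) = (r : ℂ) ^ (2 * (k + 1)) * (w ^ k)⁻¹ := by
    rw [pow_mul, ← hww, mul_pow]
    field_simp
    ring
  have e2 : conj w ^ (k + 2) * w ^ 2 = (r : ℂ) ^ (2 * (k + 2)) * (w ^ k)⁻¹ := by
    rw [pow_mul, ← hww, mul_pow]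
    field_simp
    ring
  rw [cb_bt, Complex.normSq_eq_norm_sq, hw, c1]
  push_cast
  linear_combination (1 / 2 * l * ((k : ℂ) + 2) * ((cut (r ^ 2) : ℝ) : ℂ)) * e1 +
    (1 / 2 * l * ((deriv cut (r ^ 2) : ℝ) : ℂ)) * e2

lemma int_c1 (k : ℕ) : ∫ r in (3 / 4 : ℝ)..1, 2 * r * c1 k r = 1 := by
  have hd : ∀ r : ℝ, HasDerivAt (fun r : ℝ => (r ^ 2) ^ (k + 2) * cut (r ^ 2)) (2 * r * c1 k r) r := by
    intro r
    have h1 : HasDerivAt (fun r : ℝ => r ^ 2) (2 * r) r := by
      simpa using hasDerivAt_pow 2 r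
    have h2 : HasDerivAt cut (deriv cut (r ^ 2)) (r ^ 2) :=
      (cut_smooth.differentiable (by norm_num) _).hasDerivAt
    have h3 : HasDerivAt (fun r : ℝ => cut (r ^ 2)) (deriv cut (r ^ 2) * (2 * r)) r :=
      HasDerivAt.comp (h₂ := cut) (h := fun r : ℝ => r ^ 2) r h2 h1
    have h4 := (h1.pow (k + 2)).mul h3
    refine h4.congr_deriv ?_
    rw [c1, pow_mul, pow_mul]
    simp only [Nat.add_one_sub_one, Pi.pow_apply]
    push_cast
    ring
  have hc : Continuous fun r : ℝ => 2 * r * c1 k r := by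
    have h5 : Continuous (deriv cut) := cut_smooth.continuous_deriv (by norm_num)
    have h6 : Continuous cut := cut_smooth.continuous
    unfold c1
    fun_prop
  rw [intervalIntegral.integral_eq_sub_of_hasDerivAt (fun r _ => hd r) (hc.intervalIntegrable _ _)]
  rw [cut_zero (s := (3 / 4) ^ 2) (by norm_num)]
  simp [cut_one]

lemma int_c2 : ∫ r in (3 / 4 : ℝ)..1, 2 * r * deriv cut (r ^ 2) = 1 := by
  have hd : ∀ r : ℝ, HasDerivAt (fun r : ℝ => cut (r ^ 2)) (2 * r * deriv cut (r ^ 2)) r := by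
    intro r
    have h1 : HasDerivAt (fun r : ℝ => r ^ 2) (2 * r) r := by
      simpa using hasDerivAt_pow 2 r
    have h2 : HasDerivAt cut (deriv cut (r ^ 2)) (r ^ 2) :=
      (cut_smooth.differentiable (by norm_num) _).hasDerivAt
    have h3 : HasDerivAt (fun r : ℝ => cut (r ^ 2)) (deriv cut (r ^ 2) * (2 * r)) r :=
      HasDerivAt.comp (h₂ := cut) (h := fun r : ℝ => r ^ 2) r h2 h1
    refine h3.congr_deriv ?_
    ring
  have hc : Continuous fun r : ℝ => 2 * r * deriv cut (r ^ 2) := by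
    have h5 : Continuous (deriv cut) := cut_smooth.continuous_deriv (by norm_num)
    fun_prop
  rw [intervalIntegral.integral_eq_sub_of_hasDerivAt (fun r _ => hd r) (hc.intervalIntegrable _ _)]
  rw [cut_zero (s := (3 / 4) ^ 2) (by norm_num)]
  simp [cut_one]

lemma int_kappa {Φ : ℂ → ℂ} (hΦ : DifferentiableOn ℂ Φ (ann (3 / 4) 1))
    (hi : IntegrableOn Φ (ann (3 / 4) 1)) (l : ℂ) (k : ℕ) {s : ℝ} (hs : s ∈ Ioo (3 / 4 : ℝ) 1) :
    IntegrableOn (fun z => Φ z * (z * cb (bt l (k + 2)) z)) (ann (3 / 4) 1) ∧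
    ∫ z in ann (3 / 4) 1, Φ z * (z * cb (bt l (k + 2)) z) =
      (π / 2 : ℂ) * (l * Real.circleAverage (fun z => Φ z * (z ^ k)⁻¹) 0 s +
        conj l * Real.circleAverage (fun z => Φ z * z ^ (k + 4)) 0 s) := by
  set κ : ℂ → ℂ := fun z => z * cb (bt l (k + 2)) z with hκ
  have hκc : Continuous κ := continuous_id.mul (cb_continuous (bt_smooth l (k + 2)))
  obtain ⟨M, -, hM, -⟩ := bounds (bt_smooth l (k + 2)) (bt_compact l (k + 2))
  have hIi : IntegrableOn (fun z => Φ z * κ z) (ann (3 / 4) 1) := by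
    refine Integrable.mul_bdd (c := M) hi hκc.aestronglyMeasurable (Eventually.of_forall fun z => ?_)
    rw [hκ]; simp only [norm_mul]; exact hM z
  refine ⟨hIi, ?_⟩
  have hpa := polar_avg (f := fun z => Φ z * κ z) (by norm_num)
    (hΦ.continuousOn.mul hκc.continuousOn) hIi
  show ∫ z in ann (3 / 4) 1, Φ z * κ z = _
  rw [hpa]
  set A : ℂ := Real.circleAverage (fun z => Φ z * (z ^ k)⁻¹) 0 s with hA
  set B : ℂ := Real.circleAverage (fun z => Φ z * z ^ (k + 4)) 0 s with hB
  have hAd : DifferentiableOn ℂ (fun z => Φ z * (z ^ k)⁻¹) (ann (3 / 4) 1) := by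
    intro z hz
    have hz0 : z ≠ 0 := by
      rintro rfl
      have := hz.1; rw [norm_zero] at this; linarith
    exact (hΦ z hz).mul ((differentiableAt_id.pow k).inv (pow_ne_zero _ hz0)).differentiableWithinAt
  have hBd : DifferentiableOn ℂ (fun z => Φ z * z ^ (k + 4)) (ann (3 / 4) 1) :=
    hΦ.mul (differentiable_id.pow _).differentiableOn
  have hpt : ∀ r ∈ Ioo (3 / 4 : ℝ) 1, (2 * π * r) • Real.circleAverage (fun z => Φ z * κ z) 0 r =
      ((π / 2 : ℂ) * l * A) * ((2 * r * c1 k r : ℝ) : ℂ) +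
        ((π / 2 : ℂ) * conj l * B) * ((2 * r * deriv cut (r ^ 2) : ℝ) : ℂ) := by
    intro r hr
    have hr0 : 0 < r := by linarith [hr.1]
    have hsub : sphere (0 : ℂ) |r| ⊆ ann (3 / 4) 1 := by
      intro z hz
      rw [mem_sphere_zero_iff_norm, abs_of_pos hr0] at hz
      exact ⟨by rw [hz]; exact hr.1, by rw [hz]; exact hr.2⟩
    have e1 : Real.circleAverage (fun z => Φ z * κ z) 0 r =
        Real.circleAverage (fun z => (1 / 2 * l * (c1 k r : ℂ)) • (Φ z * (z ^ k)⁻¹) +
          (1 / 2 * conj l * ((deriv cut (r ^ 2) : ℝ) : ℂ)) • (Φ z * z ^ (k + 4))) 0 r := by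
      apply Real.circleAverage_congr_sphere
      intro z hz
      rw [mem_sphere_zero_iff_norm, abs_of_pos hr0] at hz
      simp only [hκ, smul_eq_mul]
      rw [kappa_circle l k hr0 hz]
      ring
    have i1 : CircleIntegrable (fun z => Φ z * (z ^ k)⁻¹) 0 r :=
      (hAd.continuousOn.mono hsub).circleIntegrable'
    have i2 : CircleIntegrable (fun z => Φ z * z ^ (k + 4)) 0 r :=
      (hBd.continuousOn.mono hsub).circleIntegrable'
    rw [e1, Real.circleAverage_fun_add (f₁ := fun z => (1 / 2 * l * (c1 k r : ℂ)) • (Φ z * (z ^ k)⁻¹))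
      (f₂ := fun z => (1 / 2 * conj l * ((deriv cut (r ^ 2) : ℝ) : ℂ)) • (Φ z * z ^ (k + 4)))
      (i1.const_smul) (i2.const_smul),
      Real.circleAverage_fun_smul, Real.circleAverage_fun_smul,
      avg_const (by norm_num) hAd hr hs, avg_const (by norm_num) hBd hr hs, ← hA, ← hB,
      Complex.real_smul]
    simp only [smul_eq_mul]
    push_cast
    ring
  rw [setIntegral_congr_fun measurableSet_Ioo hpt]
  have h5 : Continuous (deriv cut) := cut_smooth.continuous_deriv (by norm_num)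
  have h6 : Continuous cut := cut_smooth.continuous
  have hcc1 : Continuous fun r : ℝ => (((2 * r * c1 k r : ℝ)) : ℂ) := by
    apply Complex.continuous_ofReal.comp
    unfold c1
    fun_prop
  have hcc2 : Continuous fun r : ℝ => (((2 * r * deriv cut (r ^ 2) : ℝ)) : ℂ) := by
    apply Complex.continuous_ofReal.comp
    fun_prop
  rw [← integral_Ioc_eq_integral_Ioo, ← intervalIntegral.integral_of_le (by norm_num),
    intervalIntegral.integral_add
      (f := fun r : ℝ => ((π / 2 : ℂ) * l * A) * ((2 * r * c1 k r : ℝ) : ℂ))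
      (g := fun r : ℝ => ((π / 2 : ℂ) * conj l * B) * ((2 * r * deriv cut (r ^ 2) : ℝ) : ℂ))
      ((continuous_const.mul hcc1).intervalIntegrable _ _)
      ((continuous_const.mul hcc2).intervalIntegrable _ _),
    intervalIntegral.integral_const_mul, intervalIntegral.integral_const_mul,
    intervalIntegral.integral_ofReal, intervalIntegral.integral_ofReal, int_c1, int_c2]
  push_cast
  ring

/-- the relation between the Laurent coefficients of the Hopf differential -/
theorem laurent {K Ω' : Set ℂ} (hK : IsClosed K) (hK34 : K ⊆ closedBall 0 (3 / 4))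
    (hΩ' : IsOpen Ω') (hb' : Bornology.IsBounded Ω') {h : ℂ → ℂ}
    (hmin : IsEnergyMinimalDiffeo (ball 0 1 \ K) Ω' h) (k : ℕ) {s : ℝ}
    (hs : s ∈ Ioo (3 / 4 : ℝ) 1) :
    Real.circleAverage (fun z => (dz h z * cz h z) * (z ^ k)⁻¹) 0 s =
      conj (Real.circleAverage (fun z => (dz h z * cz h z) * z ^ (k + 4)) 0 s) := by
  have hΩ : IsOpen (ball (0 : ℂ) 1 \ K) := isOpen_ball.sdiff hK
  have hb : Bornology.IsBounded (ball (0 : ℂ) 1 \ K) := isBounded_ball.subset sdiff_subset
  obtain ⟨hF, hG⟩ := hol hΩ hΩ' hb hb' hmin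
  have hsub : ann (3 / 4) 1 ⊆ ball (0 : ℂ) 1 \ K := by
    intro z hz
    refine ⟨by rw [mem_ball_zero_iff]; exact hz.2, fun hcon => ?_⟩
    have := hK34 hcon
    rw [mem_closedBall_zero_iff] at this
    linarith [hz.1]
  set Φ : ℂ → ℂ := fun z => dz h z * cz h z with hΦ
  have hΦd : DifferentiableOn ℂ Φ (ann (3 / 4) 1) := (hF.mul hG).mono hsub
  have hiE := integrable_dens (memLp_of_energy hΩ hmin.1.1 hmin.2.2)
  have hΦi : IntegrableOn Φ (ann (3 / 4) 1) := by
    have h1 : IntegrableOn (fun z => dens (fderiv ℝ h z)) (ann (3 / 4) 1) :=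
      IntegrableOn.mono_set hiE hsub
    refine h1.mono' (hΦd.continuousOn.aestronglyMeasurable (ann_open _ _).measurableSet)
      (Eventually.of_forall fun z => ?_)
    rw [fderiv_eq_lin h z, dens_lin, hΦ, norm_mul, cz, Complex.norm_conj]
    nlinarith [sq_nonneg (‖dz h z‖ - ‖dzb h z‖), sq_nonneg ‖dz h z‖, sq_nonneg ‖dzb h z‖]
  set A : ℂ := Real.circleAverage (fun z => Φ z * (z ^ k)⁻¹) 0 s with hA
  set B : ℂ := Real.circleAverage (fun z => Φ z * z ^ (k + 4)) 0 s with hB
  have key : ∀ l : ℂ, (Complex.I * ((π / 2 : ℂ) * (l * A + conj l * B))).re = 0 := by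
    intro l
    obtain ⟨hi, hI⟩ := int_kappa hΦd hΦi l k hs
    rw [← hA, ← hB] at hI
    have h1 := inner_var hK hb' hmin (bt_smooth l (k + 2)) (bt_compact l (k + 2)) (by
      intro w hw
      apply bt_zero
      have := hK34 hw
      rw [mem_closedBall_zero_iff] at this
      rw [Complex.normSq_eq_norm_sq]
      nlinarith [norm_nonneg w])
    have h2 : ∫ z in ball 0 1 \ K, (Complex.I * (dz h z * cz h z) *
        (z * cb (bt l (k + 2)) z)).re = ∫ z in ann (3 / 4) 1, (Complex.I * (dz h z * cz h z) *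
        (z * cb (bt l (k + 2)) z)).re := by
      apply setIntegral_eq_of_subset_of_forall_sdiff_eq_zero hΩ.measurableSet hsub
      rintro z ⟨⟨hz1, hz2⟩, hz3⟩
      have h3 : z ∉ tsupport (bt l (k + 2)) := by
        intro hcon
        have h4 := (bt_supp l (k + 2) hcon).1
        apply hz3
        have h5 : 6 / 10 ≤ Complex.normSq z := h4
        rw [Complex.normSq_eq_norm_sq] at h5
        refine ⟨?_, by rwa [mem_ball_zero_iff] at hz1⟩
        by_contra hcon2
        rw [not_lt] at hcon2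
        nlinarith [norm_nonneg z]
      rw [cb_zero h3]; simp
    rw [h2] at h1
    have h3 : ∫ z in ann (3 / 4) 1, (Complex.I * (dz h z * cz h z) *
        (z * cb (bt l (k + 2)) z)).re = (Complex.I * ∫ z in ann (3 / 4) 1,
          Φ z * (z * cb (bt l (k + 2)) z)).re := by
      have h4 := integral_re (hi.const_mul Complex.I)
      rw [integral_const_mul] at h4
      refine Eq.trans ?_ h4
      congr 1
      funext z
      show _ = (Complex.I * (Φ z * (z * cb (bt l (k + 2)) z))).re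
      congr 1
      rw [hΦ]; ring
    rw [h3, hI] at h1
    exact h1
  have k1 := key 1
  have k2 := key Complex.I
  have e1 : (Complex.I * ((π / 2 : ℂ) * (1 * A + conj 1 * B))).re = -(π / 2) * (A.im + B.im) := by
    have : Complex.I * ((π / 2 : ℂ) * (1 * A + conj 1 * B)) =
        ((π / 2 : ℝ) : ℂ) * (Complex.I * (A + B)) := by
      rw [map_one]; push_cast; ring
    rw [this, Complex.re_ofReal_mul]
    simp
    ring
  have e2 : (Complex.I * ((π / 2 : ℂ) * (Complex.I * A + conj Complex.I * B))).re =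
      -(π / 2) * (A.re - B.re) := by
    have : Complex.I * ((π / 2 : ℂ) * (Complex.I * A + conj Complex.I * B)) =
        ((π / 2 : ℝ) : ℂ) * (B - A) := by
      rw [Complex.conj_I]; push_cast
      linear_combination (π / 2 * (A - B)) * Complex.I_sq
    rw [this, Complex.re_ofReal_mul]
    simp
    ring
  rw [e1] at k1
  rw [e2] at k2
  have hπ := Real.pi_pos
  have k1' : A.im + B.im = 0 := by
    rcases mul_eq_zero.1 k1 with h | h
    · linarith
    · exact h
  have k2' : A.re - B.re = 0 := by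
    rcases mul_eq_zero.1 k2 with h | h
    · linarith
    · exact h
  apply Complex.ext
  · rw [Complex.conj_re]; linarith
  · rw [Complex.conj_im]; linarith

end Pool.Agent.H366R3.ED
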