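import Mathlib
import Pool.Agent.H366R3.ED.Final1
import Pool.Agent.H366R3.ED.Lin

set_option autoImplicit false

open Set Filter Topology MeasureTheory Metric
open scoped ContDiff ENNReal NNReal ComplexConjugate Real

namespace Pool.Agent.H366R3.ED

variable {l : Ultrafilter ℕ} {ρ : ℕ → ℝ} {h g : ℕ → ℂ → ℂ} {k f : ℂ → ℂ}

/-- compact sets are eventually in the domains -/
lemma compact_in {K : Set ℂ} (hK : IsCompact K) (hKO : K ⊆ Om 1 0) (hρ : Tendsto ρ l (𝓝 0)) :
    ∀ᶠ n in (l : Filter ℕ), K ⊆ Om 1 (ρ n) := by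
  have c2 : Continuous fun w : ℂ => min ‖w‖ ‖w - 1 / 2‖ := by fun_prop
  rcases K.eq_empty_or_nonempty with rfl | hne
  · exact Eventually.of_forall fun n => empty_subset _
  obtain ⟨w0, hw0, hmin⟩ := hK.exists_isMinOn hne c2.continuousOn
  have hpos : 0 < min ‖w0‖ ‖w0 - 1 / 2‖ := by
    obtain ⟨-, h1, h2⟩ := mem_Om.1 (hKO hw0)
    exact lt_min h1 h2
  filter_upwards [hρ.eventually (gt_mem_nhds hpos)] with n hn z hz
  have h1 : min ‖w0‖ ‖w0 - 1 / 2‖ ≤ min ‖z‖ ‖z - 1 / 2‖ := hmin hz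
  have h2 := hn.trans_le h1
  rw [lt_min_iff] at h2
  exact mem_Om.2 ⟨(mem_Om.1 (hKO hz)).1, h2.1, h2.2⟩

lemma fderiv_eq_sum (h : ℂ → ℂ) (z : ℂ) : fderiv ℝ h z 1 = dz h z + dzb h z ∧
    Complex.I * fderiv ℝ h z Complex.I = dzb h z - dz h z := by
  constructor
  · rw [dz, dzb]; ring
  · rw [dz, dzb]; ring

/-- convergence of test integrals -/
lemma test_lim (hρ : Tendsto ρ l (𝓝 0)) {H : ℕ → ℂ → ℂ} {k : ℂ → ℂ} (hcc : CC l (Om 1 0) H k)
    (hH : ∀ n, ContinuousOn (H n) (Om 1 (ρ n))) (hk : ContinuousOn k (Om 1 0)) {ψ : ℂ → ℂ}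
    (hψ : Continuous ψ) {S : Set ℂ} (hS : IsCompact S) (hSO : S ⊆ Om 1 0)
    (hψS : ∀ z ∉ S, ψ z = 0) :
    Tendsto (fun n => ∫ z, ψ z * H n z) l (𝓝 (∫ z, ψ z * k z)) := by
  have e : ∀ f : ℂ → ℂ, ∫ z, ψ z * f z = ∫ z in S, f z * ψ z := by
    intro f
    rw [setIntegral_eq_integral_of_forall_compl_eq_zero]
    · congr 1; funext z; ring
    · intro z hz; rw [hψS z hz, mul_zero]
  simp_rw [e]
  have hc2 := hcc.mul_fun (Om_open 1 0) (g := ψ) hψ.continuousOn
  apply hc2.setIntegral (Om_open 1 0) (hk.mul hψ.continuousOn) hS hSO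
  filter_upwards [compact_in hS hSO hρ] with n hn
  exact ((hH n).mono hn).mul hψ.continuousOn

lemma compact_int_det {n : ℕ} (hC1 : ContDiffOn ℝ 1 (h n) (Om 1 (ρ n)))
    (H : IsH (Om 1 (ρ n)) (Om 4 (ρ n)) (h n) (g n)) {K : Set ℂ} (hK : IsCompact K)
    (hKO : K ⊆ Om 1 (ρ n)) :
    |∫ z in K, (‖dz (h n) z‖ ^ 2 - ‖dzb (h n) z‖ ^ 2)| ≤ 16 * π := by
  have hfc : ContinuousOn (fderiv ℝ (h n)) (Om 1 (ρ n)) :=
    hC1.continuousOn_fderiv_of_isOpen (Om_open _ _) le_rfl
  have hd : ∀ z ∈ K, HasFDerivWithinAt (h n) (fderiv ℝ (h n) z) K z := fun z hz =>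
    ((hC1.differentiableOn one_ne_zero).differentiableAt
      ((Om_open _ _).mem_nhds (hKO hz))).hasFDerivAt.hasFDerivWithinAt
  have hinj : InjOn (h n) K := by
    intro z hz w hw hzw
    rw [← H.gh z (hKO hz), hzw, H.gh w (hKO hw)]
  have h1 := lintegral_abs_det_fderiv_eq_addHaar_image volume hK.measurableSet hd hinj
  have hdet : ∀ z, (fderiv ℝ (h n) z).det = ‖dz (h n) z‖ ^ 2 - ‖dzb (h n) z‖ ^ 2 := by
    intro z
    conv_lhs => rw [fderiv_eq_lin (h n) z]
    rw [det_lin]
  simp_rw [hdet] at h1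
  have hc : ContinuousOn (fun z => ‖dz (h n) z‖ ^ 2 - ‖dzb (h n) z‖ ^ 2) K := by
    have c1 : ∀ v, ContinuousOn (fun z => fderiv ℝ (h n) z v) K := fun v =>
      (hfc.mono hKO).clm_apply continuousOn_const
    unfold dz dzb
    exact ((((c1 1).sub (continuousOn_const.mul (c1 Complex.I))).div_const 2).norm.pow 2).sub
      ((((c1 1).add (continuousOn_const.mul (c1 Complex.I))).div_const 2).norm.pow 2)
  have hi : IntegrableOn (fun z => |‖dz (h n) z‖ ^ 2 - ‖dzb (h n) z‖ ^ 2|) K :=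
    hc.abs.integrableOn_compact hK
  have h2 : ∫ z in K, |‖dz (h n) z‖ ^ 2 - ‖dzb (h n) z‖ ^ 2| ≤ 16 * π := by
    have hπ := Real.pi_pos
    have h3 : ENNReal.ofReal (∫ z in K, |‖dz (h n) z‖ ^ 2 - ‖dzb (h n) z‖ ^ 2|) ≤
        ENNReal.ofReal (16 * π) := by
      rw [ofReal_integral_eq_lintegral_ofReal hi (Eventually.of_forall fun z => abs_nonneg _), h1]
      calc volume (h n '' K) ≤ volume (ball (0 : ℂ) 4) := by
            apply measure_mono
            rintro w ⟨z, hz, rfl⟩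
            rw [mem_ball_zero_iff]
            exact (mem_Om.1 (H.hm (hKO hz))).1
        _ = ENNReal.ofReal (16 * π) := by
            have hpi : ENNReal.ofReal π = (NNReal.pi : ℝ≥0∞) := by
              rw [← NNReal.coe_real_pi, ENNReal.ofReal_coe_nnreal]
            rw [Complex.volume_ball, ENNReal.ofReal_mul (by norm_num), hpi,
              ← ENNReal.ofReal_pow (by norm_num)]
            norm_num
    exact (ENNReal.ofReal_le_ofReal_iff (by positivity)).1 h3
  exact (abs_integral_le_integral_abs).trans h2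

/-- construction of the data -/
lemma mkData (ρ0 : ∀ n, 0 < ρ n) (ρ8 : ∀ n, ρ n ≤ 1 / 8) (ρt : Tendsto ρ l (𝓝 0))
    (H : ∀ n, IsH (Om 1 (ρ n)) (Om 4 (ρ n)) (h n) (g n))
    (C1 : ∀ n, ContDiffOn ℝ 1 (h n) (Om 1 (ρ n)))
    (mem : ∀ n, IntegrableOn (fun z => ‖fderiv ℝ (h n) z‖ ^ 2) (Om 1 (ρ n)))
    (en : ∀ n, ∫ z in Om 1 (ρ n), ‖fderiv ℝ (h n) z‖ ^ 2 ≤ 1600 * π)
    (cc : CC l (Om 1 0) h k) (ccf : CC l (Om 1 0) (fun n => dz (h n)) f)
    (ccz : CC l (Om 1 0) (fun n => dzb (h n)) (fun _ => 0)) : Data l ρ h g k := by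
  have hkc := cc.continuousOn (Om_open 1 0)
  have hfc := ccf.continuousOn (Om_open 1 0)
  have hhc : ∀ n, ContinuousOn (h n) (Om 1 (ρ n)) := fun n => (C1 n).continuousOn
  have hdc : ∀ n v, ContinuousOn (fun z => fderiv ℝ (h n) z v) (Om 1 (ρ n)) := fun n v =>
    ((C1 n).continuousOn_fderiv_of_isOpen (Om_open _ _) le_rfl).clm_apply continuousOn_const
  have hdzc : ∀ n, ContinuousOn (dz (h n)) (Om 1 (ρ n)) := fun n =>
    (((hdc n 1).sub (continuousOn_const.mul (hdc n Complex.I))).div_const 2)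
  have hdzbc : ∀ n, ContinuousOn (dzb (h n)) (Om 1 (ρ n)) := fun n =>
    (((hdc n 1).add (continuousOn_const.mul (hdc n Complex.I))).div_const 2)
  -- test functions
  have htest : ∀ φ : ℂ → ℝ, ContDiff ℝ ∞ φ → HasCompactSupport φ → tsupport φ ⊆ Om 1 0 →
      (∫ z, ((fderiv ℝ φ z 1 : ℂ) + Complex.I * (fderiv ℝ φ z Complex.I : ℂ)) * k z = 0) ∧
      (∫ z, (fderiv ℝ φ z 1 : ℂ) * k z = - ∫ z, (φ z : ℂ) * f z) := by
    intro φ hφ hφc hφO
    have hsv : ∀ v, tsupport (fun z => fderiv ℝ φ z v) ⊆ tsupport φ := by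
      intro v
      refine (closure_mono ?_).trans (tsupport_fderiv_subset ℝ (f := φ))
      intro w hw h0
      apply hw
      show fderiv ℝ φ w v = 0
      rw [h0]; rfl
    have hcv : ∀ v, Continuous fun z => fderiv ℝ φ z v := fun v =>
      (hφ.continuous_fderiv (by norm_num)).clm_apply continuous_const
    have hkv : ∀ v, HasCompactSupport fun z => fderiv ℝ φ z v := fun v =>
      hφc.of_isClosed_subset (isClosed_tsupport _) (hsv v)
    have hz0 : ∀ z ∉ tsupport φ, φ z = 0 := fun z hz => by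
      by_contra hne; exact hz (subset_tsupport _ hne)
    have hzv : ∀ v, ∀ z ∉ tsupport φ, fderiv ℝ φ z v = 0 := fun v z hz => by
      by_contra hne; exact hz (hsv v (subset_tsupport _ hne))
    have hev := compact_in hφc hφO ρt
    -- the identities for large n
    have hid : ∀ᶠ n in (l : Filter ℕ), ∀ v, ∫ z, ((fderiv ℝ φ z v : ℝ) : ℂ) * h n z =
        - ∫ z, (φ z : ℂ) * fderiv ℝ (h n) z v := by
      filter_upwards [hev] with n hn v
      have hw := (weakDeriv_C1 (Om_open 1 (ρ n)) (C1 n)).2.2 φ hφ hφc hn v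
      simpa [Complex.real_smul] using hw
    constructor
    · have t1 := test_lim ρt cc hhc hkc (ψ := fun z => (fderiv ℝ φ z 1 : ℂ) +
        Complex.I * (fderiv ℝ φ z Complex.I : ℂ))
        ((Complex.continuous_ofReal.comp (hcv 1)).add
          (continuous_const.mul (Complex.continuous_ofReal.comp (hcv Complex.I)))) hφc hφO
        (by intro z hz; simp only [hzv 1 z hz, hzv Complex.I z hz]; simp)
      have t2 := test_lim ρt ccz hdzbc continuousOn_const (ψ := fun z => -2 * (φ z : ℂ))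
        (continuous_const.mul (Complex.continuous_ofReal.comp hφ.continuous)) hφc hφO
        (by intro z hz; simp only [hz0 z hz]; simp)
      simp only [mul_zero, integral_zero] at t2
      refine tendsto_nhds_unique (t1.congr' ?_) t2
      filter_upwards [hid, hev] with n hn hnO
      have i1 : ∀ v, Integrable fun z => ((fderiv ℝ φ z v : ℝ) : ℂ) * h n z := fun v =>
        test_integrable (Om_open 1 (ρ n)) (hhc n) (hcv v) (hkv v) ((hsv v).trans hnO)
      have i2 : ∀ v, Integrable fun z => (φ z : ℂ) * fderiv ℝ (h n) z v := fun v =>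
        test_integrable (Om_open 1 (ρ n)) (hdc n v) hφ.continuous hφc hnO
      have e1 : ∀ z, ((fderiv ℝ φ z 1 : ℂ) + Complex.I * (fderiv ℝ φ z Complex.I : ℂ)) * h n z =
          ((fderiv ℝ φ z 1 : ℝ) : ℂ) * h n z +
            Complex.I * (((fderiv ℝ φ z Complex.I : ℝ) : ℂ) * h n z) := fun z => by ring
      have e2 : ∀ z, -2 * (φ z : ℂ) * dzb (h n) z = -((φ z : ℂ) * fderiv ℝ (h n) z 1 +
          Complex.I * ((φ z : ℂ) * fderiv ℝ (h n) z Complex.I)) := by
        intro z
        rw [dzb]; ring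
      simp_rw [e1, e2]
      rw [integral_add (i1 1) ((i1 Complex.I).const_mul _), integral_const_mul, integral_neg,
        integral_add (i2 1) ((i2 Complex.I).const_mul _), integral_const_mul, hn 1, hn Complex.I]
      ring
    · have t1 := test_lim ρt cc hhc hkc (ψ := fun z => (fderiv ℝ φ z 1 : ℂ))
        (Complex.continuous_ofReal.comp (hcv 1)) hφc hφO
        (by intro z hz; simp only [hzv 1 z hz]; simp)
      have t2 := test_lim ρt ccf hdzc hfc (ψ := fun z => (φ z : ℂ))
        (Complex.continuous_ofReal.comp hφ.continuous) hφc hφO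
        (by intro z hz; simp only [hz0 z hz]; simp)
      have t3 := test_lim ρt ccz hdzbc continuousOn_const (ψ := fun z => (φ z : ℂ))
        (Complex.continuous_ofReal.comp hφ.continuous) hφc hφO
        (by intro z hz; simp only [hz0 z hz]; simp)
      simp only [mul_zero, integral_zero] at t3
      have t4 := (t2.add t3).neg
      rw [add_zero] at t4
      refine tendsto_nhds_unique (t1.congr' ?_) t4
      filter_upwards [hid, hev] with n hn hnO
      have i2 : Integrable fun z => (φ z : ℂ) * dz (h n) z :=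
        test_integrable (Om_open 1 (ρ n)) (hdzc n) hφ.continuous hφc hnO
      have i3 : Integrable fun z => (φ z : ℂ) * dzb (h n) z :=
        test_integrable (Om_open 1 (ρ n)) (hdzbc n) hφ.continuous hφc hnO
      rw [hn 1, ← integral_add i2 i3]
      congr 2
      funext z
      rw [(fderiv_eq_sum (h n) z).1]; ring
  have hol : DifferentiableOn ℂ k (Om 1 0) :=
    weyl (Om_open 1 0) hkc fun φ h1 h2 h3 => (htest φ h1 h2 h3).1
  refine ⟨ρ0, ρ8, ρt, H, C1, mem, en, cc, hol, ?_⟩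
  -- the derivative
  have hkC1 : ContDiffOn ℝ 1 k (Om 1 0) := by
    intro z hz
    exact ((hol.analyticAt ((Om_open 1 0).mem_nhds hz)).contDiffAt.restrict_scalars ℝ).contDiffWithinAt
  have hdk : ∀ z ∈ Om 1 0, fderiv ℝ k z 1 = deriv k z := by
    intro z hz
    have h1 : HasDerivAt k (deriv k z) z :=
      (hol.differentiableAt ((Om_open 1 0).mem_nhds hz)).hasDerivAt
    have h2 := h1.hasFDerivAt.restrictScalars ℝ
    rw [h2.fderiv]
    simp
  have hderc : ContinuousOn (deriv k) (Om 1 0) := (hol.deriv (Om_open 1 0)).continuousOn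
  have hae : ∀ᵐ z, z ∈ Om 1 0 → f z - deriv k z = 0 := by
    apply (Om_open 1 0).ae_eq_zero_of_integral_contDiff_smul_eq_zero
    · exact (hfc.sub hderc).locallyIntegrableOn (Om_open 1 0).measurableSet
    · intro φ hφ hφc hφO
      have h1 := (htest φ hφ hφc hφO).2
      have hw := (weakDeriv_C1 (Om_open 1 0) hkC1).2.2 φ hφ hφc hφO 1
      have i1 : Integrable fun z => (φ z : ℂ) * f z :=
        test_integrable (Om_open 1 0) hfc hφ.continuous hφc hφO
      have i2 : Integrable fun z => (φ z : ℂ) * deriv k z :=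
        test_integrable (Om_open 1 0) hderc hφ.continuous hφc hφO
      have e1 : ∀ z, φ z • (f z - deriv k z) = (φ z : ℂ) * f z - (φ z : ℂ) * deriv k z := by
        intro z; rw [Complex.real_smul]; ring
      simp_rw [e1]
      rw [integral_sub i1 i2]
      have e2 : ∫ z, (φ z : ℂ) * deriv k z = ∫ z, φ z • fderiv ℝ k z 1 := by
        congr 1
        funext z
        by_cases hz : z ∈ tsupport φ
        · rw [hdk z (hφO hz), Complex.real_smul]
        · have : φ z = 0 := by
            by_contra hne; exact hz (subset_tsupport _ hne)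
          rw [this]; simp
      have e3 : ∫ z, (fderiv ℝ φ z 1) • k z = ∫ z, (fderiv ℝ φ z 1 : ℂ) * k z := by
        congr 1
      rw [e2]
      rw [e3, h1] at hw
      have := neg_injective hw
      rw [this, sub_self]
  intro K hK hKO
  have e1 : ∫ z in K, ‖deriv k z‖ ^ 2 = ∫ z in K, (‖f z‖ ^ 2 - ‖(0 : ℂ)‖ ^ 2) := by
    apply setIntegral_congr_ae hK.measurableSet
    filter_upwards [hae] with z hz hzK
    have := hz (hKO hzK)
    rw [sub_eq_zero] at this
    rw [this]; simp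
  rw [e1]
  have hpair : CC l (Om 1 0) (fun n z => ‖dz (h n) z‖ ^ 2 - ‖dzb (h n) z‖ ^ 2)
      (fun z => ‖f z‖ ^ 2 - ‖(0 : ℂ)‖ ^ 2) :=
    fun z hz => (((ccf z hz).norm).pow 2).sub (((ccz z hz).norm).pow 2)
  have hlim := hpair.setIntegral (Om_open 1 0) ((hfc.norm.pow 2).sub continuousOn_const) hK hKO (by
    filter_upwards [compact_in hK hKO ρt] with n hn
    exact ((((hdzc n).mono hn).norm).pow 2).sub ((((hdzbc n).mono hn).norm).pow 2))
  apply le_of_tendsto hlim
  filter_upwards [compact_in hK hKO ρt] with n hn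
  exact (le_abs_self _).trans (compact_int_det (C1 n) (H n) hK hn)

end Pool.Agent.H366R3.ED
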